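import Pool.Agent.ThT2.Crd

/-! # 3D_4(2): the action of `SL_2(K)` on the coordinates -/

namespace Pool.Agent.ThT2

open ThT ThG

variable {K : Type*} [Field K] {G : Type*} [Group G] {x : Root → K → G} {τ : K →+* K}

/-- the homomorphism `SL_2(K) → G` of a moved root -/
structure Hb (x : Root → K → G) (τ : K →+* K) (r : Root) (t : SL2 K →* G) : Prop where
  up : ∀ a, t (ThG.up a) = yt x τ r a
  lo : ∀ a, t (ThG.lo a) = yt x τ (-r) a
  dg : ∀ c : Kˣ, t (ThG.dg c) = hy x τ r (c : K)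

theorem exists_Hb (h : Stb K x) (T : Tau τ) {r : Root} (hr : sr r ≠ r) : ∃ t : SL2 K →* G, Hb x τ r t := by
  obtain ⟨t, ht⟩ := exists_isY (τ := τ) h r (⊤ : Subfield K) (fun h1 => absurd h1 hr)
  let ι : K →+* (⊤ : Subfield K) := (Subfield.topEquiv (K := K)).symm.toRingHom
  have hι : ∀ a : K, ((ι a : (⊤ : Subfield K)) : K) = a := fun a => rfl
  refine ⟨t.comp (Matrix.SpecialLinearGroup.map ι), fun a => ?_, fun a => ?_, fun c => ?_⟩
  · have e : Matrix.SpecialLinearGroup.map ι (ThG.up a) = ThG.up (ι a) := by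
      apply Subtype.ext
      ext i j
      fin_cases i <;> fin_cases j <;> simp [ThG.up]
    rw [MonoidHom.comp_apply, e, ht.up, hι]
  · have e : Matrix.SpecialLinearGroup.map ι (ThG.lo a) = ThG.lo (ι a) := by
      apply Subtype.ext
      ext i j
      fin_cases i <;> fin_cases j <;> simp [ThG.lo]
    rw [MonoidHom.comp_apply, e, ht.lo, hι, T.neg_eq]
  · have e : Matrix.SpecialLinearGroup.map ι (ThG.dg c) = ThG.dg (Units.map (ι : K →* (⊤ : Subfield K)) c) := by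
      apply Subtype.ext
      ext i j
      fin_cases i <;> fin_cases j <;> simp [ThG.dg]
    rw [MonoidHom.comp_apply, e, ht.dg]
    rfl

/-- induction on `SL_2` -/
theorem sl2_ind {P : SL2 K → Prop} (hu : ∀ a, P (ThG.up a)) (hl : ∀ a, P (ThG.lo a)) (hm : ∀ X Y, P X → P Y → P (X * Y)) (X : SL2 K) : P X := by
  have hd : ∀ c : Kˣ, P (ThG.dg c) := by
    intro c
    rw [dg_eq]
    exact hm _ _ (hm _ _ (hm _ _ (hu _) (hl _)) (hu _)) (hm _ _ (hm _ _ (hu _) (hl _)) (hu _))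
  obtain ⟨a, b, t, c, rfl⟩ := uldu X
  exact hm _ _ (hm _ _ (hm _ _ (hu _) (hl _)) (hd _)) (hu _)

theorem Hb.mem (h : Stb K x) {t : SL2 K →* G} {r : Root} (ht : Hb x τ r t) (hr : sr r ≠ r) (X : SL2 K) : t X ∈ Hh x τ := by
  have hr' : sr (-r) ≠ -r := by
    rw [sr_neg]
    intro h1
    apply hr
    have := congrArg (fun s => -s) h1
    simpa using this
  refine sl2_ind (P := fun X => t X ∈ Hh x τ) (fun a => ?_) (fun a => ?_) (fun X Y hX hY => ?_) X
  · rw [ht.up]; exact yt_mem x τ (Ok.of_ne hr a)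
  · rw [ht.lo]; exact yt_mem x τ (Ok.of_ne hr' a)
  · rw [map_mul]; exact mul_mem hX hY

/-- the action on the coordinates of the radical of `P_β` -/
theorem Cd.act (h : Stb K x) (T : Tau τ) {t : SL2 K →* G} (ht : Hb x τ rb t) (X : SL2 K) :
    ∀ (u : G) (a e f g : K), Cd x τ u a e f g → ∃ a' e' f' g', Cd x τ (t X * u * (t X)⁻¹) a' e' f' g' ∧
      ∀ p q, Fm τ g' f' e' a' p q = Fm τ g f e a (p * X.1 0 0 + q * X.1 1 0) (p * X.1 0 1 + q * X.1 1 1) := by
  refine sl2_ind (P := fun X => ∀ (u : G) (a e f g : K), Cd x τ u a e f g → ∃ a' e' f' g', Cd x τ (t X * u * (t X)⁻¹) a' e' f' g' ∧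
      ∀ p q, Fm τ g' f' e' a' p q = Fm τ g f e a (p * X.1 0 0 + q * X.1 1 0) (p * X.1 0 1 + q * X.1 1 1)) ?_ ?_ ?_ X
  · intro s u a e f g hu
    refine ⟨_, _, _, _, by rw [ht.up]; exact hu.raise h T s, fun p q => ?_⟩
    rw [Fm_swap, Fm_raise T hu.1, Fm_swap]
    simp only [ThG.up, Matrix.of_apply, Matrix.cons_val', Matrix.cons_val_zero, Matrix.cons_val_one, Matrix.cons_val_fin_one]
    congr 1 <;> ring
  · intro s u a e f g hu
    refine ⟨_, _, _, _, by rw [ht.lo]; exact hu.lower h T s, fun p q => ?_⟩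
    rw [Fm_swap, Fm_lower T hu.2.1, Fm_swap]
    simp only [ThG.lo, Matrix.of_apply, Matrix.cons_val', Matrix.cons_val_zero, Matrix.cons_val_one, Matrix.cons_val_fin_one]
    congr 1 <;> ring
  · intro X Y hX hY u a e f g hu
    obtain ⟨a1, e1, f1, g1, h1, h2⟩ := hY u a e f g hu
    obtain ⟨a2, e2, f2, g2, h3, h4⟩ := hX _ a1 e1 f1 g1 h1
    refine ⟨a2, e2, f2, g2, ?_, fun p q => ?_⟩
    · have e0 : t (X * Y) * u * (t (X * Y))⁻¹ = t X * (t Y * u * (t Y)⁻¹) * (t X)⁻¹ := by rw [map_mul]; group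
      rw [e0]; exact h3
    · rw [h4, h2]
      have e0 : (X * Y).1 = X.1 * Y.1 := rfl
      rw [e0]
      simp only [Matrix.mul_apply, Fin.sum_univ_two]
      congr 1 <;> ring

/-- the action on the coordinates of the opposite radical -/
theorem Cd.act_op (h : Stb K x) (T : Tau τ) {t : SL2 K →* G} (ht : Hb x τ rb t) (X : SL2 K) :
    ∀ (v : G) (c e f g : K), Cd (op x) τ v c e f g → ∃ c' e' f' g', Cd (op x) τ (t X * v * (t X)⁻¹) c' e' f' g' ∧
      ∀ p q, Fm τ c' e' f' g' p q = Fm τ c e f g (p * X.1 0 0 + q * X.1 1 0) (p * X.1 0 1 + q * X.1 1 1) := by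
  have ho := h.op
  refine sl2_ind (P := fun X => ∀ (v : G) (c e f g : K), Cd (op x) τ v c e f g → ∃ c' e' f' g', Cd (op x) τ (t X * v * (t X)⁻¹) c' e' f' g' ∧
      ∀ p q, Fm τ c' e' f' g' p q = Fm τ c e f g (p * X.1 0 0 + q * X.1 1 0) (p * X.1 0 1 + q * X.1 1 1)) ?_ ?_ ?_ X
  · intro s v c e f g hv
    have e1 : t (ThG.up s) = yt (op x) τ (-rb) s := by rw [ht.up, yt_op, neg_neg']
    refine ⟨_, _, _, _, by rw [e1]; exact hv.lower ho T s, fun p q => ?_⟩
    rw [Fm_lower T hv.2.1]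
    simp only [ThG.up, Matrix.of_apply, Matrix.cons_val', Matrix.cons_val_zero, Matrix.cons_val_one, Matrix.cons_val_fin_one]
    congr 1 <;> ring
  · intro s v c e f g hv
    have e1 : t (ThG.lo s) = yt (op x) τ rb s := by rw [ht.lo, yt_op]
    refine ⟨_, _, _, _, by rw [e1]; exact hv.raise ho T s, fun p q => ?_⟩
    rw [Fm_raise T hv.1]
    simp only [ThG.lo, Matrix.of_apply, Matrix.cons_val', Matrix.cons_val_zero, Matrix.cons_val_one, Matrix.cons_val_fin_one]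
    congr 1 <;> ring
  · intro X Y hX hY u a e f g hu
    obtain ⟨a1, e1, f1, g1, h1, h2⟩ := hY u a e f g hu
    obtain ⟨a2, e2, f2, g2, h3, h4⟩ := hX _ a1 e1 f1 g1 h1
    refine ⟨a2, e2, f2, g2, ?_, fun p q => ?_⟩
    · have e0 : t (X * Y) * u * (t (X * Y))⁻¹ = t X * (t Y * u * (t Y)⁻¹) * (t X)⁻¹ := by rw [map_mul]; group
      rw [e0]; exact h3
    · rw [h4, h2]
      have e0 : (X * Y).1 = X.1 * Y.1 := rfl
      rw [e0]
      simp only [Matrix.mul_apply, Fin.sum_univ_two]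
      congr 1 <;> ring

end Pool.Agent.ThT2
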