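import Mathlib

/-!
The parity lemma for 3D_4(2): the frame-free part.

`K` is a finite field with an automorphism `τ` of order three whose fixed elements are `0` and `1`
(so `K` has eight elements).  `Fm τ c e f g x y` is the cubic form which gives a simple coordinate
of `X v X⁻¹` as a function of a row `(x, y)` of `X`.
-/

set_option linter.unusedSectionVars false

namespace Pool.Agent.ThT2

open Matrix

variable {K : Type*} [Field K]

/-- trace to the fixed field -/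
def Tc (τ : K →+* K) (z : K) : K := z + τ z + τ (τ z)

/-- norm to the fixed field -/
def Nm (τ : K →+* K) (z : K) : K := z * τ z * τ (τ z)

/-- the cubic form -/
def Fm (τ : K →+* K) (c e f g x y : K) : K :=
  c * Nm τ x + Tc τ (e * (y * τ x * τ (τ x))) + Tc τ (f * (x * τ y * τ (τ y))) + g * Nm τ y

/-- the hypotheses on `τ` -/
structure Tau (τ : K →+* K) : Prop where
  h3 : ∀ x, τ (τ (τ x)) = x
  fix : ∀ x, τ x = x → x = 0 ∨ x = 1
  ne : ∃ x, τ x ≠ x

/-- a multiplicative function with a nontrivial value has sum zero -/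
theorem sum_char [Fintype K] (F : K → K) (l : K) (hl : l ≠ 0) (m : K) (hm : m ≠ 1)
    (hF : ∀ x, F (l * x) = m * F x) : ∑ x : K, F x = 0 := by
  have h1 : ∑ x : K, F (l * x) = ∑ x : K, F x :=
    Fintype.sum_equiv (Equiv.mulLeft₀ l hl) _ _ (fun x => rfl)
  have h2 : ∑ x : K, F (l * x) = m * ∑ x : K, F x := by
    rw [Finset.mul_sum]; exact Finset.sum_congr rfl (fun x _ => hF x)
  have h3 : (m - 1) * ∑ x : K, F x = 0 := by linear_combination h1 - h2
  rcases mul_eq_zero.1 h3 with h4 | h4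
  · exact absurd (by linear_combination h4) hm
  · exact h4

namespace Tau

variable {τ : K →+* K} (h : Tau τ)

include h

theorem two : (2 : K) = 0 := by
  have h1 : τ (2 : K) = 2 := by
    rw [show (2 : K) = 1 + 1 by norm_num, map_add, map_one]
  rcases h.fix 2 h1 with h2 | h2
  · exact h2
  · exfalso
    have : (1 : K) = 0 := by linear_combination h2
    exact one_ne_zero this

theorem add_self (x : K) : x + x = 0 := by
  linear_combination x * h.two

theorem neg_eq (x : K) : -x = x := by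
  linear_combination (-x) * h.two

theorem inj : Function.Injective τ := τ.injective

theorem τ_Nm (z : K) : τ (Nm τ z) = Nm τ z := by
  simp only [Nm, map_mul, h.h3]; ring

theorem τ_Tc (z : K) : τ (Tc τ z) = Tc τ z := by
  simp only [Tc, map_add, h.h3]; ring

theorem Nm_ne {z : K} (hz : z ≠ 0) : Nm τ z = 1 := by
  rcases h.fix _ (h.τ_Nm z) with h1 | h1
  · exfalso
    simp only [Nm, mul_eq_zero, map_eq_zero] at h1
    tauto
  · exact h1

theorem Nm_zero : Nm τ (0 : K) = 0 := by simp [Nm]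

theorem Nm_one : Nm τ (1 : K) = 1 := by simp [Nm]

theorem Nm_mul (x y : K) : Nm τ (x * y) = Nm τ x * Nm τ y := by
  simp only [Nm, map_mul]; ring

theorem Tc_add (x y : K) : Tc τ (x + y) = Tc τ x + Tc τ y := by
  simp only [Tc, map_add]; ring

theorem Tc_zero : Tc τ (0 : K) = 0 := by simp [Tc]

theorem Tc_sum {ι : Type*} (s : Finset ι) (F : ι → K) : Tc τ (∑ i ∈ s, F i) = ∑ i ∈ s, Tc τ (F i) := by
  simp only [Tc, map_sum, Finset.sum_add_distrib]

theorem exists_lam : ∃ l : K, l ≠ 0 ∧ l ≠ 1 := by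
  obtain ⟨x, hx⟩ := h.ne
  refine ⟨x, ?_, ?_⟩
  · rintro rfl; exact hx (map_zero τ)
  · rintro rfl; exact hx (map_one τ)

/-- values in the fixed field -/
theorem Fm_val {c e f g : K} (hc : τ c = c) (hg : τ g = g) (x y : K) :
    Fm τ c e f g x y = 0 ∨ Fm τ c e f g x y = 1 := by
  apply h.fix
  simp only [Fm, map_add, map_mul, h.τ_Nm, h.τ_Tc, hc, hg]

/-- homogeneous -/
theorem Fm_smul {c e f g : K} {l : K} (hl : l ≠ 0) (x y : K) :
    Fm τ c e f g (l * x) (l * y) = Fm τ c e f g x y := by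
  have hN := h.Nm_ne hl
  have h1 : e * (l * y * τ (l * x) * τ (τ (l * x))) = Nm τ l * (e * (y * τ x * τ (τ x))) := by
    simp only [Nm, map_mul]; ring
  have h2 : f * (l * x * τ (l * y) * τ (τ (l * y))) = Nm τ l * (f * (x * τ y * τ (τ y))) := by
    simp only [Nm, map_mul]; ring
  rw [Fm, h1, h2, h.Nm_mul, h.Nm_mul, hN, Fm]
  simp

/-- composition with a linear map -/
theorem Fm_comp (c e f g p q r s : K) (hc : τ c = c) (hg : τ g = g) :
    ∃ c' e' f' g' : K, τ c' = c' ∧ τ g' = g' ∧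
      ∀ x y, Fm τ c e f g (x * p + y * r) (x * q + y * s) = Fm τ c' e' f' g' x y := by
  refine ⟨Fm τ c e f g p q,
    c * (r * τ p * τ (τ p)) + e * (s * τ p * τ (τ p)) + τ e * (r * τ q * τ (τ p))
      + τ (τ e) * (r * τ p * τ (τ q)) + f * (r * τ q * τ (τ q)) + τ f * (s * τ p * τ (τ q))
      + τ (τ f) * (s * τ q * τ (τ p)) + g * (s * τ q * τ (τ q)),
    c * (p * τ r * τ (τ r)) + e * (q * τ r * τ (τ r)) + τ e * (p * τ s * τ (τ r))
      + τ (τ e) * (p * τ r * τ (τ s)) + f * (p * τ s * τ (τ s)) + τ f * (q * τ r * τ (τ s))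
      + τ (τ f) * (q * τ s * τ (τ r)) + g * (q * τ s * τ (τ s)),
    Fm τ c e f g r s, ?_, ?_, ?_⟩
  · simp only [Fm, map_add, map_mul, h.τ_Nm, h.τ_Tc, hc, hg]
  · simp only [Fm, map_add, map_mul, h.τ_Nm, h.τ_Tc, hc, hg]
  · intro x y
    simp only [Fm, Nm, Tc, map_add, map_mul, h.h3, hc, hg]
    ring

/-! ### character sums -/

section sums

variable [Fintype K] [DecidableEq K]

theorem card_zero : (Fintype.card K : K) = 0 := Nat.cast_card_eq_zero K

theorem sum_id : ∑ x : K, x = 0 := by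
  obtain ⟨l, h0, h1⟩ := h.exists_lam
  exact sum_char (fun x => x) l h0 l h1 (fun x => rfl)

theorem sum_id' : ∑ x : K, τ x * τ (τ x) = 0 := by
  obtain ⟨l, h0, h1⟩ := h.exists_lam
  refine sum_char (fun x => τ x * τ (τ x)) l h0 (τ l * τ (τ l)) ?_ (fun x => ?_)
  · intro h2
    have h4 := h.Nm_ne h0
    apply h1
    have : l * (τ l * τ (τ l)) = 1 := by rw [← h4, Nm]; ring
    rw [h2, mul_one] at this
    exact this
  · simp only [map_mul]; ring

theorem sum_Nm : ∑ x : K, Nm τ x = 1 := by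
  have h1 : ∀ x : K, Nm τ x = 1 - (if x = 0 then 1 else 0) := by
    intro x
    by_cases hx : x = 0
    · subst hx; simp [Nm]
    · rw [h.Nm_ne hx, if_neg hx, sub_zero]
  rw [Finset.sum_congr rfl (fun x _ => h1 x), Finset.sum_sub_distrib]
  simp only [Finset.sum_const, Finset.card_univ, nsmul_eq_mul, mul_one, Finset.sum_ite_eq',
    Finset.mem_univ, if_true, h.card_zero]
  rw [zero_sub, h.neg_eq]

/-- sum over a line -/
theorem sum_line (c e f g : K) : ∑ y : K, Fm τ c e f g 1 y = g := by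
  have h1 : ∀ y : K, Fm τ c e f g 1 y = c + Tc τ (e * y) + Tc τ (f * (τ y * τ (τ y))) + g * Nm τ y := by
    intro y
    simp only [Fm, Nm, map_one, mul_one, one_mul]
  rw [Finset.sum_congr rfl (fun x _ => h1 x), Finset.sum_add_distrib, Finset.sum_add_distrib,
    Finset.sum_add_distrib, ← h.Tc_sum, ← h.Tc_sum, ← Finset.mul_sum, ← Finset.mul_sum,
    ← Finset.mul_sum, h.sum_id, h.sum_id', h.sum_Nm]
  simp [h.card_zero, Tc]

/-- sum over the plane -/
theorem sum_plane (c e f g : K) : ∑ x : K, ∑ y : K, Fm τ c e f g x y = 0 := by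
  have h1 : ∀ x : K, ∑ y : K, Fm τ c e f g x y = g := by
    intro x
    have h2 : ∀ y : K, Fm τ c e f g x y = c * Nm τ x + Tc τ ((e * τ x * τ (τ x)) * y)
        + Tc τ ((f * x) * (τ y * τ (τ y))) + g * Nm τ y := by
      intro y
      simp only [Fm]
      congr 3
      · congr 1; ring
      · ring
    have h3 : ∑ y : K, g * Nm τ y = g := by rw [← Finset.mul_sum, h.sum_Nm, mul_one]
    have h4 : ∑ y : K, c * Nm τ x = 0 := by simp [h.card_zero]
    have h5 : ∑ y : K, Tc τ ((e * τ x * τ (τ x)) * y) = 0 := by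
      rw [← h.Tc_sum, ← Finset.mul_sum, h.sum_id, mul_zero, h.Tc_zero]
    have h6 : ∑ y : K, Tc τ ((f * x) * (τ y * τ (τ y))) = 0 := by
      rw [← h.Tc_sum, ← Finset.mul_sum, h.sum_id', mul_zero, h.Tc_zero]
    rw [Finset.sum_congr rfl (fun x _ => h2 x), Finset.sum_add_distrib, Finset.sum_add_distrib,
      Finset.sum_add_distrib, h3, h4, h5, h6]
    ring
  rw [Finset.sum_congr rfl (fun x _ => h1 x)]
  simp [h.card_zero]

theorem exists_l : ∃ l : K, l ≠ 0 ∧ l ≠ 1 ∧ τ l ≠ l ∧ τ (τ l) ≠ l ∧ τ l ≠ 1 ∧ τ (τ l) ≠ 1 ∧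
    l * l ≠ 1 ∧ l * τ l * τ (τ l) = 1 := by
  obtain ⟨l, hl⟩ := h.ne
  have h0 : l ≠ 0 := by rintro rfl; exact hl (map_zero τ)
  have h1 : l ≠ 1 := by rintro rfl; exact hl (map_one τ)
  have hN := h.Nm_ne h0
  refine ⟨l, h0, h1, hl, ?_, ?_, ?_, ?_, hN⟩
  · intro h2
    apply hl
    have h4 := congrArg τ h2
    rw [h.h3] at h4
    exact h4.symm
  · intro h2
    apply h1
    apply τ.injective
    rw [h2, map_one]
  · intro h2
    apply h1
    apply τ.injective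
    apply τ.injective
    rw [h2, map_one, map_one]
  · intro h2
    apply h1
    have h4 : (l + 1) * (l + 1) = 0 := by linear_combination h2 + (l + 1) * h.two
    have h5 : l + 1 = 0 := by simpa using h4
    linear_combination h5 - h.two

/-- Fourier coefficient `e` -/
theorem coef_e {c e f g : K} (he : ∑ y : K, y⁻¹ * Fm τ c e f g 1 y = 0) : e = 0 := by
  obtain ⟨l, h0, h1, h2, h4, h5, h6, h7, hN⟩ := h.exists_l
  have s0 : ∑ y : K, y⁻¹ = 0 := sum_char _ l h0 l⁻¹ (by rwa [Ne, inv_eq_one]) (fun x => by rw [mul_inv])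
  have s1 : ∑ y : K, y⁻¹ * y = 1 := by
    have h8 : ∀ x : K, x⁻¹ * x = 1 - (if x = 0 then 1 else 0) := by
      intro x
      by_cases hx : x = 0
      · subst hx; simp
      · rw [inv_mul_cancel₀ hx, if_neg hx, sub_zero]
    rw [Finset.sum_congr rfl (fun x _ => h8 x), Finset.sum_sub_distrib]
    simp only [Finset.sum_const, Finset.card_univ, nsmul_eq_mul, mul_one, Finset.sum_ite_eq',
      Finset.mem_univ, if_true, h.card_zero]
    rw [zero_sub, h.neg_eq]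
  have s2 : ∑ y : K, y⁻¹ * τ y = 0 := sum_char _ l h0 (l⁻¹ * τ l)
    (by intro h8; apply h2; field_simp at h8; exact h8) (fun x => by simp only [mul_inv, map_mul]; ring)
  have s3 : ∑ y : K, y⁻¹ * τ (τ y) = 0 := sum_char _ l h0 (l⁻¹ * τ (τ l))
    (by intro h8; apply h4; field_simp at h8; exact h8) (fun x => by simp only [mul_inv, map_mul]; ring)
  have s4 : ∑ y : K, y⁻¹ * (τ y * τ (τ y)) = 0 := sum_char _ l h0 (l⁻¹ * (τ l * τ (τ l)))
    (by
      intro h8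
      apply h7
      have h9 : τ l * τ (τ l) = l := by field_simp at h8; exact h8
      rw [← hN, mul_assoc, h9])
    (fun x => by simp only [mul_inv, map_mul]; ring)
  have s5 : ∑ y : K, y⁻¹ * (τ (τ y) * y) = 0 := sum_char _ l h0 (l⁻¹ * (τ (τ l) * l))
    (by intro h8; apply h6; field_simp at h8; exact h8)
    (fun x => by simp only [mul_inv, map_mul]; ring)
  have s6 : ∑ y : K, y⁻¹ * (y * τ y) = 0 := sum_char _ l h0 (l⁻¹ * (l * τ l))
    (by intro h8; apply h5; field_simp at h8; exact h8)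
    (fun x => by simp only [mul_inv, map_mul]; ring)
  have s7 : ∑ y : K, y⁻¹ * Nm τ y = 0 := by
    rw [← s0]
    refine Finset.sum_congr rfl (fun x _ => ?_)
    by_cases hx : x = 0
    · subst hx; simp
    · rw [h.Nm_ne hx, mul_one]
  have key : ∑ y : K, y⁻¹ * Fm τ c e f g 1 y = c * ∑ y : K, y⁻¹ + e * ∑ y : K, y⁻¹ * y
      + τ e * ∑ y : K, y⁻¹ * τ y + τ (τ e) * ∑ y : K, y⁻¹ * τ (τ y)
      + f * ∑ y : K, y⁻¹ * (τ y * τ (τ y)) + τ f * ∑ y : K, y⁻¹ * (τ (τ y) * y)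
      + τ (τ f) * ∑ y : K, y⁻¹ * (y * τ y) + g * ∑ y : K, y⁻¹ * Nm τ y := by
    simp only [Finset.mul_sum, ← Finset.sum_add_distrib]
    refine Finset.sum_congr rfl (fun y _ => ?_)
    simp only [Fm, Nm, Tc, map_mul, map_one, h.h3]
    ring
  rw [key, s0, s1, s2, s3, s4, s5, s6, s7] at he
  simpa using he

theorem coef_f {c e f g : K} (he : ∑ y : K, y * Fm τ c e f g 1 y = 0) : f = 0 := by
  obtain ⟨l, h0, h1, h2, h4, h5, h6, h7, hN⟩ := h.exists_l
  have t1 : τ (τ l) ≠ 0 := by simpa using h0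
  have t2 : τ l ≠ 0 := by simpa using h0
  have s0 : ∑ y : K, y = 0 := h.sum_id
  have s1 : ∑ y : K, y * y = 0 := sum_char _ l h0 (l * l) h7 (fun x => by ring)
  have s2 : ∑ y : K, y * τ y = 0 := sum_char _ l h0 (l * τ l)
    (by intro h8; rw [h8, one_mul] at hN; exact h6 hN) (fun x => by simp only [map_mul]; ring)
  have s3 : ∑ y : K, y * τ (τ y) = 0 := sum_char _ l h0 (l * τ (τ l))
    (by
      intro h8
      apply h5
      have : l * τ (τ l) * τ l = 1 := by rw [← hN]; ring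
      rw [h8, one_mul] at this
      exact this) (fun x => by simp only [map_mul]; ring)
  have s4 : ∑ y : K, y * (τ y * τ (τ y)) = 1 := by
    rw [← h.sum_Nm]
    exact Finset.sum_congr rfl (fun x _ => by simp only [Nm]; ring)
  have s5 : ∑ y : K, y * (τ (τ y) * y) = 0 := sum_char _ l h0 (l * (τ (τ l) * l))
    (by
      intro h8
      apply h2
      have : l * (τ (τ l) * l) * τ l = l * (l * τ l * τ (τ l)) := by ring
      rw [h8, hN] at this
      linear_combination this)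
    (fun x => by simp only [map_mul]; ring)
  have s6 : ∑ y : K, y * (y * τ y) = 0 := sum_char _ l h0 (l * (l * τ l))
    (by
      intro h8
      apply h4
      have : l * (l * τ l) * τ (τ l) = l * (l * τ l * τ (τ l)) := by ring
      rw [h8, hN] at this
      linear_combination this)
    (fun x => by simp only [map_mul]; ring)
  have s7 : ∑ y : K, y * Nm τ y = 0 := by
    rw [← s0]
    refine Finset.sum_congr rfl (fun x _ => ?_)
    by_cases hx : x = 0
    · subst hx; simp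
    · rw [h.Nm_ne hx, mul_one]
  have key : ∑ y : K, y * Fm τ c e f g 1 y = c * ∑ y : K, y + e * ∑ y : K, y * y
      + τ e * ∑ y : K, y * τ y + τ (τ e) * ∑ y : K, y * τ (τ y)
      + f * ∑ y : K, y * (τ y * τ (τ y)) + τ f * ∑ y : K, y * (τ (τ y) * y)
      + τ (τ f) * ∑ y : K, y * (y * τ y) + g * ∑ y : K, y * Nm τ y := by
    simp only [Finset.mul_sum, ← Finset.sum_add_distrib]
    refine Finset.sum_congr rfl (fun y _ => ?_)
    simp only [Fm, Nm, Tc, map_mul, map_one, h.h3]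
    ring
  rw [key, s0, s1, s2, s3, s4, s5, s6, s7] at he
  simpa using he

end sums

/-! ### the allowed values and the pairs -/

/-- the parity statement: some conjugate of `D` has an allowed corner and equal coordinates -/
def Good (τ : K →+* K) (σ : K) (D : SpecialLinearGroup (Fin 2) K) (c e f g a0 e' f' a1 : K) : Prop :=
  ∃ X : SpecialLinearGroup (Fin 2) K,
    ((X * D * X⁻¹).1 0 0 = 1 ∨ (X * D * X⁻¹).1 0 0 = σ ∨ (X * D * X⁻¹).1 0 0 = σ⁻¹) ∧
      Fm τ c e f g (X.1 0 0) (X.1 0 1) = Fm τ a0 e' f' a1 (X.1 1 0) (X.1 1 1)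

omit h in
/-- corner of a conjugate -/
theorem corner (X D : SpecialLinearGroup (Fin 2) K) : (X * D * X⁻¹).1 0 0 =
    (X.1 0 0 * D.1 0 0 + X.1 0 1 * D.1 1 0) * X.1 1 1 - (X.1 0 0 * D.1 0 1 + X.1 0 1 * D.1 1 1) * X.1 1 0 := by
  have h1 : (X⁻¹).1 0 0 = X.1 1 1 := by
    rw [SpecialLinearGroup.SL2_inv_expl]; simp
  have h2 : (X⁻¹).1 1 0 = -X.1 1 0 := by
    rw [SpecialLinearGroup.SL2_inv_expl]; simp
  have h3 : (X * D * X⁻¹).1 = X.1 * D.1 * (X⁻¹).1 := rfl
  rw [h3, Matrix.mul_apply, Fin.sum_univ_two, h1, h2, Matrix.mul_apply, Fin.sum_univ_two,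
    Matrix.mul_apply, Fin.sum_univ_two]
  ring

/-- two independent rows suffice (the first one is scaled) -/
theorem good_of_rows (σ : K) (D : SpecialLinearGroup (Fin 2) K) {c e f g a0 e' f' a1 : K}
    (ρ : K) (hρ : ρ = 1 ∨ ρ = σ ∨ ρ = σ⁻¹) (r s p q : K) (hQ : r * q - s * p ≠ 0)
    (hc : (r * D.1 0 0 + s * D.1 1 0) * q - (r * D.1 0 1 + s * D.1 1 1) * p = ρ * (r * q - s * p))
    (hF : Fm τ c e f g r s = Fm τ a0 e' f' a1 p q) : Good τ σ D c e f g a0 e' f' a1 := by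
  obtain ⟨l, hl⟩ : ∃ l : K, l = (r * q - s * p)⁻¹ := ⟨_, rfl⟩
  have hl0 : l ≠ 0 := by rw [hl]; exact inv_ne_zero hQ
  have hlQ : l * (r * q - s * p) = 1 := by rw [hl, inv_mul_cancel₀ hQ]
  obtain ⟨X, hX⟩ : ∃ X : SpecialLinearGroup (Fin 2) K, X.1 = !![l * r, l * s; p, q] :=
    ⟨⟨!![l * r, l * s; p, q], by rw [Matrix.det_fin_two_of]; linear_combination hlQ⟩, rfl⟩
  refine ⟨X, ?_, ?_⟩
  · have h4 : (X * D * X⁻¹).1 0 0 = ρ := by
      rw [corner, hX]
      simp only [Matrix.of_apply, Matrix.cons_val', Matrix.cons_val_zero, Matrix.cons_val_one,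
        Matrix.cons_val_fin_one]
      linear_combination l * hc + ρ * hlQ
    rw [h4]; exact hρ
  · rw [hX]
    simp only [Matrix.of_apply, Matrix.cons_val', Matrix.cons_val_zero, Matrix.cons_val_one,
      Matrix.cons_val_fin_one]
    rw [h.Fm_smul hl0, hF]

/-- the pair given by a vector `(p, q)` which is not an eigenvector, with corner `ρ` -/
theorem good_of_pair (σ : K) (D : SpecialLinearGroup (Fin 2) K) {c e f g a0 e' f' a1 : K}
    (ρ : K) (hρ : ρ = 1 ∨ ρ = σ ∨ ρ = σ⁻¹) (p q : K)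
    (hQ : q * q * D.1 1 0 + p * q * (D.1 0 0 + D.1 1 1) + p * p * D.1 0 1 ≠ 0)
    (hF : Fm τ c e f g (p * (D.1 1 1 + ρ) + q * D.1 1 0) (p * D.1 0 1 + q * (D.1 0 0 + ρ))
      = Fm τ a0 e' f' a1 p q) : Good τ σ D c e f g a0 e' f' a1 := by
  have hD : D.1 0 0 * D.1 1 1 - D.1 0 1 * D.1 1 0 = 1 := by
    have := D.2; rwa [Matrix.det_fin_two] at this
  have h2 := h.two
  refine h.good_of_rows σ D ρ hρ _ _ p q ?_ ?_ hF
  · have h4 : (p * (D.1 1 1 + ρ) + q * D.1 1 0) * q - (p * D.1 0 1 + q * (D.1 0 0 + ρ)) * p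
      = q * q * D.1 1 0 + p * q * (D.1 0 0 + D.1 1 1) + p * p * D.1 0 1 := by
      linear_combination (-(p * p * D.1 0 1 + p * q * D.1 0 0)) * h2
    rw [h4]; exact hQ
  · linear_combination (p * q * ρ * D.1 0 0 + q * q * D.1 0 0 * D.1 1 0 - p * p * D.1 0 1 * D.1 1 1
      - p * q * ρ * D.1 1 1) * h2

/-- composition of `Good` with a conjugation -/
theorem good_conj {σ : K} {D : SpecialLinearGroup (Fin 2) K} (Y : SpecialLinearGroup (Fin 2) K)
    {c e f g a0 e' f' a1 c₁ e₁ f₁ g₁ a₀ e₂ f₂ a₁ : K}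
    (h1 : ∀ x y, Fm τ c e f g (x * Y.1 0 0 + y * Y.1 1 0) (x * Y.1 0 1 + y * Y.1 1 1) = Fm τ c₁ e₁ f₁ g₁ x y)
    (h2 : ∀ x y, Fm τ a0 e' f' a1 (x * Y.1 0 0 + y * Y.1 1 0) (x * Y.1 0 1 + y * Y.1 1 1)
      = Fm τ a₀ e₂ f₂ a₁ x y)
    (hG : Good τ σ (Y * D * Y⁻¹) c₁ e₁ f₁ g₁ a₀ e₂ f₂ a₁) : Good τ σ D c e f g a0 e' f' a1 := by
  obtain ⟨X, hX, hF⟩ := hG
  refine ⟨X * Y, ?_, ?_⟩
  · have : X * Y * D * (X * Y)⁻¹ = X * (Y * D * Y⁻¹) * X⁻¹ := by group
    rw [this]; exact hX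
  · have e0 : (X * Y).1 = X.1 * Y.1 := rfl
    rw [e0]
    simp only [Matrix.mul_apply, Fin.sum_univ_two]
    rw [h1, h2, hF]

variable [Fintype K] [DecidableEq K]

/-- equal coordinates or complementary ones -/
theorem dich {c e f g a0 e' f' a1 : K} (hc : τ c = c) (hg : τ g = g) (ha0 : τ a0 = a0) (ha1 : τ a1 = a1)
    (x y p q : K) : Fm τ c e f g x y = Fm τ a0 e' f' a1 p q ∨
      Fm τ c e f g x y + Fm τ a0 e' f' a1 p q = 1 := by
  rcases h.Fm_val (e := e) (f := f) hc hg x y with h1 | h1 <;>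
    rcases h.Fm_val (e := e') (f := f') ha0 ha1 p q with h2 | h2 <;> rw [h1, h2] <;> simp

/-- no eigenvector -/
theorem good_elliptic (σ : K) (D : SpecialLinearGroup (Fin 2) K) {c e f g a0 e' f' a1 : K}
    (hc : τ c = c) (hg : τ g = g) (ha0 : τ a0 = a0) (ha1 : τ a1 = a1)
    (hQ : ∀ p q : K, (p ≠ 0 ∨ q ≠ 0) →
      q * q * D.1 1 0 + p * q * (D.1 0 0 + D.1 1 1) + p * p * D.1 0 1 ≠ 0) :
    Good τ σ D c e f g a0 e' f' a1 := by
  by_contra hG
  have hD : D.1 0 0 * D.1 1 1 - D.1 0 1 * D.1 1 0 = 1 := by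
    have := D.2; rwa [Matrix.det_fin_two] at this
  have h2 := h.two
  -- the linear bijection
  let G : K × K → K × K := fun v => (v.1 * (D.1 1 1 + 1) + v.2 * D.1 1 0, v.1 * D.1 0 1 + v.2 * (D.1 0 0 + 1))
  have ht : D.1 0 0 + D.1 1 1 ≠ 0 := by
    intro h0
    -- then `(D + 1)` is nilpotent
    by_cases hb : D.1 0 1 = 0 ∧ D.1 0 0 + 1 = 0
    · exact hQ 1 0 (Or.inl one_ne_zero) (by rw [hb.1]; ring)
    · refine hQ (D.1 0 0 + 1) (D.1 0 1) ?_ ?_
      · by_contra h5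
        rw [not_or, not_not, not_not] at h5
        exact hb ⟨h5.2, h5.1⟩
      · have h6 : D.1 1 1 = D.1 0 0 := by linear_combination h0 - D.1 0 0 * h2
        rw [h6] at hD ⊢
        linear_combination D.1 0 1 * hD + (D.1 0 0 * (D.1 0 0 + 1) * D.1 0 1 + D.1 0 0 * D.1 0 1
          + D.1 0 1 * D.1 0 1 * D.1 1 0 + D.1 0 1) * h2
  have hdetG : (D.1 1 1 + 1) * (D.1 0 0 + 1) - D.1 0 1 * D.1 1 0 ≠ 0 := by
    intro h0
    apply ht
    linear_combination h0 - hD - h2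
  have hGinj : Function.Injective G := by
    intro v w hvw
    have e1 : v.1 * (D.1 1 1 + 1) + v.2 * D.1 1 0 = w.1 * (D.1 1 1 + 1) + w.2 * D.1 1 0 :=
      congrArg Prod.fst hvw
    have e2 : v.1 * D.1 0 1 + v.2 * (D.1 0 0 + 1) = w.1 * D.1 0 1 + w.2 * (D.1 0 0 + 1) :=
      congrArg Prod.snd hvw
    have e3 : ((D.1 1 1 + 1) * (D.1 0 0 + 1) - D.1 0 1 * D.1 1 0) * (v.1 - w.1) = 0 := by
      linear_combination (D.1 0 0 + 1) * e1 - D.1 1 0 * e2
    have e4 : ((D.1 1 1 + 1) * (D.1 0 0 + 1) - D.1 0 1 * D.1 1 0) * (v.2 - w.2) = 0 := by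
      linear_combination (D.1 1 1 + 1) * e2 - D.1 0 1 * e1
    have e5 := (mul_eq_zero.1 e3).resolve_left hdetG
    have e6 := (mul_eq_zero.1 e4).resolve_left hdetG
    exact Prod.ext (sub_eq_zero.1 e5) (sub_eq_zero.1 e6)
  have hGbij : Function.Bijective G := Finite.injective_iff_bijective.1 hGinj
  have s1 : ∑ v : K × K, Fm τ c e f g (G v).1 (G v).2 = 0 := by
    have := Fintype.sum_bijective G hGbij (fun v => Fm τ c e f g (G v).1 (G v).2)
      (fun v => Fm τ c e f g v.1 v.2) (fun v => rfl)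
    rw [this, Fintype.sum_prod_type, h.sum_plane]
  have s2 : ∑ v : K × K, Fm τ a0 e' f' a1 v.1 v.2 = 0 := by
    rw [Fintype.sum_prod_type, h.sum_plane]
  have s3 : ∀ v : K × K, Fm τ c e f g (G v).1 (G v).2 + Fm τ a0 e' f' a1 v.1 v.2
      = 1 - (if v = 0 then 1 else 0) := by
    intro v
    by_cases hv : v = 0
    · subst hv
      simp [G, Fm, Nm, Tc]
    · rw [if_neg hv, sub_zero]
      have hv' : v.1 ≠ 0 ∨ v.2 ≠ 0 := by
        by_contra h5
        rw [not_or, not_not, not_not] at h5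
        exact hv (Prod.ext h5.1 h5.2)
      rcases h.dich (e := e) (f := f) (e' := e') (f' := f') hc hg ha0 ha1 (G v).1 (G v).2 v.1 v.2 with h5 | h5
      · exact absurd (h.good_of_pair σ D 1 (Or.inl rfl) v.1 v.2 (hQ _ _ hv') h5) hG
      · exact h5
  have s4 : ∑ v : K × K, (Fm τ c e f g (G v).1 (G v).2 + Fm τ a0 e' f' a1 v.1 v.2)
      = ∑ v : K × K, ((1 : K) - (if v = 0 then 1 else 0)) := Finset.sum_congr rfl (fun v _ => s3 v)
  rw [Finset.sum_add_distrib, s1, s2, Finset.sum_sub_distrib] at s4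
  simp [h.card_zero] at s4

/-- upper triangular unipotent -/
theorem good_unip (σ : K) (hσ1 : σ ≠ 1) (D : SpecialLinearGroup (Fin 2) K) {c e f g a0 e' f' a1 : K}
    (hc : τ c = c) (hg : τ g = g) (ha0 : τ a0 = a0) (ha1 : τ a1 = a1)
    (h00 : D.1 0 0 = 1) (h11 : D.1 1 1 = 1) (h10 : D.1 1 0 = 0) :
    Good τ σ D c e f g a0 e' f' a1 := by
  by_contra hG
  have h2 := h.two
  -- pairs (r, (0,1))
  have b1 : ∀ y : K, Fm τ c e f g 1 y + Fm τ a0 e' f' a1 0 1 = 1 := by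
    intro y
    refine (h.dich hc hg ha0 ha1 1 y 0 1).resolve_left (fun h5 => hG ?_)
    refine h.good_of_rows σ D 1 (Or.inl rfl) 1 y 0 1 (by simp) ?_ h5
    rw [h00, h11, h10]; ring
  have b2 : ∀ y : K, Fm τ c e f g 0 1 + Fm τ a0 e' f' a1 1 y = 1 := by
    intro y
    refine (h.dich hc hg ha0 ha1 0 1 1 y).resolve_left (fun h5 => hG ?_)
    refine h.good_of_rows σ D 1 (Or.inl rfl) 0 1 1 y (by simp) ?_ h5
    rw [h00, h11, h10]; ring
  have v1 : Fm τ c e f g 0 1 = g := by simp [Fm, Nm, Tc]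
  have v2 : Fm τ a0 e' f' a1 0 1 = a1 := by simp [Fm, Nm, Tc]
  have s1 : g = 0 := by
    rw [← h.sum_line c e f g, Finset.sum_congr rfl
      (fun y _ => (by linear_combination b1 y : Fm τ c e f g 1 y = 1 - Fm τ a0 e' f' a1 0 1))]
    simp [h.card_zero]
  have s2 : a1 = 0 := by
    rw [← h.sum_line a0 e' f' a1, Finset.sum_congr rfl
      (fun y _ => (by linear_combination b2 y : Fm τ a0 e' f' a1 1 y = 1 - Fm τ c e f g 0 1))]
    simp [h.card_zero]
  rw [v2, s2] at b1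
  rw [v1, s1] at b2
  by_cases hb : D.1 0 1 = 0
  · apply hG
    refine h.good_of_rows σ D 1 (Or.inl rfl) 1 0 1 1 (by simp) ?_ ?_
    · rw [h00, h11, h10, hb]; ring
    · linear_combination b1 0 - b2 1
  · apply hG
    refine h.good_of_pair σ D σ (Or.inr (Or.inl rfl)) 1 0 ?_ ?_
    · rw [h00, h11, h10]
      intro h5
      apply hb
      linear_combination h5
    · rw [h00, h11, h10]
      have hs : (1 + σ) ≠ 0 := by
        intro h5
        apply hσ1
        linear_combination h5 - h2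
      have e1 : (1 : K) * (1 + σ) + 0 * 0 = (1 + σ) * 1 := by ring
      have e2 : (1 : K) * D.1 0 1 + 0 * (1 + σ) = (1 + σ) * ((1 + σ)⁻¹ * D.1 0 1) := by
        field_simp
        ring
      rw [e1, e2, h.Fm_smul hs]
      linear_combination b1 ((1 + σ)⁻¹ * D.1 0 1) - b2 0

/-- the relation given by a corner `ρ` for a diagonal matrix -/
theorem diag_rel (σ : K) (D : SpecialLinearGroup (Fin 2) K) {c e f g a0 e' f' a1 : K}
    (hc : τ c = c) (hg : τ g = g) (ha0 : τ a0 = a0) (ha1 : τ a1 = a1)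
    {m m' : K} (hm : m ≠ 1) (hmm : m * m' = 1)
    (h00 : D.1 0 0 = m) (h01 : D.1 0 1 = 0) (h10 : D.1 1 0 = 0) (h11 : D.1 1 1 = m')
    (hG : ¬ Good τ σ D c e f g a0 e' f' a1) (ρ : K) (hρ : ρ = 1 ∨ ρ = σ ∨ ρ = σ⁻¹) (hρm' : ρ ≠ m')
    (y : K) (hy : y ≠ 0) :
    Fm τ c e f g 1 ((m' + ρ)⁻¹ * (m + ρ) * y) + Fm τ a0 e' f' a1 1 y = 1 := by
  have h2 := h.two
  have hm' : m' + ρ ≠ 0 := by
    intro h5
    apply hρm'
    linear_combination h5 - m' * h2
  have ht : m + m' ≠ 0 := by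
    intro h5
    apply hm
    have h6 : (m + 1) * (m + 1) = 0 := by
      linear_combination m * h5 - hmm + m * h2
    have h7 : m + 1 = 0 := by simpa using h6
    linear_combination h7 - h2
  refine (h.dich hc hg ha0 ha1 _ _ 1 y).resolve_left (fun h5 => hG ?_)
  refine h.good_of_pair σ D ρ hρ 1 y ?_ ?_
  · rw [h00, h01, h10, h11]
    have : y * y * 0 + 1 * y * (m + m') + 1 * 1 * 0 = y * (m + m') := by ring
    rw [this]
    exact mul_ne_zero hy ht
  · rw [h00, h01, h10, h11]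
    have e1 : (1 : K) * (m' + ρ) + y * 0 = (m' + ρ) * 1 := by ring
    have e2 : (1 : K) * 0 + y * (m + ρ) = (m' + ρ) * ((m' + ρ)⁻¹ * (m + ρ) * y) := by
      field_simp
      ring
    rw [e1, e2, h.Fm_smul hm', h5]

/-- (7a): the sum of the four long coordinates -/
theorem diag_sum (σ : K) (D : SpecialLinearGroup (Fin 2) K) {c e f g a0 e' f' a1 : K}
    (hc : τ c = c) (hg : τ g = g) (ha0 : τ a0 = a0) (ha1 : τ a1 = a1)
    {m m' : K} (hm : m ≠ 1) (hmm : m * m' = 1)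
    (h00 : D.1 0 0 = m) (h01 : D.1 0 1 = 0) (h10 : D.1 1 0 = 0) (h11 : D.1 1 1 = m')
    (hG : ¬ Good τ σ D c e f g a0 e' f' a1) : c + g + a0 + a1 = 1 := by
  have h2 := h.two
  have hm0 : m ≠ 0 := left_ne_zero_of_mul_eq_one hmm
  have hm'1 : (1 : K) ≠ m' := by
    rintro rfl
    apply hm
    linear_combination hmm
  have hk : (m' + 1)⁻¹ * (m + 1) = m := by
    have h5 : m' + 1 ≠ 0 := by
      intro h6
      apply hm'1
      linear_combination h2 - h6
    rw [inv_mul_eq_iff_eq_mul₀ h5]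
    linear_combination -hmm
  have r1 : ∀ y : K, y ≠ 0 → Fm τ c e f g 1 (m * y) + Fm τ a0 e' f' a1 1 y = 1 := by
    intro y hy
    have := h.diag_rel σ D hc hg ha0 ha1 hm hmm h00 h01 h10 h11 hG 1 (Or.inl rfl) hm'1 y hy
    rwa [hk] at this
  have s1 : ∑ y : K, Fm τ c e f g 1 (m * y) = g := by
    have h5 : ∑ y : K, Fm τ c e f g 1 (m * y) = ∑ y : K, Fm τ c e f g 1 y :=
      Fintype.sum_equiv (Equiv.mulLeft₀ m hm0) _ _ (fun x => rfl)
    rw [h5, h.sum_line]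
  have r2 : ∀ y : K, Fm τ c e f g 1 (m * y) + Fm τ a0 e' f' a1 1 y
      = 1 - (if y = 0 then 1 - c - a0 else 0) := by
    intro y
    by_cases hy : y = 0
    · subst hy
      simp [Fm, Nm, Tc]
      ring
    · rw [r1 y hy, if_neg hy, sub_zero]
  have s2 := Finset.sum_congr rfl (fun (y : K) (_ : y ∈ Finset.univ) => r2 y)
  rw [Finset.sum_add_distrib, s1, h.sum_line, Finset.sum_sub_distrib] at s2
  simp only [Finset.sum_const, Finset.card_univ, nsmul_eq_mul, mul_one, Finset.sum_ite_eq',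
    Finset.mem_univ, if_true, h.card_zero] at s2
  linear_combination s2 + (c + a0 - 1) * h2

/-- a form which is invariant under a nontrivial dilation of a line is pure -/
theorem pure_of_inv {c e f g : K} (k : K) (hk0 : k ≠ 0) (hk1 : k ≠ 1)
    (hF : ∀ z : K, z ≠ 0 → Fm τ c e f g 1 (k * z) = Fm τ c e f g 1 z) : e = 0 ∧ f = 0 := by
  refine ⟨h.coef_e (c := c) (f := f) (g := g)
      (sum_char (fun y => y⁻¹ * Fm τ c e f g 1 y) k hk0 k⁻¹ (by rwa [Ne, inv_eq_one]) (fun x => ?_)),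
    h.coef_f (c := c) (e := e) (g := g) (sum_char (fun y => y * Fm τ c e f g 1 y) k hk0 k hk1 (fun x => ?_))⟩
  · by_cases hx : x = 0
    · subst hx; simp
    · rw [hF x hx, mul_inv]; ring
  · by_cases hx : x = 0
    · subst hx; simp
    · rw [hF x hx]; ring

/-- the diagonal case -/
theorem diag_case (σ : K) (hσ1 : σ ≠ 1) (D : SpecialLinearGroup (Fin 2) K)
    {c e f g a0 e' f' a1 : K}
    (hc : τ c = c) (hg : τ g = g) (ha0 : τ a0 = a0) (ha1 : τ a1 = a1)
    {m m' : K} (hm : m ≠ 1) (hmm : m * m' = 1)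
    (h00 : D.1 0 0 = m) (h01 : D.1 0 1 = 0) (h10 : D.1 1 0 = 0) (h11 : D.1 1 1 = m')
    (hG : ¬ Good τ σ D c e f g a0 e' f' a1) : e = 0 ∧ f = 0 ∧ e' = 0 ∧ f' = 0 := by
  have h2 := h.two
  have hm0 : m ≠ 0 := left_ne_zero_of_mul_eq_one hmm
  have hsum := h.diag_sum σ D hc hg ha0 ha1 hm hmm h00 h01 h10 h11 hG
  have fx : ∀ x : K, τ x = x → x = 0 ∨ x = 1 := h.fix
  -- the two diagonal pairs
  have hmS : ¬ (m = σ ∨ m = σ⁻¹) := by
    intro hm1
    have v1 : Fm τ c e f g 1 0 = c := by simp [Fm, Nm, Tc]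
    have v2 : Fm τ a0 e' f' a1 0 1 = a1 := by simp [Fm, Nm, Tc]
    have v3 : Fm τ c e f g 0 1 = g := by simp [Fm, Nm, Tc]
    have v4 : Fm τ a0 e' f' a1 1 0 = a0 := by simp [Fm, Nm, Tc]
    have hm2 : m' = σ ∨ m' = σ⁻¹ := by
      have h5 : m' = m⁻¹ := eq_inv_of_mul_eq_one_right hmm
      rw [h5]
      rcases hm1 with h6 | h6
      · right; rw [h6]
      · left; rw [h6, inv_inv]
    have q1 : c + a1 = 1 := by
      have := (h.dich (e := e) (f := f) (e' := e') (f' := f') hc hg ha0 ha1 1 0 0 1).resolve_left (fun h5 => hG ?_)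
      · rwa [v1, v2] at this
      · refine h.good_of_rows σ D m (Or.inr hm1) 1 0 0 1 (by simp) ?_ h5
        rw [h00, h01, h10, h11]; ring
    have q2 : g + a0 = 1 := by
      have := (h.dich (e := e) (f := f) (e' := e') (f' := f') hc hg ha0 ha1 0 1 1 0).resolve_left (fun h5 => hG ?_)
      · rwa [v3, v4] at this
      · refine h.good_of_rows σ D m' (Or.inr hm2) 0 1 1 0 (by simp) ?_ h5
        rw [h00, h01, h10, h11]; ring
    have : (1 : K) = 0 := by linear_combination hsum - q1 - q2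
    exact one_ne_zero this
  rw [not_or] at hmS
  have hm'0 : m' ≠ 0 := right_ne_zero_of_mul_eq_one hmm
  have hσm' : σ ≠ m' := by
    intro h5
    apply hmS.2
    rw [h5]
    exact eq_inv_of_mul_eq_one_left hmm
  have h1m' : (1 : K) ≠ m' := by
    rintro rfl
    apply hm
    linear_combination hmm
  have hms : m + σ ≠ 0 := by
    intro h5
    apply hmS.1
    linear_combination h5 - σ * h2
  have hm's : m' + σ ≠ 0 := by
    intro h5
    apply hσm'
    linear_combination h5 - m' * h2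
  have hk : (m' + 1)⁻¹ * (m + 1) = m := by
    have h5 : m' + 1 ≠ 0 := by
      intro h6
      apply h1m'
      linear_combination h2 - h6
    rw [inv_mul_eq_iff_eq_mul₀ h5]
    linear_combination -hmm
  have r1 : ∀ y : K, y ≠ 0 → Fm τ c e f g 1 (m * y) + Fm τ a0 e' f' a1 1 y = 1 := by
    intro y hy
    have := h.diag_rel σ D hc hg ha0 ha1 hm hmm h00 h01 h10 h11 hG 1 (Or.inl rfl) h1m' y hy
    rwa [hk] at this
  have r2 : ∀ y : K, y ≠ 0 → Fm τ c e f g 1 ((m' + σ)⁻¹ * (m + σ) * y) + Fm τ a0 e' f' a1 1 y = 1 :=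
    h.diag_rel σ D hc hg ha0 ha1 hm hmm h00 h01 h10 h11 hG σ (Or.inr (Or.inl rfl)) hσm'
  obtain ⟨k, hkd⟩ : ∃ k : K, k = m' * ((m' + σ)⁻¹ * (m + σ)) := ⟨_, rfl⟩
  have hk0 : k ≠ 0 := by
    rw [hkd]
    exact mul_ne_zero hm'0 (mul_ne_zero (inv_ne_zero hm's) hms)
  have hk1 : k ≠ 1 := by
    intro h5
    have h6 : m' * (m + σ) = m' + σ := by
      have h7 : (m' + σ) * k = m' * (m + σ) := by
        rw [hkd]; field_simp
      rw [← h7, h5, mul_one]
    have h8 : (m' + 1) * (σ + 1) = 0 := by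
      linear_combination h6 - hmm + (m' + σ) * h2
    rcases mul_eq_zero.1 h8 with h9 | h9
    · apply h1m'; linear_combination h2 - h9
    · apply hσ1; linear_combination h9 - h2
  have hinv : ∀ z : K, z ≠ 0 → Fm τ c e f g 1 (k * z) = Fm τ c e f g 1 z := by
    intro z hz
    have hy : m' * z ≠ 0 := mul_ne_zero hm'0 hz
    have t1 := r1 _ hy
    have t2 := r2 _ hy
    have e1 : m * (m' * z) = z := by rw [← mul_assoc, hmm, one_mul]
    have e2 : (m' + σ)⁻¹ * (m + σ) * (m' * z) = k * z := by rw [hkd]; ring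
    rw [e1] at t1
    rw [e2] at t2
    linear_combination t2 - t1
  have hinv' : ∀ z : K, z ≠ 0 → Fm τ a0 e' f' a1 1 (k * z) = Fm τ a0 e' f' a1 1 z := by
    intro z hz
    have t1 := r1 z hz
    have t2 := r1 (k * z) (mul_ne_zero hk0 hz)
    have t3 := hinv (m * z) (mul_ne_zero hm0 hz)
    have e1 : m * (k * z) = k * (m * z) := by ring
    rw [e1, t3] at t2
    linear_combination t2 - t1
  obtain ⟨p1, p2⟩ := h.pure_of_inv k hk0 hk1 hinv
  obtain ⟨p3, p4⟩ := h.pure_of_inv k hk0 hk1 hinv'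
  exact ⟨p1, p2, p3, p4⟩

omit h [Fintype K] [DecidableEq K] in
/-- the entries of a conjugate -/
theorem conj_entries (X D : SpecialLinearGroup (Fin 2) K) : (X * D * X⁻¹).1 0 1 =
    (X.1 0 0 * D.1 0 1 + X.1 0 1 * D.1 1 1) * X.1 0 0 - (X.1 0 0 * D.1 0 0 + X.1 0 1 * D.1 1 0) * X.1 0 1
    ∧ (X * D * X⁻¹).1 1 0 =
    (X.1 1 0 * D.1 0 0 + X.1 1 1 * D.1 1 0) * X.1 1 1 - (X.1 1 0 * D.1 0 1 + X.1 1 1 * D.1 1 1) * X.1 1 0
    ∧ (X * D * X⁻¹).1 1 1 =
    (X.1 1 0 * D.1 0 1 + X.1 1 1 * D.1 1 1) * X.1 0 0 - (X.1 1 0 * D.1 0 0 + X.1 1 1 * D.1 1 0) * X.1 0 1 := by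
  have h1 : (X⁻¹).1 0 0 = X.1 1 1 := by
    rw [SpecialLinearGroup.SL2_inv_expl]; simp
  have h2 : (X⁻¹).1 1 0 = -X.1 1 0 := by
    rw [SpecialLinearGroup.SL2_inv_expl]; simp
  have h4 : (X⁻¹).1 0 1 = -X.1 0 1 := by
    rw [SpecialLinearGroup.SL2_inv_expl]; simp
  have h5 : (X⁻¹).1 1 1 = X.1 0 0 := by
    rw [SpecialLinearGroup.SL2_inv_expl]; simp
  have h3 : (X * D * X⁻¹).1 = X.1 * D.1 * (X⁻¹).1 := rfl
  refine ⟨?_, ?_, ?_⟩
  · rw [h3, Matrix.mul_apply, Fin.sum_univ_two, h4, h5, Matrix.mul_apply, Fin.sum_univ_two,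
      Matrix.mul_apply, Fin.sum_univ_two]
    ring
  · rw [h3, Matrix.mul_apply, Fin.sum_univ_two, h1, h2, Matrix.mul_apply, Fin.sum_univ_two,
      Matrix.mul_apply, Fin.sum_univ_two]
    ring
  · rw [h3, Matrix.mul_apply, Fin.sum_univ_two, h4, h5, Matrix.mul_apply, Fin.sum_univ_two,
      Matrix.mul_apply, Fin.sum_univ_two]
    ring

omit [Fintype K] [DecidableEq K] in
/-- an eigenvector gives a triangular form -/
theorem exists_tri (D : SpecialLinearGroup (Fin 2) K) (p q : K) (hpq : p ≠ 0 ∨ q ≠ 0)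
    (hQ : q * q * D.1 1 0 + p * q * (D.1 0 0 + D.1 1 1) + p * p * D.1 0 1 = 0) :
    ∃ Y : SpecialLinearGroup (Fin 2) K, (Y * D * Y⁻¹).1 1 0 = 0 := by
  have h2 := h.two
  obtain ⟨r, s, hrs⟩ : ∃ r s : K, r * q - s * p = 1 := by
    by_cases hq : q = 0
    · have hp : p ≠ 0 := by
        rcases hpq with h5 | h5
        · exact h5
        · exact absurd hq h5
      refine ⟨0, -p⁻¹, ?_⟩
      field_simp
      ring
    · refine ⟨q⁻¹, 0, ?_⟩
      field_simp
      ring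
  obtain ⟨X, hX⟩ : ∃ X : SpecialLinearGroup (Fin 2) K, X.1 = !![r, s; p, q] :=
    ⟨⟨!![r, s; p, q], by rw [Matrix.det_fin_two_of]; exact hrs⟩, rfl⟩
  refine ⟨X, ?_⟩
  rw [(conj_entries X D).2.1, hX]
  simp only [Matrix.of_apply, Matrix.cons_val', Matrix.cons_val_zero, Matrix.cons_val_one,
    Matrix.cons_val_fin_one]
  linear_combination hQ - (p * p * D.1 0 1 + p * q * D.1 1 1) * h2

omit [Fintype K] [DecidableEq K] in
/-- triangular forms are unipotent or diagonal, up to conjugation -/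
theorem exists_nf (D : SpecialLinearGroup (Fin 2) K) (p q : K) (hpq : p ≠ 0 ∨ q ≠ 0)
    (hQ : q * q * D.1 1 0 + p * q * (D.1 0 0 + D.1 1 1) + p * p * D.1 0 1 = 0) :
    ∃ Y : SpecialLinearGroup (Fin 2) K, (Y * D * Y⁻¹).1 1 0 = 0 ∧
      (Y * D * Y⁻¹).1 0 0 * (Y * D * Y⁻¹).1 1 1 = 1 ∧
      ((Y * D * Y⁻¹).1 0 0 = 1 ∨ (Y * D * Y⁻¹).1 0 1 = 0) := by
  have h2 := h.two
  obtain ⟨X, hX⟩ := h.exists_tri D p q hpq hQ
  obtain ⟨E, hE⟩ : ∃ E : SpecialLinearGroup (Fin 2) K, E = X * D * X⁻¹ := ⟨_, rfl⟩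
  rw [← hE] at hX
  have hdet : ∀ F : SpecialLinearGroup (Fin 2) K, F.1 1 0 = 0 → F.1 0 0 * F.1 1 1 = 1 := by
    intro F hF
    have := F.2
    rw [Matrix.det_fin_two, hF] at this
    linear_combination this
  by_cases hm : E.1 0 0 = 1
  · exact ⟨X, by rw [← hE]; exact hX, by rw [← hE]; exact hdet E hX, by rw [← hE]; exact Or.inl hm⟩
  · have hmm := hdet E hX
    have ht : E.1 0 0 + E.1 1 1 ≠ 0 := by
      intro h5
      apply hm
      have h6 : (E.1 0 0 + 1) * (E.1 0 0 + 1) = 0 := by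
        linear_combination E.1 0 0 * h5 - hmm + E.1 0 0 * h2
      have h7 : E.1 0 0 + 1 = 0 := by simpa using h6
      linear_combination h7 - h2
    obtain ⟨t, htd⟩ : ∃ t : K, (E.1 0 0 + E.1 1 1) * t = E.1 0 1 :=
      ⟨(E.1 0 0 + E.1 1 1)⁻¹ * E.1 0 1, by rw [← mul_assoc, mul_inv_cancel₀ ht, one_mul]⟩
    obtain ⟨Z, hZ⟩ : ∃ Z : SpecialLinearGroup (Fin 2) K, Z.1 = !![1, t; 0, 1] :=
      ⟨⟨!![1, t; 0, 1], by rw [Matrix.det_fin_two_of]; ring⟩, rfl⟩
    have hconj : Z * X * D * (Z * X)⁻¹ = Z * E * Z⁻¹ := by rw [hE]; group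
    have h10 : (Z * E * Z⁻¹).1 1 0 = 0 := by
      rw [(conj_entries Z E).2.1, hZ]
      simp only [Matrix.of_apply, Matrix.cons_val', Matrix.cons_val_zero, Matrix.cons_val_one,
        Matrix.cons_val_fin_one]
      rw [hX]; ring
    refine ⟨Z * X, by rw [hconj]; exact h10, by rw [hconj]; exact hdet _ h10, Or.inr ?_⟩
    rw [hconj, (conj_entries Z E).1, hZ]
    simp only [Matrix.of_apply, Matrix.cons_val', Matrix.cons_val_zero, Matrix.cons_val_one,
      Matrix.cons_val_fin_one]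
    rw [hX]
    linear_combination (-1 : K) * htd + (t * E.1 1 1) * h2

/-- THE PARITY LEMMA: either some conjugate of `D` is good, or `D` is conjugate to a diagonal matrix
and both forms become pure; then the sum of the four long coordinates is one. -/
theorem par8 (σ : K) (hσ1 : σ ≠ 1) (D : SpecialLinearGroup (Fin 2) K)
    {c e f g a0 e' f' a1 : K} (hc : τ c = c) (hg : τ g = g) (ha0 : τ a0 = a0) (ha1 : τ a1 = a1) :
    Good τ σ D c e f g a0 e' f' a1 ∨
    ∃ (Y : SpecialLinearGroup (Fin 2) K) (m m' c₁ g₁ a₀ a₁ : K), m ≠ 1 ∧ m * m' = 1 ∧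
      (Y * D * Y⁻¹).1 0 0 = m ∧ (Y * D * Y⁻¹).1 0 1 = 0 ∧ (Y * D * Y⁻¹).1 1 0 = 0 ∧
      (Y * D * Y⁻¹).1 1 1 = m' ∧ τ c₁ = c₁ ∧ τ g₁ = g₁ ∧ τ a₀ = a₀ ∧ τ a₁ = a₁ ∧
      c₁ + g₁ + a₀ + a₁ = 1 ∧
      (∀ x y, Fm τ c e f g (x * Y.1 0 0 + y * Y.1 1 0) (x * Y.1 0 1 + y * Y.1 1 1) = Fm τ c₁ 0 0 g₁ x y) ∧
      (∀ x y, Fm τ a0 e' f' a1 (x * Y.1 0 0 + y * Y.1 1 0) (x * Y.1 0 1 + y * Y.1 1 1)
        = Fm τ a₀ 0 0 a₁ x y) := by
  by_cases hQ : ∀ p q : K, (p ≠ 0 ∨ q ≠ 0) →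
      q * q * D.1 1 0 + p * q * (D.1 0 0 + D.1 1 1) + p * p * D.1 0 1 ≠ 0
  · exact Or.inl (h.good_elliptic σ D hc hg ha0 ha1 hQ)
  · simp only [not_forall, not_not] at hQ
    obtain ⟨p, q, hpq, hQ⟩ := hQ
    obtain ⟨Y, y1, y2, y3⟩ := h.exists_nf D p q hpq hQ
    obtain ⟨c₁, e₁, f₁, g₁, t1, t2, t3⟩ :=
      h.Fm_comp c e f g (Y.1 0 0) (Y.1 0 1) (Y.1 1 0) (Y.1 1 1) hc hg
    obtain ⟨a₀, e₂, f₂, a₁, t4, t5, t6⟩ :=
      h.Fm_comp a0 e' f' a1 (Y.1 0 0) (Y.1 0 1) (Y.1 1 0) (Y.1 1 1) ha0 ha1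
    by_cases hG : Good τ σ (Y * D * Y⁻¹) c₁ e₁ f₁ g₁ a₀ e₂ f₂ a₁
    · exact Or.inl (h.good_conj Y t3 t6 hG)
    · by_cases hm : (Y * D * Y⁻¹).1 0 0 = 1
      · have y4 : (Y * D * Y⁻¹).1 1 1 = 1 := by rw [hm, one_mul] at y2; exact y2
        exact absurd (h.good_unip σ hσ1 _ t1 t2 t4 t5 hm y4 y1) hG
      · have y5 := y3.resolve_left hm
        right
        obtain ⟨z1, z2, z3, z4⟩ := h.diag_case σ hσ1 _ t1 t2 t4 t5 hm y2 rfl y5 y1 rfl hG
        subst z1 z2 z3 z4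
        exact ⟨Y, _, _, c₁, g₁, a₀, a₁, hm, y2, rfl, y5, y1, rfl, t1, t2, t4, t5,
          h.diag_sum σ _ t1 t2 t4 t5 hm y2 rfl y5 y1 rfl hG, t3, t6⟩

end Tau

end Pool.Agent.ThT2
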