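import Pool.Agent.ThT.Tw
import Pool.Agent.ThT2.Par8

/-! # Commutators with explicit coefficients (copies of rows af, ah of `Pool.Agent.ThT.Tw` by helper95) -/

namespace Pool.Agent.ThT2

open ThT

variable {K : Type*} [Field K] {G : Type*} [Group G]

-- BEGIN af
private theorem af_mv {x : Root → K → G} (h : Stb K x) {r s t : Root} (ht : t.1 = r.1 + s.1) (a b : K) :
    x r a * x s b = x t (eps K r.1 s.1 * a * b) * x s b * x r a := by
  have e : x r a * x s b * (x r a)⁻¹ = x t (eps K r.1 s.1 * a * b) * x s b := h.conj_add ht a b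
  rw [← e, inv_mul_cancel_right]

private theorem af_word {t0 t1 t2 s0 s1 s2 u0 u1 u2 v v' : G} (e1 : s1 * t2 = u0 * t2 * s1) (e2 : s0 * t1 = u2 * t1 * s0) (e3 : s0 * u0 = v * u0 * s0)
    (e4 : s0 * t2 = u1 * t2 * s0) (e5 : u2 * t2 = v' * t2 * u2) (c1 : Commute t1 t2) (c2 : Commute v t2) (c3 : Commute u0 t2) (c4 : Commute u1 t2)
    (d1 : Commute v' t2) (d2 : Commute v' u2) (d3 : Commute v' t1) (d4 : Commute v' v) (d5 : Commute v' u0) (d6 : Commute v' u1) (f1 : Commute u2 t1) (f2 : Commute v u0) (f3 : Commute v u1) :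
    t0 * s0 * (t1 * s1) * (t2 * s2) = t0 * t1 * t2 * (u2 * u0 * u1) * v * v' * (s0 * s1 * s2) := by
  have k1 : t1 * v * u0 * u1 * t2 = t2 * (t1 * v * u0 * u1) := (((c1.mul_left c2).mul_left c3).mul_left c4).eq
  have k2 : v' * (t2 * u2 * (t1 * v * u0 * u1)) = t2 * u2 * (t1 * v * u0 * u1) * v' :=
    ((d1.mul_right d2).mul_right (((d3.mul_right d4).mul_right d5).mul_right d6)).eq
  have k3 : v * (u0 * u1) = u0 * u1 * v := (f2.mul_right f3).eq
  have key : u2 * t1 * v * u0 * u1 * t2 = t1 * t2 * (u2 * u0 * u1) * v * v' := by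
    calc u2 * t1 * v * u0 * u1 * t2 = u2 * (t1 * v * u0 * u1 * t2) := by group
      _ = (u2 * t2) * (t1 * v * u0 * u1) := by rw [k1]; group
      _ = v' * (t2 * u2 * (t1 * v * u0 * u1)) := by rw [e5]; group
      _ = t2 * (u2 * t1) * (v * (u0 * u1)) * v' := by rw [k2]; group
      _ = (t2 * t1) * u2 * (u0 * u1) * v * v' := by rw [f1.eq, k3]; group
      _ = _ := by rw [← c1.eq]; group
  calc t0 * s0 * (t1 * s1) * (t2 * s2) = t0 * (s0 * t1) * (s1 * t2) * s2 := by group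
    _ = t0 * (u2 * t1) * (s0 * u0) * t2 * s1 * s2 := by rw [e1, e2]; group
    _ = t0 * (u2 * t1) * (v * u0) * (s0 * t2) * s1 * s2 := by rw [e3]; group
    _ = t0 * (u2 * t1 * v * u0 * u1 * t2) * (s0 * s1 * s2) := by rw [e4]; group
    _ = _ := by rw [key]; group

/-- MODULE af. `r` fixed, `s` not, `(r, s) = -1`.  With `s_i = sr^i s`, `b_i = τ^i b`, `t_i = r + s_i`, `w_i = ε a b_i` (`ε = ε(r, s)`), `u_k = t_i + s_j` (`{i,j,k} = {0,1,2}`), `v = u_k + s_k`, `v' = r + v = t_k + u_k`: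
`x_r(a) x_(s_i)(b_i) x_r(a)⁻¹ = x_(t_i)(w_i) x_(s_i)(b_i)` (`conj_add`), so the left side is `t0 s0 t1 s1 t2 s2` (letters: `t0 = x_(t_0)(w_0)` ..).  Moves (all `conj_add`): `s1 t2 = u0 t2 s1`, `s0 t1 = u2 t1 s0`, `s0 u0 = v u0 s0`, `s0 t2 = u1 t2 s0`,
`u2 t2 = v' t2 u2`; the other pairs commute (form `≥ 0`).  With `ε' = ε(s, r)` (`ε(s_i, t_j) = ε'`, by `eps_self_sr`, `eps_sg`) the coefficients are `u_k : ε' ε a b_i b_j`, `v : ± a b_0 b_1 b_2`, `v' : ± a a b_0 b_1 b_2`. -/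
theorem yt_c2x {x : Root → K → G} (h : Stb K x) {τ : K →+* K} (hτ : ∀ a, τ (τ (τ a)) = a) {r s t u v v' : Root} (hr : sr r = r) (hs : sr s ≠ s) (ht : t.1 = r.1 + s.1)
    (hu : u.1 = t.1 + sg s.1) (hv : v.1 = u.1 + sg (sg s.1)) (hv' : v'.1 = r.1 + v.1) {a : K} (ha : τ a = a) (b : K) :
    sr t ≠ t ∧ sr u ≠ u ∧ sr v = v ∧ sr v' = v' ∧ ∃ c d e, c = eps K s.1 (sr t).1 * b * τ (eps K r.1 s.1 * a * b) ∧ d = eps K s.1 (sr u).1 * b * τ c ∧ τ d = d ∧ τ e = e ∧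
      yt x τ r a * yt x τ s b * (yt x τ r a)⁻¹ = yt x τ t (eps K r.1 s.1 * a * b) * yt x τ u c * yt x τ v d * yt x τ v' e * yt x τ s b := by
  have hr' : sg r.1 = r.1 := congrArg Subtype.val hr
  obtain ⟨o1, o2, o3⟩ := bf_sr_sr hs
  have rs0 : bf r.1 s.1 = -1 := bf_of_add ht
  have rs1 : bf r.1 (sr s).1 = -1 := by
    have e := bf_sr r s
    rw [hr] at e
    rw [e, rs0]
  have rs2 : bf r.1 (sr (sr s)).1 = -1 := by
    have e := bf_sr r (sr s)
    rw [hr] at e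
    rw [e, rs1]
  have rr := bf_root r
  have ss := bf_root s
  have ss1 := bf_root (sr s)
  have ss2 := bf_root (sr (sr s))
  have c0 : bf s.1 r.1 = -1 := by rw [bf_comm, rs0]
  have c1 : bf (sr s).1 r.1 = -1 := by rw [bf_comm, rs1]
  have c2 : bf (sr (sr s)).1 r.1 = -1 := by rw [bf_comm, rs2]
  have p1 : bf (sr s).1 s.1 = 0 := by rw [bf_comm, o1]
  have p2 : bf (sr (sr s)).1 s.1 = 0 := by rw [bf_comm, o2]
  have p3 : bf (sr (sr s)).1 (sr s).1 = 0 := by rw [bf_comm, o3]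
  have q3 : sg (sg (sg s.1)) = s.1 := sg_sg_sg s.1
  have T1 : (sr t).1 = r.1 + (sr s).1 := by rw [sr_val, ht, sg_add, hr', sr_val]
  have T2 : (sr (sr t)).1 = r.1 + (sr (sr s)).1 := by rw [sr_val, T1, sg_add, hr', sr_val (sr s)]
  have U2 : u.1 = r.1 + s.1 + (sr s).1 := by rw [hu, ht, sr_val]
  have U0 : (sr u).1 = r.1 + (sr s).1 + (sr (sr s)).1 := by
    rw [sr_val, U2, sg_add, sg_add, hr', sr_val (sr s), sr_val s]
  have U1 : (sr (sr u)).1 = r.1 + (sr (sr s)).1 + s.1 := by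
    rw [sr_val, U0, sg_add, sg_add, hr', sr_val (sr s), sr_val s, q3]
  have V0 : v.1 = r.1 + s.1 + (sr s).1 + (sr (sr s)).1 := by rw [hv, U2, sr_val (sr s), sr_val s]
  have V1 : v'.1 = r.1 + r.1 + s.1 + (sr s).1 + (sr (sr s)).1 := by rw [hv', V0]; abel
  have htm : sr t ≠ t := by
    intro e
    have e2 := bf_root t
    rw [← e] at e2
    nth_rewrite 2 [e] at e2
    rw [T1, ht] at e2
    simp only [bf_add_left, bf_add_right, rr, rs0, rs1, c0, c1, p1] at e2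
    norm_num at e2
  have hum : sr u ≠ u := by
    intro e
    have e2 := bf_root u
    rw [← e] at e2
    nth_rewrite 2 [e] at e2
    rw [U0, U2] at e2
    simp only [bf_add_left, bf_add_right, rr, rs0, rs1, rs2, c0, c1, c2, p1, p2, p3, ss1] at e2
    norm_num at e2
  have hvf : sr v = v := by
    apply Subtype.ext
    rw [sr_val, V0, sg_add, sg_add, sg_add, hr', sr_val (sr s), sr_val s, q3]
    abel
  have hvf' : sr v' = v' := by
    apply Subtype.ext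
    rw [sr_val, V1, sg_add, sg_add, sg_add, sg_add, hr', sr_val (sr s), sr_val s, q3]
    abel
  refine ⟨htm, hum, hvf, hvf', ?_⟩
  -- the signs
  have g1 : eps K r.1 (sr s).1 = eps K r.1 s.1 := by
    have e := eps_sg (K := K) r.1 s.1
    rw [hr'] at e
    rw [sr_val, e]
  have g2 : eps K r.1 (sr (sr s)).1 = eps K r.1 s.1 := by
    have e := eps_sg (K := K) r.1 (sr s).1
    rw [hr'] at e
    rw [sr_val (sr s), e, g1]
  have g3 : eps K (sr s).1 (sr (sr t)).1 = eps K s.1 (sr t).1 := eps_sg s.1 (sr t).1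
  have g4 : eps K s.1 (sr (sr t)).1 = eps K s.1 (sr t).1 := by
    rw [T1, T2, eps_add_right, eps_add_right, (eps_self_sr hs).1, (eps_self_sr hs).2]
  obtain ⟨w, hw⟩ : ∃ w, w = eps K r.1 s.1 * a * b := ⟨_, rfl⟩
  have w1 : eps K r.1 (sr s).1 * a * τ b = τ w := by rw [hw, map_mul, map_mul, eps_map, ha, g1]
  have w2 : eps K r.1 (sr (sr s)).1 * a * τ (τ b) = τ (τ w) := by rw [← w1, map_mul, map_mul, eps_map, ha, g1, g2]
  obtain ⟨c, hc⟩ : ∃ c, c = eps K s.1 (sr t).1 * b * τ w := ⟨_, rfl⟩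
  have hc1 : eps K (sr s).1 (sr (sr t)).1 * τ b * τ (τ w) = τ c := by rw [hc, map_mul, map_mul, eps_map, g3]
  have hw2 : τ (τ w) = eps K r.1 s.1 * a * τ (τ b) := by rw [← w2, g2]
  have hc2 : eps K s.1 (sr (sr t)).1 * b * τ (τ w) = τ (τ c) := by
    rw [← hc1, map_mul, map_mul, eps_map, g3, g4, hτ, hw2, hw]
    ring
  refine ⟨c, eps K s.1 (sr u).1 * b * τ c, eps K u.1 (sr (sr t)).1 * c * τ (τ w), by rw [hc, hw], rfl, ?_, ?_, ?_⟩
  · rw [map_mul, map_mul, eps_map, ← hc2, ← hc1, g3, g4, hw2]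
    have e : τ (τ b) = τ (τ b) := rfl
    have hw1 : τ w = eps K r.1 s.1 * a * τ b := by rw [← w1, g1]
    ring
  · have hw1 : τ w = eps K r.1 s.1 * a * τ b := by rw [← w1, g1]
    rw [map_mul, map_mul, eps_map, hτ, hc, map_mul, map_mul, eps_map, hw2, hw1, hw]
    ring
  · rw [yt_fix x τ hr, yt_mov x τ hs, yt_mov x τ htm, yt_mov x τ hum, yt_fix x τ hvf, yt_fix x τ hvf', ← hw]
    have l0 : x r a * x s b * (x r a)⁻¹ = x t w * x s b := by
      rw [hw]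
      exact h.conj_add ht a b
    have l1 : x r a * x (sr s) (τ b) * (x r a)⁻¹ = x (sr t) (τ w) * x (sr s) (τ b) := by
      rw [← w1]
      exact h.conj_add T1 a _
    have l2 : x r a * x (sr (sr s)) (τ (τ b)) * (x r a)⁻¹ = x (sr (sr t)) (τ (τ w)) * x (sr (sr s)) (τ (τ b)) := by
      rw [← w2]
      exact h.conj_add T2 a _
    have e1 := af_mv h (r := sr s) (s := sr (sr t)) (t := sr u) (by rw [U0, T2]; abel) (τ b) (τ (τ w))
    rw [hc1] at e1
    have e2 := af_mv h (r := s) (s := sr t) (t := u) (by rw [U2, T1]; abel) b (τ w)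
    rw [← hc] at e2
    have e3 := af_mv h (r := s) (s := sr u) (t := v) (by rw [V0, U0]; abel) b (τ c)
    have e4 := af_mv h (r := s) (s := sr (sr t)) (t := sr (sr u)) (by rw [U1, T2]; abel) b (τ (τ w))
    rw [hc2] at e4
    have e5 := af_mv h (r := u) (s := sr (sr t)) (t := v') (by rw [V1, U2, T2]; abel) c (τ (τ w))
    have b0 : ∀ y z : Root, (0 : ℤ) ≤ bf y.1 z.1 → ∀ a b, Commute (x y a) (x z b) := fun y z hyz a b => h.commute hyz a b
    have key := af_word (t0 := x t w) (s2 := x (sr (sr s)) (τ (τ b))) e1 e2 e3 e4 e5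
      (b0 _ _ (by rw [T1, T2]; simp only [bf_add_left, bf_add_right, rr, rs0, rs1, rs2, c0, c1, c2, p1, p2, p3, o1, o2, o3, ss, ss1, ss2]; norm_num) _ _)
      (b0 _ _ (by rw [V0, T2]; simp only [bf_add_left, bf_add_right, rr, rs0, rs1, rs2, c0, c1, c2, p1, p2, p3, o1, o2, o3, ss, ss1, ss2]; norm_num) _ _)
      (b0 _ _ (by rw [U0, T2]; simp only [bf_add_left, bf_add_right, rr, rs0, rs1, rs2, c0, c1, c2, p1, p2, p3, o1, o2, o3, ss, ss1, ss2]; norm_num) _ _)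
      (b0 _ _ (by rw [U1, T2]; simp only [bf_add_left, bf_add_right, rr, rs0, rs1, rs2, c0, c1, c2, p1, p2, p3, o1, o2, o3, ss, ss1, ss2]; norm_num) _ _)
      (b0 _ _ (by rw [V1, T2]; simp only [bf_add_left, bf_add_right, rr, rs0, rs1, rs2, c0, c1, c2, p1, p2, p3, o1, o2, o3, ss, ss1, ss2]; norm_num) _ _)
      (b0 _ _ (by rw [V1, U2]; simp only [bf_add_left, bf_add_right, rr, rs0, rs1, rs2, c0, c1, c2, p1, p2, p3, o1, o2, o3, ss, ss1, ss2]; norm_num) _ _)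
      (b0 _ _ (by rw [V1, T1]; simp only [bf_add_left, bf_add_right, rr, rs0, rs1, rs2, c0, c1, c2, p1, p2, p3, o1, o2, o3, ss, ss1, ss2]; norm_num) _ _)
      (b0 _ _ (by rw [V1, V0]; simp only [bf_add_left, bf_add_right, rr, rs0, rs1, rs2, c0, c1, c2, p1, p2, p3, o1, o2, o3, ss, ss1, ss2]; norm_num) _ _)
      (b0 _ _ (by rw [V1, U0]; simp only [bf_add_left, bf_add_right, rr, rs0, rs1, rs2, c0, c1, c2, p1, p2, p3, o1, o2, o3, ss, ss1, ss2]; norm_num) _ _)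
      (b0 _ _ (by rw [V1, U1]; simp only [bf_add_left, bf_add_right, rr, rs0, rs1, rs2, c0, c1, c2, p1, p2, p3, o1, o2, o3, ss, ss1, ss2]; norm_num) _ _)
      (b0 _ _ (by rw [U2, T1]; simp only [bf_add_left, bf_add_right, rr, rs0, rs1, rs2, c0, c1, c2, p1, p2, p3, o1, o2, o3, ss, ss1, ss2]; norm_num) _ _)
      (b0 _ _ (by rw [V0, U0]; simp only [bf_add_left, bf_add_right, rr, rs0, rs1, rs2, c0, c1, c2, p1, p2, p3, o1, o2, o3, ss, ss1, ss2]; norm_num) _ _)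
      (b0 _ _ (by rw [V0, U1]; simp only [bf_add_left, bf_add_right, rr, rs0, rs1, rs2, c0, c1, c2, p1, p2, p3, o1, o2, o3, ss, ss1, ss2]; norm_num) _ _)
    calc x r a * (x s b * x (sr s) (τ b) * x (sr (sr s)) (τ (τ b))) * (x r a)⁻¹
        = (x r a * x s b * (x r a)⁻¹) * (x r a * x (sr s) (τ b) * (x r a)⁻¹) * (x r a * x (sr (sr s)) (τ (τ b)) * (x r a)⁻¹) := by group
      _ = x t w * x s b * (x (sr t) (τ w) * x (sr s) (τ b)) * (x (sr (sr t)) (τ (τ w)) * x (sr (sr s)) (τ (τ b))) := by rw [l0, l1, l2]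
      _ = _ := key
-- END af

-- BEGIN ah
private theorem ah_k {r s : Root} (hr : sr r ≠ r) (hs : sr s ≠ s) (h0 : bf r.1 s.1 = 1)
    (h1 : bf r.1 (sr s).1 = -1) (h2 : bf r.1 (sr (sr s)).1 = -1) : sg (s.1 - r.1) = s.1 - r.1 := by
  have e1 : bf (sr r).1 (sr s).1 = 1 := by rw [bf_sr, h0]
  have e2 : bf (sr r).1 s.1 = -1 := by rw [bf_sr_left, h2]
  have o1 := (bf_self_sr r).resolve_left hr
  have o2 := (bf_self_sr s).resolve_left hs
  have f0 : bf s.1 r.1 = 1 := by rw [bf_comm, h0]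
  have f1 : bf (sr s).1 r.1 = -1 := by rw [bf_comm, h1]
  have f2 : bf s.1 (sr r).1 = -1 := by rw [bf_comm, e2]
  have f3 : bf (sr s).1 (sr r).1 = 1 := by rw [bf_comm, e1]
  have p1 : bf (sr r).1 r.1 = 0 := by rw [bf_comm, o1]
  have p2 : bf (sr s).1 s.1 = 0 := by rw [bf_comm, o2]
  have n : bf (sg (s.1 - r.1) - (s.1 - r.1)) (sg (s.1 - r.1) - (s.1 - r.1)) = 0 := by
    rw [sg_sub, ← sr_val, ← sr_val]
    simp only [bf_sub_left, bf_sub_right, bf_root, h0, h1, e1, e2, o1, o2, f0, f1, f2, f3, p1, p2]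
    norm_num
  exact sub_eq_zero.1 ((bf_pos _).2 n)

private theorem ah_word1 {y0 y1 y2 s t1 t2 p : G} (e1 : y2 * s * y2⁻¹ = t1 * s) (e2 : y1 * t1 * y1⁻¹ = p * t1) (e3 : y1 * s * y1⁻¹ = t2 * s)
    (c1 : Commute y0 p) (c2 : Commute y0 t1) (c3 : Commute y0 t2) (c4 : Commute y0 s) : y0 * y1 * y2 * s * (y0 * y1 * y2)⁻¹ = p * t1 * t2 * s := by
  calc y0 * y1 * y2 * s * (y0 * y1 * y2)⁻¹ = y0 * (y1 * (y2 * s * y2⁻¹) * y1⁻¹) * y0⁻¹ := by group
    _ = y0 * ((y1 * t1 * y1⁻¹) * (y1 * s * y1⁻¹)) * y0⁻¹ := by rw [e1]; group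
    _ = y0 * (p * t1 * t2 * s) * y0⁻¹ := by rw [e2, e3]; group
    _ = p * t1 * t2 * s := by rw [(((c1.mul_right c2).mul_right c3).mul_right c4).eq, mul_inv_cancel_right]

private theorem ah_word2 {p0 p1 p2 q1 q2 q3 u1 u2 v2 v0 w0 w1 s0 s1 s2 : G}
    (a1 : Commute p1 (u1 * u2 * s0)) (a2 : Commute p2 (u1 * u2 * s0 * (v2 * v0 * s1)))
    (e1 : Commute s0 v2) (e2 : s0 * v0 = q1 * v0 * s0) (e3 : s0 * w0 = q2 * w0 * s0) (e4 : Commute s1 w0) (e5 : s1 * w1 = q3 * w1 * s1) (e6 : Commute s0 w1)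
    (b1 : Commute v0 q2) (b2 : Commute (v0 * w0 * s0) q3) (b3 : Commute (u1 * u2 * v2) (v0 * w0)) (b4 : Commute (u2 * v2) w1)
    (b5 : Commute (q1 * q2 * q3) (v0 * w0 * w1)) (b6 : Commute (p0 * p1 * p2) (v0 * w0 * (u1 * w1) * (u2 * v2))) :
    p0 * u1 * u2 * s0 * (p1 * v2 * v0 * s1) * (p2 * w0 * w1 * s2) = v0 * w0 * (u1 * w1) * (u2 * v2) * (p0 * p1 * p2) * (q1 * q2 * q3) * (s0 * s1 * s2) := by
  have k1 : u1 * u2 * s0 * (v2 * v0 * s1) * (w0 * w1 * s2) = (u1 * u2 * v2) * (q1 * q2 * q3) * (v0 * w0 * w1) * (s0 * s1 * s2) := by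
    calc u1 * u2 * s0 * (v2 * v0 * s1) * (w0 * w1 * s2) = u1 * u2 * (s0 * v2) * v0 * (s1 * w0) * w1 * s2 := by group
      _ = u1 * u2 * v2 * (s0 * v0) * w0 * (s1 * w1) * s2 := by rw [e1.eq, e4.eq]; group
      _ = u1 * u2 * v2 * q1 * v0 * (s0 * w0) * q3 * w1 * s1 * s2 := by rw [e2, e5]; group
      _ = u1 * u2 * v2 * q1 * (v0 * q2) * w0 * s0 * q3 * w1 * s1 * s2 := by rw [e3]; group
      _ = u1 * u2 * v2 * q1 * q2 * (v0 * w0 * s0 * q3) * w1 * s1 * s2 := by rw [b1.eq]; group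
      _ = u1 * u2 * v2 * q1 * q2 * q3 * v0 * w0 * (s0 * w1) * s1 * s2 := by rw [b2.eq]; group
      _ = _ := by rw [e6.eq]; group
  calc p0 * u1 * u2 * s0 * (p1 * v2 * v0 * s1) * (p2 * w0 * w1 * s2) = p0 * (u1 * u2 * s0 * p1) * v2 * v0 * s1 * (p2 * w0 * w1 * s2) := by group
    _ = p0 * p1 * (u1 * u2 * s0 * (v2 * v0 * s1) * p2) * (w0 * w1 * s2) := by rw [← a1.eq]; group
    _ = (p0 * p1 * p2) * (u1 * u2 * s0 * (v2 * v0 * s1) * (w0 * w1 * s2)) := by rw [← a2.eq]; group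
    _ = (p0 * p1 * p2) * (u1 * u2 * v2) * ((q1 * q2 * q3) * (v0 * w0 * w1)) * (s0 * s1 * s2) := by rw [k1]; group
    _ = (p0 * p1 * p2) * (u1 * u2 * v2 * (v0 * w0)) * w1 * (q1 * q2 * q3) * (s0 * s1 * s2) := by rw [b5.eq]; group
    _ = (p0 * p1 * p2) * (v0 * w0) * u1 * (u2 * v2 * w1) * (q1 * q2 * q3) * (s0 * s1 * s2) := by rw [b3.eq]; group
    _ = (p0 * p1 * p2) * (v0 * w0 * (u1 * w1) * (u2 * v2)) * (q1 * q2 * q3) * (s0 * s1 * s2) := by rw [b4.eq]; group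
    _ = _ := by rw [b6.eq]

private theorem ah_one {x : Root → K → G} (h : Stb K x) (τ : K →+* K) {r s t k p : Root} (hr : sr r ≠ r) (hk : sg k.1 = k.1) (hb : bf r.1 k.1 = -1)
    (hs : s.1 = r.1 + k.1) (ht : t.1 = (sr r).1 + (sr (sr r)).1 + k.1) (hp : p.1 = r.1 + (sr r).1 + (sr (sr r)).1 + k.1) (a b : K) :
    yt x τ r a * x s b * (yt x τ r a)⁻¹ = x p (eps K r.1 t.1 * τ a * (eps K r.1 k.1 * τ (τ a) * b)) * x (sr t) (eps K r.1 k.1 * τ (τ a) * b) *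
      x (sr (sr t)) (eps K r.1 k.1 * τ a * b) * x s b := by
  obtain ⟨o1, o2, o3⟩ := bf_sr_sr hr
  have q3 : sg (sg (sg r.1)) = r.1 := sg_sg_sg r.1
  have T1 : (sr t).1 = (sr (sr r)).1 + r.1 + k.1 := by rw [sr_val, ht, sg_add, sg_add, hk, sr_val (sr r), sr_val r, q3]
  have T2 : (sr (sr t)).1 = r.1 + (sr r).1 + k.1 := by rw [sr_val, T1, sg_add, sg_add, hk, sr_val (sr r), sr_val r, q3]
  have p1 : bf (sr r).1 r.1 = 0 := by rw [bf_comm, o1]
  have p2 : bf (sr (sr r)).1 r.1 = 0 := by rw [bf_comm, o2]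
  have b1 : bf (sr r).1 k.1 = -1 := by
    have e := bf_sg r.1 k.1
    rw [hk, hb] at e
    exact e
  have b2 : bf (sr (sr r)).1 k.1 = -1 := by
    have e := bf_sg (sr r).1 k.1
    rw [hk, b1] at e
    exact e
  obtain ⟨s1, s2⟩ := eps_self_sr (K := K) hr
  have s3 : eps K (sr r).1 (sr (sr r)).1 = 1 := by
    rw [← s1]
    exact eps_sg r.1 (sr r).1
  have s4 : eps K (sr r).1 r.1 = 1 := by
    have e := eps_sg (K := K) r.1 (sg (sg r.1))
    rw [q3] at e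
    exact e.trans s2
  have s5 : eps K (sr (sr r)).1 r.1 = 1 := by
    have e := eps_sg (K := K) (sg r.1) (sg (sg r.1))
    rw [q3] at e
    exact e.trans s3
  have x1 : eps K (sr r).1 k.1 = eps K r.1 k.1 := by
    have e := eps_sg (K := K) r.1 k.1
    rw [hk] at e
    exact e
  have x2 : eps K (sr (sr r)).1 k.1 = eps K r.1 k.1 := by
    have e := eps_sg (K := K) (sr r).1 k.1
    rw [hk, x1] at e
    exact e
  have y1 : eps K (sr r).1 s.1 = eps K r.1 k.1 := by rw [hs, eps_add_right, s4, x1, one_mul]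
  have y2 : eps K (sr (sr r)).1 s.1 = eps K r.1 k.1 := by rw [hs, eps_add_right, s5, x2, one_mul]
  have y3 : eps K (sr r).1 (sr t).1 = eps K r.1 t.1 := eps_sg r.1 t.1
  rw [yt_mov x τ hr]
  refine ah_word1 ?_ ?_ ?_ ?_ ?_ ?_ ?_
  · rw [h.conj_add (t := sr t) (by rw [T1, hs]; abel)]
    show x (sr t) (eps K (sr (sr r)).1 s.1 * τ (τ a) * b) * x s b = _
    rw [y2]
  · rw [h.conj_add (t := p) (by rw [hp, T1]; abel)]
    show x p (eps K (sr r).1 (sr t).1 * τ a * _) * x (sr t) _ = _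
    rw [y3]
  · rw [h.conj_add (t := sr (sr t)) (by rw [T2, hs]; abel)]
    show x (sr (sr t)) (eps K (sr r).1 s.1 * τ a * b) * x s b = _
    rw [y1]
  · refine h.commute ?_ _ _
    rw [hp]
    simp only [bf_add_right, bf_root, o1, o2, hb]
    norm_num
  · refine h.commute ?_ _ _
    rw [T1]
    simp only [bf_add_right, bf_root, o1, o2, hb]
    norm_num
  · refine h.commute ?_ _ _
    rw [T2]
    simp only [bf_add_right, bf_root, o1, o2, hb]
    norm_num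
  · refine h.commute ?_ _ _
    rw [hs]
    simp only [bf_add_right, bf_root, o1, o2, hb]
    norm_num

/-- MODULE ah. `r`, `s` not fixed, `(r, s) = 1`, `(r, sr s) = (r, sr (sr s)) = -1`.  `t_k = r_i + s_j = r_j + s_i` (`{i,j,k} = {0,1,2}`), `γ = t_k + r_k`, `δ = t_k + s_k` (the same for all `k`).  With `Y_r = y_r(a)`:
`Y_r x_(s_j)(b_j) Y_r⁻¹ = x_γ(g_j) x_(t_k)(ε a_i b_j) x_(t_i)(ε a_k b_j) x_(s_j)(b_j)` where `(i, k) = (j + 1, j + 2)`, `ε = ε(r, sr s) = ε(r, sr (sr s))` (`eps_self_sr`: `r_1 - r_0 = s_1 - s_0`), `g_j = ± a_(j+1) a_(j+2) b_j` with a sign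
independent of `j` (`eps_sg`); then move the `x_(s_j)` to the right: `x_(s_j)` and `x_(t_j)` give `x_δ`.  Result: the coefficients are `t_0 : ε (a_1 b_2 + a_2 b_1)`, `γ : ± ∑ a_(j+1) a_(j+2) b_j`, `δ : ± ∑ a_j b_(j+1) b_(j+2)`; everything but `s` commutes. -/
theorem yt_c5x {x : Root → K → G} (h : Stb K x) {τ : K →+* K} (hτ : ∀ a, τ (τ (τ a)) = a) {r s t p q : Root} (hr : sr r ≠ r) (hs : sr s ≠ s) (h0 : bf r.1 s.1 = 1)
    (h1 : bf r.1 (sr s).1 = -1) (h2 : bf r.1 (sr (sr s)).1 = -1) (ht : t.1 = sg r.1 + sg (sg s.1)) (hp : p.1 = t.1 + r.1) (hq : q.1 = t.1 + s.1) (a b : K) :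
    sr t ≠ t ∧ sr p = p ∧ sr q = q ∧ ∃ c d, c = eps K r.1 t.1 * τ a * (eps K r.1 (sr s).1 * τ (τ a) * b) + eps K r.1 t.1 * τ (τ a) * (eps K r.1 (sr s).1 * a * τ b) + eps K r.1 t.1 * a * (eps K r.1 (sr s).1 * τ a * τ (τ b)) ∧ τ c = c ∧ τ d = d ∧
      yt x τ r a * yt x τ s b * (yt x τ r a)⁻¹ = yt x τ t (eps K r.1 (sr s).1 * (τ a * τ (τ b) + τ (τ a) * τ b)) * yt x τ p c * yt x τ q d * yt x τ s b := by
  obtain ⟨k, hk0⟩ := root_sub h0
  have hk : sg k.1 = k.1 := by rw [hk0]; exact ah_k hr hs h0 h1 h2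
  have S0 : s.1 = r.1 + k.1 := by rw [hk0]; abel
  have hb : bf r.1 k.1 = -1 := by rw [hk0, bf_sub_right, h0, bf_root]; norm_num
  obtain ⟨o1, o2, o3⟩ := bf_sr_sr hr
  have q3 : sg (sg (sg r.1)) = r.1 := sg_sg_sg r.1
  have S1 : (sr s).1 = (sr r).1 + k.1 := by rw [sr_val, S0, sg_add, hk, sr_val]
  have S2 : (sr (sr s)).1 = (sr (sr r)).1 + k.1 := by rw [sr_val, S1, sg_add, hk, sr_val (sr r)]
  have T0 : t.1 = (sr r).1 + (sr (sr r)).1 + k.1 := by
    have e : sg (sg s.1) = (sr (sr r)).1 + k.1 := S2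
    rw [ht, e, sr_val r, add_assoc]
  have T1 : (sr t).1 = (sr (sr r)).1 + r.1 + k.1 := by rw [sr_val, T0, sg_add, sg_add, hk, sr_val (sr r), sr_val r, q3]
  have T2 : (sr (sr t)).1 = r.1 + (sr r).1 + k.1 := by rw [sr_val, T1, sg_add, sg_add, hk, sr_val (sr r), sr_val r, q3]
  have P0 : p.1 = r.1 + (sr r).1 + (sr (sr r)).1 + k.1 := by rw [hp, T0]; abel
  have Q0 : q.1 = r.1 + (sr r).1 + (sr (sr r)).1 + k.1 + k.1 := by rw [hq, T0, S0]; abel
  have p1 : bf (sr r).1 r.1 = 0 := by rw [bf_comm, o1]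
  have p2 : bf (sr (sr r)).1 r.1 = 0 := by rw [bf_comm, o2]
  have p3 : bf (sr (sr r)).1 (sr r).1 = 0 := by rw [bf_comm, o3]
  have b1 : bf (sr r).1 k.1 = -1 := by
    have e := bf_sg r.1 k.1
    rw [hk, hb] at e
    exact e
  have b2 : bf (sr (sr r)).1 k.1 = -1 := by
    have e := bf_sg (sr r).1 k.1
    rw [hk, b1] at e
    exact e
  have c0 : bf k.1 r.1 = -1 := by rw [bf_comm, hb]
  have c1 : bf k.1 (sr r).1 = -1 := by rw [bf_comm, b1]
  have c2 : bf k.1 (sr (sr r)).1 = -1 := by rw [bf_comm, b2]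
  have r0 := bf_root r
  have r1 := bf_root (sr r)
  have r2 := bf_root (sr (sr r))
  have rk := bf_root k
  have htm : sr t ≠ t := by
    intro e
    have e2 := bf_root t
    rw [← e] at e2
    nth_rewrite 2 [e] at e2
    rw [T1, T0] at e2
    simp only [bf_add_left, bf_add_right, r0, r1, r2, rk, o1, o2, o3, p1, p2, p3, hb, b1, b2, c0, c1, c2] at e2
    norm_num at e2
  have hpf : sr p = p := by
    apply Subtype.ext
    rw [sr_val, P0, sg_add, sg_add, sg_add, hk, sr_val (sr r), sr_val r, q3]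
    abel
  have hqf : sr q = q := by
    apply Subtype.ext
    rw [sr_val, Q0, sg_add, sg_add, sg_add, sg_add, hk, sr_val (sr r), sr_val r, q3]
    abel
  refine ⟨htm, hpf, hqf, ?_⟩
  have hr1 : sr (sr r) ≠ sr r := sr_ne hr
  have hr2 : sr (sr (sr r)) ≠ sr (sr r) := sr_ne hr1
  -- the signs
  have x0 : eps K r.1 (sr s).1 = eps K r.1 k.1 := by rw [S1, eps_add_right, (eps_self_sr hr).1, one_mul]
  have x1 : eps K (sr r).1 k.1 = eps K r.1 k.1 := by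
    have e := eps_sg (K := K) r.1 k.1
    rw [hk] at e
    exact e
  have x2 : eps K (sr (sr r)).1 k.1 = eps K r.1 k.1 := by
    have e := eps_sg (K := K) (sr r).1 k.1
    rw [hk, x1] at e
    exact e
  have m1 : eps K (sr r).1 (sr t).1 = eps K r.1 t.1 := eps_sg r.1 t.1
  have m2 : eps K (sr (sr r)).1 (sr (sr t)).1 = eps K r.1 t.1 := (eps_sg (sr r).1 (sr t).1).trans m1
  have n1 : eps K (sr s).1 (sr t).1 = eps K s.1 t.1 := eps_sg s.1 t.1
  -- the three conjugates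
  have G0 := ah_one h τ hr hk hb S0 T0 P0 a b
  have G1 := ah_one h τ (r := sr r) (s := sr s) (t := sr t) (p := p) hr1 hk b1 S1 (by rw [sr_sr_sr, T1]) (by rw [sr_sr_sr, P0]; abel) (τ a) (τ b)
  have G2 := ah_one h τ (r := sr (sr r)) (s := sr (sr s)) (t := sr (sr t)) (p := p) hr2 hk b2 S2 (by rw [sr_sr_sr, T2]) (by rw [sr_sr_sr, P0]; abel) (τ (τ a)) (τ (τ b))
  rw [yt_sr h hτ hr, sr_sr_sr, hτ, m1, x1] at G1
  rw [yt_sr h hτ hr1, yt_sr h hτ hr, sr_sr_sr, hτ, m2, x2] at G2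
  obtain ⟨E, hE⟩ : ∃ E, E = eps K r.1 k.1 := ⟨_, rfl⟩
  obtain ⟨M, hM⟩ : ∃ M, M = eps K r.1 t.1 := ⟨_, rfl⟩
  obtain ⟨N, hN⟩ : ∃ N, N = eps K s.1 t.1 := ⟨_, rfl⟩
  have hE1 : τ E = E := by rw [hE, eps_map]
  have hM1 : τ M = M := by rw [hM, eps_map]
  have hN1 : τ N = N := by rw [hN, eps_map]
  rw [← hE, ← hM] at G0 G1 G2
  rw [x0, ← hE]
  have C : ∀ y z : Root, (0 : ℤ) ≤ bf y.1 z.1 → ∀ a b, Commute (x y a) (x z b) := fun y z hyz a b => h.commute hyz a b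
  -- the forms
  have g00 : (0 : ℤ) ≤ bf t.1 t.1 := by rw [bf_root]; norm_num
  have g01 : (0 : ℤ) ≤ bf (sr t).1 t.1 := by
    rw [T0, T1]; simp only [bf_add_left, bf_add_right, r0, r1, r2, rk, o1, o2, o3, p1, p2, p3, hb, b1, b2, c0, c1, c2]; norm_num
  have g02 : (0 : ℤ) ≤ bf (sr (sr t)).1 t.1 := by
    rw [T0, T2]; simp only [bf_add_left, bf_add_right, r0, r1, r2, rk, o1, o2, o3, p1, p2, p3, hb, b1, b2, c0, c1, c2]; norm_num
  have g21 : (0 : ℤ) ≤ bf (sr (sr t)).1 (sr t).1 := by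
    rw [T1, T2]; simp only [bf_add_left, bf_add_right, r0, r1, r2, rk, o1, o2, o3, p1, p2, p3, hb, b1, b2, c0, c1, c2]; norm_num
  have pt0 : (0 : ℤ) ≤ bf p.1 t.1 := by
    rw [T0, P0]; simp only [bf_add_left, bf_add_right, r0, r1, r2, rk, o1, o2, o3, p1, p2, p3, hb, b1, b2, c0, c1, c2]; norm_num
  have pt1 : (0 : ℤ) ≤ bf p.1 (sr t).1 := by
    rw [T1, P0]; simp only [bf_add_left, bf_add_right, r0, r1, r2, rk, o1, o2, o3, p1, p2, p3, hb, b1, b2, c0, c1, c2]; norm_num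
  have pt2 : (0 : ℤ) ≤ bf p.1 (sr (sr t)).1 := by
    rw [T2, P0]; simp only [bf_add_left, bf_add_right, r0, r1, r2, rk, o1, o2, o3, p1, p2, p3, hb, b1, b2, c0, c1, c2]; norm_num
  have ps0 : (0 : ℤ) ≤ bf p.1 s.1 := by
    rw [S0, P0]; simp only [bf_add_left, bf_add_right, r0, r1, r2, rk, o1, o2, o3, p1, p2, p3, hb, b1, b2, c0, c1, c2]; norm_num
  have ps1 : (0 : ℤ) ≤ bf p.1 (sr s).1 := by
    rw [S1, P0]; simp only [bf_add_left, bf_add_right, r0, r1, r2, rk, o1, o2, o3, p1, p2, p3, hb, b1, b2, c0, c1, c2]; norm_num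
  have qt0 : (0 : ℤ) ≤ bf q.1 t.1 := by
    rw [T0, Q0]; simp only [bf_add_left, bf_add_right, r0, r1, r2, rk, o1, o2, o3, p1, p2, p3, hb, b1, b2, c0, c1, c2]; norm_num
  have qt1 : (0 : ℤ) ≤ bf q.1 (sr t).1 := by
    rw [T1, Q0]; simp only [bf_add_left, bf_add_right, r0, r1, r2, rk, o1, o2, o3, p1, p2, p3, hb, b1, b2, c0, c1, c2]; norm_num
  have qs0 : (0 : ℤ) ≤ bf q.1 s.1 := by
    rw [S0, Q0]; simp only [bf_add_left, bf_add_right, r0, r1, r2, rk, o1, o2, o3, p1, p2, p3, hb, b1, b2, c0, c1, c2]; norm_num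
  have st2 : (0 : ℤ) ≤ bf s.1 (sr (sr t)).1 := by
    rw [S0, T2]; simp only [bf_add_left, bf_add_right, r0, r1, r2, rk, o1, o2, o3, p1, p2, p3, hb, b1, b2, c0, c1, c2]; norm_num
  have st1 : (0 : ℤ) ≤ bf s.1 (sr t).1 := by
    rw [S0, T1]; simp only [bf_add_left, bf_add_right, r0, r1, r2, rk, o1, o2, o3, p1, p2, p3, hb, b1, b2, c0, c1, c2]; norm_num
  have st10 : (0 : ℤ) ≤ bf (sr s).1 t.1 := by
    rw [S1, T0]; simp only [bf_add_left, bf_add_right, r0, r1, r2, rk, o1, o2, o3, p1, p2, p3, hb, b1, b2, c0, c1, c2]; norm_num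
  have M1 : ∀ a b, x s a * x t b = x q (N * a * b) * x t b * x s a := by
    intro a b
    have e : x s a * x t b * (x s a)⁻¹ = x q (eps K s.1 t.1 * a * b) * x t b := h.conj_add (by rw [hq, add_comm]) a b
    rw [hN, ← e, inv_mul_cancel_right]
  have M2 : ∀ a b, x (sr s) a * x (sr t) b = x q (N * a * b) * x (sr t) b * x (sr s) a := by
    intro a b
    have e : x (sr s) a * x (sr t) b * (x (sr s) a)⁻¹ = x q (eps K (sr s).1 (sr t).1 * a * b) * x (sr t) b := h.conj_add (by rw [Q0, S1, T1]; abel) a b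
    rw [hN, ← n1, ← e, inv_mul_cancel_right]
  refine ⟨M * τ a * (E * τ (τ a) * b) + M * τ (τ a) * (E * a * τ b) + M * a * (E * τ a * τ (τ b)),
    N * b * (E * τ (τ a) * τ b) + N * b * (E * τ a * τ (τ b)) + N * τ b * (E * a * τ (τ b)), by rw [hM], ?_, ?_, ?_⟩
  · simp only [map_add, map_mul, hM1, hE1, hτ]
    ring
  · simp only [map_add, map_mul, hN1, hE1, hτ]
    ring
  · have key := ah_word2 (p0 := x p (M * τ a * (E * τ (τ a) * b))) (p1 := x p (M * τ (τ a) * (E * a * τ b))) (p2 := x p (M * a * (E * τ a * τ (τ b))))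
      (q1 := x q (N * b * (E * τ (τ a) * τ b))) (q2 := x q (N * b * (E * τ a * τ (τ b)))) (q3 := x q (N * τ b * (E * a * τ (τ b))))
      (u1 := x (sr t) (E * τ (τ a) * b)) (u2 := x (sr (sr t)) (E * τ a * b)) (v2 := x (sr (sr t)) (E * a * τ b)) (v0 := x t (E * τ (τ a) * τ b))
      (w0 := x t (E * τ a * τ (τ b))) (w1 := x (sr t) (E * a * τ (τ b))) (s0 := x s b) (s1 := x (sr s) (τ b)) (s2 := x (sr (sr s)) (τ (τ b)))
      (Commute.mul_right (Commute.mul_right (C _ _ pt1 _ _) (C _ _ pt2 _ _)) (C _ _ ps0 _ _))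
      (Commute.mul_right (Commute.mul_right (Commute.mul_right (C _ _ pt1 _ _) (C _ _ pt2 _ _)) (C _ _ ps0 _ _)) (Commute.mul_right (Commute.mul_right (C _ _ pt2 _ _) (C _ _ pt0 _ _)) (C _ _ ps1 _ _)))
      (C _ _ st2 _ _) (M1 _ _) (M1 _ _) (C _ _ st10 _ _) (M2 _ _) (C _ _ st1 _ _)
      (C _ _ qt0 _ _).symm (Commute.mul_left (Commute.mul_left (C _ _ qt0 _ _).symm (C _ _ qt0 _ _).symm) (C _ _ qs0 _ _).symm)
      (Commute.mul_right (Commute.mul_left (Commute.mul_left (C _ _ g01 _ _) (C _ _ g02 _ _)) (C _ _ g02 _ _)) (Commute.mul_left (Commute.mul_left (C _ _ g01 _ _) (C _ _ g02 _ _)) (C _ _ g02 _ _)))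
      (Commute.mul_left (C _ _ g21 _ _) (C _ _ g21 _ _))
      (by
        have L : ∀ c, Commute (x q c) (x t (E * τ (τ a) * τ b) * x t (E * τ a * τ (τ b)) * x (sr t) (E * a * τ (τ b))) := fun c =>
          Commute.mul_right (Commute.mul_right (C _ _ qt0 _ _) (C _ _ qt0 _ _)) (C _ _ qt1 _ _)
        exact Commute.mul_left (Commute.mul_left (L _) (L _)) (L _))
      (by
        have L : ∀ c, Commute (x p c) (x t (E * τ (τ a) * τ b) * x t (E * τ a * τ (τ b)) * (x (sr t) (E * τ (τ a) * b) * x (sr t) (E * a * τ (τ b))) *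
            (x (sr (sr t)) (E * τ a * b) * x (sr (sr t)) (E * a * τ b))) := fun c =>
          Commute.mul_right (Commute.mul_right (Commute.mul_right (C _ _ pt0 _ _) (C _ _ pt0 _ _)) (Commute.mul_right (C _ _ pt1 _ _) (C _ _ pt1 _ _)))
            (Commute.mul_right (C _ _ pt2 _ _) (C _ _ pt2 _ _))
        exact Commute.mul_left (Commute.mul_left (L _) (L _)) (L _))
    have l0 : yt x τ t (E * (τ a * τ (τ b) + τ (τ a) * τ b)) = x t (E * τ (τ a) * τ b) * x t (E * τ a * τ (τ b)) * (x (sr t) (E * τ (τ a) * b) * x (sr t) (E * a * τ (τ b))) *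
        (x (sr (sr t)) (E * τ a * b) * x (sr (sr t)) (E * a * τ b)) := by
      rw [yt_mov x τ htm, ← h.add, ← h.add, ← h.add]
      refine congrArg₂ (· * ·) (congrArg₂ (· * ·) (congrArg _ ?_) (congrArg _ ?_)) (congrArg _ ?_)
      · ring
      · simp only [map_add, map_mul, hE1, hτ]
        ring
      · simp only [map_add, map_mul, hE1, hτ]
        ring
    rw [l0, yt_fix x τ hpf, yt_fix x τ hqf, h.add, h.add, h.add, h.add, yt_mov x τ hs, ← key, ← G0, ← G1, ← G2]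
    group
-- END ah

end Pool.Agent.ThT2
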