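import Pool.Agent.ThT.Fil
import Pool.Agent.ThT2.Par8

/-! # 3D_4(2): the element of order 21 on the radicals of `P_α`

`K` has eight elements (`Tau τ`: fixed elements of `τ` are `0`, `1`, `τ ≠ 1`).  `w = y_α(1) y_(-α)(1) h_β(c)`.
-/

namespace Pool.Agent.ThT2

open ThT

variable {K : Type*} [Field K] {G : Type*} [Group G] {x : Root → K → G} {τ : K →+* K}

/-- `α + 3β` -/
def r3 : Root := ⟨(1, ![1, 1, 1]), by decide⟩

/-- `2α + 3β` -/
def r4 : Root := ⟨(2, ![1, 1, 1]), by decide⟩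

-- BEGIN sa
/-- MODULE sa. As `Stp.pow4` (row bb of `ThT/Fil.lean`): `t = s * (w s w⁻¹) * (w² s w⁻²)`, `t⁻¹ * (w t w⁻¹) = s⁻¹ * (w³ s w⁻³)` modulo `Q`. -/
theorem Stp.pow3 {w : G} {P Q : Subgroup G} (hQ : Q ≤ P) (h1 : ∀ v ∈ P, w * v * w⁻¹ ∈ P) (hab : ∀ a ∈ P, ∀ b ∈ P, a * b * a⁻¹ * b⁻¹ ∈ Q) (h : Stp (w ^ 3) P Q) : Stp w P Q := by
  intro g hg
  obtain ⟨s, hs, hq⟩ := h g hg
  have hs1 := h1 s hs
  have hs2 := h1 _ hs1
  obtain ⟨X, hX⟩ : ∃ X, X = (w * s * w⁻¹) * (w * (w * s * w⁻¹) * w⁻¹) := ⟨_, rfl⟩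
  have hx : X ∈ P := by
    rw [hX]
    exact P.mul_mem hs1 hs2
  refine ⟨s * X, P.mul_mem hs hx, ?_⟩
  have e1 : w * (s * X) * w⁻¹ = X * (w * (w * (w * s * w⁻¹) * w⁻¹) * w⁻¹) := by
    rw [hX]
    group
  have e4 : w ^ 3 * s * (w ^ 3)⁻¹ = w * (w * (w * s * w⁻¹) * w⁻¹) * w⁻¹ := by
    have e5 : w ^ 3 = w * w * w := by rw [pow_succ, pow_succ, pow_one]
    rw [e5]
    group
  rw [e4] at hq
  rw [e1]
  obtain ⟨s3, hs3⟩ : ∃ y, y = w * (w * (w * s * w⁻¹) * w⁻¹) * w⁻¹ := ⟨_, rfl⟩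
  rw [← hs3] at hq ⊢
  have hy : s⁻¹ * g ∈ P := P.mul_mem (P.inv_mem hs) hg
  have hc := hab X⁻¹ (P.inv_mem hx) (s⁻¹ * g) hy
  have e2 : (s * X)⁻¹ * g * (X * s3) = (X⁻¹ * (s⁻¹ * g) * X⁻¹⁻¹ * (s⁻¹ * g)⁻¹) * (s⁻¹ * g * s3) := by group
  rw [e2]
  exact Q.mul_mem hc hq
-- END sa

-- BEGIN sb
/-- MODULE sb. Char 2, `y_(±α)(1)` are involutions (`yt_add`, `h.two`), `hy x τ rb c` commutes with `yt x τ (±ra) 1`: `cy τ rb ra.1 c = (Nm τ c)⁻¹ = 1` (`hy_conj`), `y_α(1) y_(-α)(1)` has order 3: `ThT.exists_th`, `SL_2`: `up 1 * lo 1` cubed is 1 in characteristic 2.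
So `w ^ 3 = hy x τ rb (c ^ 3)`. -/
theorem w_pow3 (h : Stb K x) (T : Tau τ) {c : K} (hc : c ≠ 0) :
    (yt x τ ra 1 * yt x τ (-ra) 1 * hy x τ rb c) ^ 3 = hy x τ rb (c ^ 3) := by
  have fa : sr ra = ra := by decide
  have fna : sr (-ra) = -ra := by rw [sr_neg, fa]
  have nb : sr rb ≠ rb := by decide
  have e1 : yt x τ ra 1 = x ra 1 := yt_fix x τ fa 1
  have e2 : yt x τ (-ra) 1 = x (-ra) 1 := yt_fix x τ fna 1
  have hN : c * τ c * τ (τ c) = 1 := T.Nm_ne hc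
  have hb0 : bf rb.1 ra.1 = -1 := by decide
  have hb1 : bf (sr rb).1 ra.1 = -1 := by decide
  have hb2 : bf (sr (sr rb)).1 ra.1 = -1 := by decide
  have q1 : cy τ rb ra.1 c = 1 := by
    rw [cy, if_neg nb, hb0, hb1, hb2, zpow_neg_one, zpow_neg_one, zpow_neg_one, ← mul_inv, ← mul_inv, hN, inv_one]
  have q2 : cy τ rb (-ra).1 c = 1 := by
    rw [cy, if_neg nb, neg_val, bf_neg_right, bf_neg_right, bf_neg_right, hb0, hb1, hb2, neg_neg, zpow_one, zpow_one, zpow_one, hN]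
  have c1 : Commute (hy x τ rb c) (yt x τ ra 1) := by
    have := hy_conj h T.h3 rb ra hc (Ok.of_ne nb c) 1
    rw [q1, mul_one] at this
    exact mul_inv_eq_iff_eq_mul.1 this
  have c2 : Commute (hy x τ rb c) (yt x τ (-ra) 1) := by
    have := hy_conj h T.h3 rb (-ra) hc (Ok.of_ne nb c) 1
    rw [q2, mul_one] at this
    exact mul_inv_eq_iff_eq_mul.1 this
  have c3 : Commute (yt x τ ra 1 * yt x τ (-ra) 1) (hy x τ rb c) := (c1.mul_right c2).symm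
  rw [c3.mul_pow]
  have cube : (yt x τ ra 1 * yt x τ (-ra) 1) ^ 3 = 1 := by
    obtain ⟨t, ht⟩ := exists_th h ra
    have h1 : yt x τ ra 1 * yt x τ (-ra) 1 = t (ThG.up 1 * ThG.lo 1) := by
      rw [map_mul, ht.up, ht.lo, e1, e2, T.neg_eq]
    have h2 : (ThG.up (1 : K) * ThG.lo 1) ^ 3 = 1 := by
      have two : (1 : K) + 1 = 0 := T.add_self 1
      apply Subtype.ext
      rw [pow_succ, pow_succ, pow_one]
      ext i j
      fin_cases i <;> fin_cases j <;> simp [ThG.up, ThG.lo, two]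
    rw [h1, ← map_pow, h2, map_one]
  rw [cube, one_mul, pow_succ, pow_succ, pow_one, pow_succ, pow_succ, pow_one,
    hy_mul h rb (mul_ne_zero hc hc) hc, hy_mul h rb hc hc]
-- END sb

-- BEGIN sc
/-- the roots with `j ≤ m_0 + m_1 + m_2` -/
private def sc_p (j : ℤ) (r : Root) : Prop := j ≤ r.1.2 0 + r.1.2 1 + r.1.2 2

private theorem sc_lv {k j : ℤ} (hkj : k = 1 ∧ j = 1 ∨ k = 4 ∧ j = 2 ∨ k = 7 ∧ j = 3) (r : Root) : Lv (lw 0) (fu 0) k r ↔ sc_p j r := by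
  have e1 : lw 0 r.1 = r.1.2 0 + r.1.2 1 + r.1.2 2 := if_pos rfl
  have e2 : fu 0 r.1 = r.1.1 + 2 * (r.1.2 0 + r.1.2 1 + r.1.2 2) := if_pos rfl
  have h := all_rts (p := fun v => (1 ≤ v.1 + 2 * (v.2 0 + v.2 1 + v.2 2) ∧ 0 < v.2 0 + v.2 1 + v.2 2 ↔ 1 ≤ v.2 0 + v.2 1 + v.2 2) ∧
    (4 ≤ v.1 + 2 * (v.2 0 + v.2 1 + v.2 2) ∧ 0 < v.2 0 + v.2 1 + v.2 2 ↔ 2 ≤ v.2 0 + v.2 1 + v.2 2) ∧
    (7 ≤ v.1 + 2 * (v.2 0 + v.2 1 + v.2 2) ∧ 0 < v.2 0 + v.2 1 + v.2 2 ↔ 3 ≤ v.2 0 + v.2 1 + v.2 2)) (by decide) r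
  unfold Lv sc_p
  rw [e1, e2, and_comm]
  rcases hkj with ⟨rfl, rfl⟩ | ⟨rfl, rfl⟩ | ⟨rfl, rfl⟩
  · exact h.1
  · exact h.2.1
  · exact h.2.2

private theorem sc_eq (x : Root → K → G) (τ : K →+* K) {k j : ℤ} (hkj : k = 1 ∧ j = 1 ∨ k = 4 ∧ j = 2 ∨ k = 7 ∧ j = 3) :
    Sy x τ (Lv (lw 0) (fu 0) k) = Sy x τ (sc_p j) :=
  le_antisymm (Sy.mono x τ fun r hr => (sc_lv hkj r).1 hr) (Sy.mono x τ fun r hr => (sc_lv hkj r).2 hr)

private theorem sc_sr {j : ℤ} (s : Root) (h : sc_p j s) : sc_p j (sr s) := by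
  unfold sc_p at *
  rw [sr_val]
  show j ≤ s.1.2 2 + s.1.2 0 + s.1.2 1
  linarith

private theorem sc_add (r s t : Root) (ht : t.1 = r.1 + s.1) :
    t.1.2 0 + t.1.2 1 + t.1.2 2 = (r.1.2 0 + r.1.2 1 + r.1.2 2) + (s.1.2 0 + s.1.2 1 + s.1.2 2) := by
  rw [ht]
  simp only [Prod.snd_add, Pi.add_apply]
  ring

/-- the root elements with `m_0 + m_1 + m_2 ≥ 0` normalize -/
private theorem sc_conj (h : Stb K x) (hτ : ∀ a, τ (τ (τ a)) = a) {j : ℤ} (hj : 1 ≤ j) {r : Root} (hr : 0 ≤ r.1.2 0 + r.1.2 1 + r.1.2 2) {a : K} (ha : Ok τ r a) {g : G}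
    (hg : g ∈ Sy x τ (sc_p j)) : yt x τ r a * g * (yt x τ r a)⁻¹ ∈ Sy x τ (sc_p j) := by
  refine Sy.conj h hτ (p := sc_p j) (fun s hs => sc_sr s hs) ?_ ?_ ?_ ha hg
  · intro s t u hs ht hu
    have e := sc_add s t u hu
    unfold sc_p at *
    linarith
  · intro s hs hsr
    rw [hsr] at hs
    unfold sc_p at hs
    rw [neg_val] at hs
    simp only [Prod.snd_neg, Pi.neg_apply] at hs
    linarith
  · intro s t hs ht
    have e := sc_add r s t ht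
    unfold sc_p at *
    linarith

private theorem sc_hy (h : Stb K x) (hτ : ∀ a, τ (τ (τ a)) = a) {j : ℤ} {c : K} (hc : c ≠ 0) {g : G}
    (hg : g ∈ Sy x τ (sc_p j)) : hy x τ rb c * g * (hy x τ rb c)⁻¹ ∈ Sy x τ (sc_p j) := by
  have hb : sr rb ≠ rb := by decide
  induction hg using Subgroup.closure_induction with
  | mem g hg =>
    obtain ⟨r, a, h1, h2, rfl⟩ := hg
    rw [hy_conj h hτ rb r hc (Ok.of_ne hb c)]
    refine Sy.mem h1 ?_
    intro hr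
    rw [map_mul, h2 hr]
    congr 1
    unfold cy
    rw [if_neg hb, map_mul, map_mul, map_zpow₀, map_zpow₀, map_zpow₀, hτ]
    have e1 : bf (sr rb).1 r.1 = bf rb.1 r.1 := by
      conv_lhs => rw [← hr]
      exact bf_sr rb r
    have e2 : bf (sr (sr rb)).1 r.1 = bf rb.1 r.1 := by
      conv_lhs => rw [← hr]
      rw [bf_sr, e1]
    rw [e1, e2]
    ring
  | one => rw [mul_one, mul_inv_cancel]; exact one_mem _
  | mul a b _ _ ha hb =>
    have e : hy x τ rb c * (a * b) * (hy x τ rb c)⁻¹ = (hy x τ rb c * a * (hy x τ rb c)⁻¹) * (hy x τ rb c * b * (hy x τ rb c)⁻¹) := by group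
    rw [e]
    exact mul_mem ha hb
  | inv a _ ha =>
    have e : hy x τ rb c * a⁻¹ * (hy x τ rb c)⁻¹ = (hy x τ rb c * a * (hy x τ rb c)⁻¹)⁻¹ := by group
    rw [e]
    exact inv_mem ha

private theorem sc_w (h : Stb K x) (hτ : ∀ a, τ (τ (τ a)) = a) {j : ℤ} (hj : 1 ≤ j) {c : K} (hc : c ≠ 0) {g : G}
    (hg : g ∈ Sy x τ (sc_p j)) : (yt x τ ra 1 * yt x τ (-ra) 1 * hy x τ rb c) * g * (yt x τ ra 1 * yt x τ (-ra) 1 * hy x τ rb c)⁻¹ ∈ Sy x τ (sc_p j) := by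
  have h1 := sc_hy h hτ hc hg
  have h2 := sc_conj h hτ hj (r := -ra) (by decide) (a := (1 : K)) (fun _ => map_one τ) h1
  have h3 := sc_conj h hτ hj (r := ra) (by decide) (a := (1 : K)) (fun _ => map_one τ) h2
  have e : (yt x τ ra 1 * yt x τ (-ra) 1 * hy x τ rb c) * g * (yt x τ ra 1 * yt x τ (-ra) 1 * hy x τ rb c)⁻¹ =
      yt x τ ra 1 * (yt x τ (-ra) 1 * (hy x τ rb c * g * (hy x τ rb c)⁻¹) * (yt x τ (-ra) 1)⁻¹) * (yt x τ ra 1)⁻¹ := by group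
  rw [e]
  exact h3

private theorem sc_clo {G : Type*} [Group G] {S : Set G} {Q : Subgroup G} (hn : ∀ s ∈ Subgroup.closure S, ∀ q ∈ Q, s * q * s⁻¹ ∈ Q)
    (hs : ∀ s ∈ S, ∀ t ∈ S, s * t * s⁻¹ * t⁻¹ ∈ Q) {a b : G} (ha : a ∈ Subgroup.closure S) (hb : b ∈ Subgroup.closure S) : a * b * a⁻¹ * b⁻¹ ∈ Q := by
  have h1 : ∀ s ∈ S, ∀ b ∈ Subgroup.closure S, s * b * s⁻¹ * b⁻¹ ∈ Q := by
    intro s hsS b hb
    induction hb using Subgroup.closure_induction with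
    | mem t ht => exact hs s hsS t ht
    | one =>
      have e : s * 1 * s⁻¹ * 1⁻¹ = 1 := by group
      rw [e]
      exact one_mem _
    | mul b1 b2 m1 m2 i1 i2 =>
      have e : s * (b1 * b2) * s⁻¹ * (b1 * b2)⁻¹ = (s * b1 * s⁻¹ * b1⁻¹) * (b1 * (s * b2 * s⁻¹ * b2⁻¹) * b1⁻¹) := by group
      rw [e]
      exact mul_mem i1 (hn b1 m1 _ i2)
    | inv b1 m1 i1 =>
      have e : s * b1⁻¹ * s⁻¹ * b1⁻¹⁻¹ = b1⁻¹ * (s * b1 * s⁻¹ * b1⁻¹)⁻¹ * b1⁻¹⁻¹ := by group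
      rw [e]
      exact hn _ (inv_mem m1) _ (inv_mem i1)
  induction ha using Subgroup.closure_induction with
  | mem s hsS => exact h1 s hsS b hb
  | one =>
    have e : 1 * b * 1⁻¹ * b⁻¹ = 1 := by group
    rw [e]
    exact one_mem _
  | mul a1 a2 m1 m2 i1 i2 =>
    have e : a1 * a2 * b * (a1 * a2)⁻¹ * b⁻¹ = (a1 * (a2 * b * a2⁻¹ * b⁻¹) * a1⁻¹) * (a1 * b * a1⁻¹ * b⁻¹) := by group
    rw [e]
    exact mul_mem (hn a1 m1 _ i2) i1
  | inv a1 m1 i1 =>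
    have e : a1⁻¹ * b * a1⁻¹⁻¹ * b⁻¹ = a1⁻¹ * (a1 * b * a1⁻¹ * b⁻¹)⁻¹ * a1⁻¹⁻¹ := by group
    rw [e]
    exact hn _ (inv_mem m1) _ (inv_mem i1)

private theorem sc_cm {i j : ℤ} (hi : 0 ≤ i) (hij : i ≤ j) {r s t : Root} (hr : i ≤ r.1.2 0 + r.1.2 1 + r.1.2 2) (hs : j ≤ s.1.2 0 + s.1.2 1 + s.1.2 2) (ht : Cm r s t) :
    i + j ≤ t.1.2 0 + t.1.2 1 + t.1.2 2 := by
  have hsg : ∀ (n : ℕ) (v : Vec), (sg^[n] v).2 0 + (sg^[n] v).2 1 + (sg^[n] v).2 2 = v.2 0 + v.2 1 + v.2 2 := by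
    intro n
    induction n with
    | zero => intro v; rfl
    | succ n ih =>
      intro v
      rw [Function.iterate_succ_apply, ih]
      show v.2 2 + v.2 0 + v.2 1 = _
      ring
  have hadd : ∀ u v w : Vec, u = v + w → u.2 0 + u.2 1 + u.2 2 = (v.2 0 + v.2 1 + v.2 2) + (w.2 0 + w.2 1 + w.2 2) := by
    intro u v w hu
    rw [hu]
    simp only [Prod.snd_add, Pi.add_apply]
    ring
  induction ht with
  | base a b t h =>
    have e := hadd _ _ _ h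
    rw [hsg, hsg] at e
    linarith
  | left a t u h _ ih =>
    have e := hadd _ _ _ h
    rw [hsg] at e
    linarith
  | right a t u h _ ih =>
    have e := hadd _ _ _ h
    rw [hsg] at e
    linarith

private theorem sc_ab (h : Stb K x) (hτ : ∀ a, τ (τ (τ a)) = a) {i : ℤ} (hi : 1 ≤ i) {a b : G} (ha : a ∈ Sy x τ (sc_p i)) (hb : b ∈ Sy x τ (sc_p i)) :
    a * b * a⁻¹ * b⁻¹ ∈ Sy x τ (sc_p (i + 1)) := by
  refine sc_clo ?_ ?_ ha hb
  · intro s hs q hq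
    refine Sy.conj_all h (p := sc_p (i + 1)) (q := sc_p i) ?_ hs hq
    intro r hr a ha g hg
    exact sc_conj h hτ (by linarith) (by unfold sc_p at hr; linarith) ha hg
  · rintro s ⟨r1, a1, h1, h2, rfl⟩ t ⟨r2, a2, h3, h4, rfl⟩
    have hpos : ∀ r : Root, sc_p i r → sc_p i (sr r) := fun r hr => sc_sr r hr
    have hne : ∀ r s : Root, sc_p i r → sc_p i s → s ≠ -r := by
      intro r s hr hs he
      rw [he] at hs
      unfold sc_p at hr hs
      rw [neg_val] at hs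
      simp only [Prod.snd_neg, Pi.neg_apply] at hs
      linarith
    refine Sy.comm_gen h hτ ⟨hne _ _ h1 h3, hne _ _ (hpos _ h1) h3, hne _ _ (hpos _ (hpos _ h1)) h3⟩ ?_ h2 h4
    intro t ht
    have e := sc_cm (i := i) (j := i) (by linarith) le_rfl (r := r1) (s := r2) (t := t) h1 h3 ht
    unfold sc_p
    linarith

private theorem sc_cube (T : Tau τ) {c : K} (hc : c ≠ 0) (hc1 : c ≠ 1) : c ^ 3 ≠ 1 := by
  intro h3
  have h1 : c ^ 2 + c + 1 = 0 := by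
    have e : (c - 1) * (c ^ 2 + c + 1) = 0 := by linear_combination h3
    rcases mul_eq_zero.1 e with e | e
    · exact absurd (by linear_combination e) hc1
    · exact e
  have h2 : τ c ^ 2 + τ c + 1 = 0 := by
    have e := congrArg τ h1
    rw [map_add, map_add, map_pow, map_one, map_zero] at e
    exact e
  have h4 : (τ c - c) * (τ c + c + 1) = 0 := by linear_combination h2 - h1
  have hfix : τ c = c → False := by
    intro he
    rcases T.fix c he with e | e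
    · exact hc e
    · exact hc1 e
  rcases mul_eq_zero.1 h4 with e | e
  · exact hfix (by linear_combination e)
  · have e1 : τ c = -c - 1 := by linear_combination e
    have e2 : τ (τ c) = c := by
      rw [e1, map_sub, map_neg, map_one, e1]
      ring
    have e3 := T.h3 c
    rw [e2] at e3
    exact hfix e3

private theorem sc_cy (T : Tau τ) {c : K} (hc : c ≠ 0) (hc1 : c ≠ 1) (ρ : Root) (h1 : 0 < lw 0 ρ.1) (h2 : fu 0 ρ.1 < 7) : cy τ rb ρ.1 c ≠ 1 := by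
  have hb : sr rb ≠ rb := by decide
  have hN : c * τ c * τ (τ c) = 1 := T.Nm_ne hc
  have hc' : τ c ≠ 0 := (map_ne_zero τ).2 hc
  have hc'' : τ (τ c) ≠ 0 := (map_ne_zero τ).2 hc'
  have h2c : (2 : K) = 0 := T.two
  have sq : ∀ d : K, d ^ 2 = 1 → d = 1 := by
    intro d hd
    have e : (d - 1) ^ 2 = 0 := by linear_combination hd + (1 - d) * h2c
    have e1 := pow_eq_zero_iff (two_ne_zero) |>.1 e
    linear_combination e1
  have n0 : c ^ 2 ≠ 1 := fun e => hc1 (sq c e)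
  have n1 : τ c ^ 2 ≠ 1 := by
    intro e
    have e1 := sq _ e
    rw [← map_one τ] at e1
    exact hc1 (τ.injective e1)
  have n2 : τ (τ c) ^ 2 ≠ 1 := by
    intro e
    have e1 := sq _ e
    rw [← map_one τ] at e1
    have e2 := τ.injective e1
    rw [← map_one τ] at e2
    exact hc1 (τ.injective e2)
  have hlist := all_rts (p := fun v => 0 < v.2 0 + v.2 1 + v.2 2 → v.1 + 2 * (v.2 0 + v.2 1 + v.2 2) < 7 →
    (bf rb.1 v, bf (sr rb).1 v, bf (sr (sr rb)).1 v) ∈ ([(2, 0, 0), (0, 2, 0), (0, 0, 2), (1, -1, -1), (-1, 1, -1), (-1, -1, 1), (1, 1, -1), (1, -1, 1), (-1, 1, 1)] : List (ℤ × ℤ × ℤ))) (by decide) ρ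
  have e1 : lw 0 ρ.1 = ρ.1.2 0 + ρ.1.2 1 + ρ.1.2 2 := if_pos rfl
  have e2 : fu 0 ρ.1 = ρ.1.1 + 2 * (ρ.1.2 0 + ρ.1.2 1 + ρ.1.2 2) := if_pos rfl
  have hm := hlist (by rw [← e1]; exact h1) (by rw [← e2]; exact h2)
  unfold cy
  rw [if_neg hb]
  simp only [List.mem_cons, Prod.mk.injEq, List.not_mem_nil, or_false] at hm
  intro hcon
  rcases hm with ⟨m0, m1, m2⟩ | ⟨m0, m1, m2⟩ | ⟨m0, m1, m2⟩ | ⟨m0, m1, m2⟩ | ⟨m0, m1, m2⟩ | ⟨m0, m1, m2⟩ | ⟨m0, m1, m2⟩ | ⟨m0, m1, m2⟩ | ⟨m0, m1, m2⟩ <;>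
    rw [m0, m1, m2] at hcon
  · apply n0
    rw [zpow_zero, zpow_zero, mul_one, mul_one] at hcon
    exact_mod_cast hcon
  · apply n1
    rw [zpow_zero, zpow_zero, one_mul, mul_one] at hcon
    exact_mod_cast hcon
  · apply n2
    rw [zpow_zero, zpow_zero, one_mul, one_mul] at hcon
    exact_mod_cast hcon
  · apply n0
    rw [zpow_one, zpow_neg_one, zpow_neg_one] at hcon
    field_simp at hcon
    linear_combination c * hcon + hN
  · apply n1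
    rw [zpow_one, zpow_neg_one, zpow_neg_one] at hcon
    field_simp at hcon
    linear_combination τ c * hcon + hN
  · apply n2
    rw [zpow_one, zpow_neg_one, zpow_neg_one] at hcon
    field_simp at hcon
    linear_combination τ (τ c) * hcon + hN
  · apply n2
    rw [zpow_one, zpow_neg_one, zpow_one] at hcon
    field_simp at hcon
    linear_combination -τ (τ c) * hcon + hN
  · apply n1
    rw [zpow_one, zpow_neg_one, zpow_one] at hcon
    field_simp at hcon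
    linear_combination -τ c * hcon + hN
  · apply n0
    rw [zpow_one, zpow_neg_one, zpow_one] at hcon
    field_simp at hcon
    linear_combination -c * hcon + hN

private theorem sc_step (h : Stb K x) (T : Tau τ) {c : K} (hc : c ≠ 0) (hc1 : c ≠ 1) {k : ℤ} (hk : k < 7) :
    Stp (hy x τ rb c) (Sy x τ (Lv (lw 0) (fu 0) k)) (Sy x τ (Lv (lw 0) (fu 0) (k + 1))) := by
  have hb : sr rb ≠ rb := by decide
  have hτ := T.h3
  refine Lv_step h hτ (Lf_U 0) ?_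
  intro ρ h1 h2
  refine ⟨cy τ rb ρ.1 c, sc_cy T hc hc1 ρ h1 (by rw [h2]; exact hk), ?_, ?_⟩
  · intro hr
    unfold cy
    rw [if_neg hb, map_mul, map_mul, map_zpow₀, map_zpow₀, map_zpow₀, hτ]
    have e1 : bf (sr rb).1 ρ.1 = bf rb.1 ρ.1 := by
      conv_lhs => rw [← hr]
      exact bf_sr rb ρ
    have e2 : bf (sr (sr rb)).1 ρ.1 = bf rb.1 ρ.1 := by
      conv_lhs => rw [← hr]
      rw [bf_sr, e1]
    rw [e1, e2]
    ring
  · intro b hb'
    exact ⟨1, one_mem _, by rw [mul_one]; exact hy_conj h hτ rb ρ hc (Ok.of_ne hb c) b⟩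

/-- MODULE sc. THE SHORT SECTIONS.  `P = Sy x τ (Lv (lw 0) (fu 0) 1)`, levels: `β` 2, `α+β` 3, `α+2β` 5, `α+3β` 7, `2α+3β` 8.  `Stp w (Lv 1) (Lv 4)` and `Stp w (Lv 4) (Lv 7)` by `Stp.pow3` and `Lv_chain` / `Lv_step` for `w ^ 3 = hy x τ rb (c ^ 3)` (`e = cy τ rb ρ.1 (c ^ 3) /= 1` for the roots of levels 2, 3, 5: `β`: `(c^3)^2`,
`α+β`: `c'^2 (c' τ c' τ τ c')⁻¹ = c'^2`, `α+2β`: `c'^(-1) τ c' τ τ c' = c'^(-2)`, with `c' = c ^ 3`, `Nm c' = 1`; `c ^ 3 ≠ 1` because `c ^ 7 = 1`); `w` normalizes `Lv k` (`k = 1, 4, 7`): `Sy.conj` / `Lv_conj` for `y_α(1)`; for `y_(-α)(1)` and `Lv 4`, `Lv 7` the roots are all roots with `m_0 + m_1 + m_2 ≥ 2`, resp. `≥ 3`: `Sy.conj` with that predicate. -/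
theorem sur_short (h : Stb K x) (T : Tau τ) [Finite K] {c : K} (hc : c ≠ 0) (hc1 : c ≠ 1) :
    Stp (yt x τ ra 1 * yt x τ (-ra) 1 * hy x τ rb c) (Sy x τ (Pi' 0)) (Sy x τ (Lv (lw 0) (fu 0) 7)) := by
  have hτ := T.h3
  have hc3 : c ^ 3 ≠ 0 := pow_ne_zero 3 hc
  have hc31 : c ^ 3 ≠ 1 := sc_cube T hc hc1
  have q1 := sc_eq x τ (k := 1) (j := 1) (Or.inl ⟨rfl, rfl⟩)
  have q4 := sc_eq x τ (k := 4) (j := 2) (Or.inr (Or.inl ⟨rfl, rfl⟩))
  have q7 := sc_eq x τ (k := 7) (j := 3) (Or.inr (Or.inr ⟨rfl, rfl⟩))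
  have s1 : Stp (yt x τ ra 1 * yt x τ (-ra) 1 * hy x τ rb c) (Sy x τ (Lv (lw 0) (fu 0) 1)) (Sy x τ (Lv (lw 0) (fu 0) 4)) := by
    refine Stp.pow3 (Lv_anti x τ _ _ (by norm_num)) ?_ ?_ ?_
    · intro v hv
      rw [q1] at hv ⊢
      exact sc_w h hτ (j := 1) le_rfl hc hv
    · intro a ha b hb
      rw [q1] at ha hb
      rw [q4, show (2 : ℤ) = 1 + 1 from rfl]
      exact sc_ab h hτ (i := 1) le_rfl ha hb
    · rw [w_pow3 h T hc]
      exact Lv_chain (by norm_num) fun k h1 h2 => sc_step h T hc3 hc31 (by linarith)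
  have s2 : Stp (yt x τ ra 1 * yt x τ (-ra) 1 * hy x τ rb c) (Sy x τ (Lv (lw 0) (fu 0) 4)) (Sy x τ (Lv (lw 0) (fu 0) 7)) := by
    refine Stp.pow3 (Lv_anti x τ _ _ (by norm_num)) ?_ ?_ ?_
    · intro v hv
      rw [q4] at hv ⊢
      exact sc_w h hτ (j := 2) one_le_two hc hv
    · intro a ha b hb
      rw [q4] at ha hb
      rw [q7, show (3 : ℤ) = 2 + 1 from rfl]
      exact sc_ab h hτ (i := 2) one_le_two ha hb
    · rw [w_pow3 h T hc]
      exact Lv_chain (by norm_num) fun k h1 h2 => sc_step h T hc3 hc31 (by linarith)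
  rw [U_eq x τ 0]
  exact Stp.trans (Lv_anti x τ _ _ (by norm_num)) s1 s2
-- END sc

-- BEGIN sd
private theorem sd_form (h : Stb K x) (hτ : ∀ a, τ (τ (τ a)) = a) {g : G} (hg : g ∈ Sy x τ (Lv (lw 0) (fu 0) 7)) :
    ∃ a b : K, τ a = a ∧ τ b = b ∧ g = x r3 a * x r4 b := by
  have f3 : sr r3 = r3 := by decide
  have f4 : sr r4 = r4 := by decide
  obtain ⟨a, ha, g', hg', rfl⟩ := Lv_split h hτ (Lf_U 0) (k := 7) (ρ := r3) (by decide) (by decide) hg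
  obtain ⟨b, hb, g'', hg'', rfl⟩ := Lv_split h hτ (Lf_U 0) (k := 8) (ρ := r4) (by decide) (by decide) (show g' ∈ Sy x τ (Lv (lw 0) (fu 0) 8) from hg')
  have h1 : g'' ∈ Sy x τ (Lv (lw 0) (fu 0) 9) := hg''
  rw [Lv_top x τ (Lf_U 0), Subgroup.mem_bot] at h1
  refine ⟨a, b, ha f3, hb f4, ?_⟩
  rw [h1, mul_one, yt_fix x τ f3, yt_fix x τ f4]

/-- MODULE sd. THE LONG SECTION: `Sy x τ (Lv (lw 0) (fu 0) 7)` = the elements `x r3 a * x r4 b` with `a, b ∈ {0, 1}` (commuting involutions), `hy x τ rb c` commutes with them, `y_α(1)`: `r3 ↦ r3 r4`, `r4 ↦ r4`; `y_(-α)(1)`: `r4 ↦ r4 r3`, `r3 ↦ r3`: no fixed vector; for each of the four `g` exhibit `t`. -/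
theorem sur_long (h : Stb K x) (T : Tau τ) {c : K} (hc : c ≠ 0) :
    Stp (yt x τ ra 1 * yt x τ (-ra) 1 * hy x τ rb c) (Sy x τ (Lv (lw 0) (fu 0) 7)) ⊥ := by
  have hτ := T.h3
  have h2 : (2 : K) = 0 := T.two
  have f3 : sr r3 = r3 := by decide
  have f4 : sr r4 = r4 := by decide
  have fa : sr ra = ra := by decide
  have fa' : sr (-ra) = -ra := by decide
  have hb : sr rb ≠ rb := by decide
  have hN : c * τ c * τ (τ c) = 1 := T.Nm_ne hc
  have m3 : ∀ a, τ a = a → x r3 a ∈ Sy x τ (Lv (lw 0) (fu 0) 7) := by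
    intro a ha
    rw [← yt_fix x τ f3]
    exact Sy.mem ⟨by decide, by decide⟩ (fun _ => ha)
  have m4 : ∀ a, τ a = a → x r4 a ∈ Sy x τ (Lv (lw 0) (fu 0) 7) := by
    intro a ha
    rw [← yt_fix x τ f4]
    exact Sy.mem ⟨by decide, by decide⟩ (fun _ => ha)
  have c3 : ∀ a, hy x τ rb c * x r3 a * (hy x τ rb c)⁻¹ = x r3 a := by
    intro a
    have e := hy_conj h hτ rb r3 hc (Ok.of_ne hb c) a
    rw [yt_fix x τ f3, yt_fix x τ f3] at e
    rw [e]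
    congr 1
    unfold cy
    rw [if_neg hb, show bf rb.1 r3.1 = 1 by decide, show bf (sr rb).1 r3.1 = 1 by decide, show bf (sr (sr rb)).1 r3.1 = 1 by decide, zpow_one, zpow_one, zpow_one, hN, one_mul]
  have c4 : ∀ a, hy x τ rb c * x r4 a * (hy x τ rb c)⁻¹ = x r4 a := by
    intro a
    have e := hy_conj h hτ rb r4 hc (Ok.of_ne hb c) a
    rw [yt_fix x τ f4, yt_fix x τ f4] at e
    rw [e]
    congr 1
    unfold cy
    rw [if_neg hb, show bf rb.1 r4.1 = 0 by decide, show bf (sr rb).1 r4.1 = 0 by decide, show bf (sr (sr rb)).1 r4.1 = 0 by decide, zpow_zero, zpow_zero, zpow_zero, one_mul, one_mul, one_mul]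
  have sgn : ∀ (v w : Vec), (ep K v w : K) = 1 := by
    intro v w
    unfold ep
    rcases Int.even_or_odd (bl v w) with h1 | h1
    · rw [h1.neg_one_zpow, Units.val_one]
    · rw [h1.neg_one_zpow, Units.val_neg, Units.val_one]
      linear_combination -h2
  have n4 : ∀ b, x (-ra) 1 * x r4 b * (x (-ra) 1)⁻¹ = x r3 b * x r4 b := by
    intro b
    rw [h.conj_add (r := -ra) (s := r4) (t := r3) (by decide) 1 b, sgn, one_mul, one_mul]
  have n3 : ∀ a, x (-ra) 1 * x r3 a * (x (-ra) 1)⁻¹ = x r3 a := by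
    intro a
    have e : x (-ra) 1 * x r3 a = x r3 a * x (-ra) 1 := h.commute (by decide) 1 a
    rw [e, mul_inv_cancel_right]
  have p3 : ∀ a, x ra 1 * x r3 a * (x ra 1)⁻¹ = x r4 a * x r3 a := by
    intro a
    rw [h.conj_add (r := ra) (s := r3) (t := r4) (by decide) 1 a, sgn, one_mul, one_mul]
  have p4 : ∀ b, x ra 1 * x r4 b * (x ra 1)⁻¹ = x r4 b := by
    intro b
    have e : x ra 1 * x r4 b = x r4 b * x ra 1 := h.commute (by decide) 1 b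
    rw [e, mul_inv_cancel_right]
  have k34 : ∀ a b, x r3 a * x r4 b = x r4 b * x r3 a := fun a b => h.commute (by decide) a b
  intro g hg
  obtain ⟨g1, g2, h1, h2', rfl⟩ := sd_form h hτ hg
  refine ⟨x r3 (g1 + g2) * x r4 g1, mul_mem (m3 _ (by rw [map_add, h1, h2'])) (m4 _ h1), ?_⟩
  have hw : (yt x τ ra 1 * yt x τ (-ra) 1 * hy x τ rb c) * (x r3 (g1 + g2) * x r4 g1) * (yt x τ ra 1 * yt x τ (-ra) 1 * hy x τ rb c)⁻¹ =
      x r3 (g1 + g2 + g1) * x r4 (g1 + g2 + g1 + g1) := by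
    rw [yt_fix x τ fa, yt_fix x τ fa']
    calc (x ra 1 * x (-ra) 1 * hy x τ rb c) * (x r3 (g1 + g2) * x r4 g1) * (x ra 1 * x (-ra) 1 * hy x τ rb c)⁻¹
        = x ra 1 * (x (-ra) 1 * ((hy x τ rb c * x r3 (g1 + g2) * (hy x τ rb c)⁻¹) * (hy x τ rb c * x r4 g1 * (hy x τ rb c)⁻¹)) * (x (-ra) 1)⁻¹) * (x ra 1)⁻¹ := by group
      _ = x ra 1 * (x (-ra) 1 * (x r3 (g1 + g2) * x r4 g1) * (x (-ra) 1)⁻¹) * (x ra 1)⁻¹ := by rw [c3, c4]
      _ = x ra 1 * ((x (-ra) 1 * x r3 (g1 + g2) * (x (-ra) 1)⁻¹) * (x (-ra) 1 * x r4 g1 * (x (-ra) 1)⁻¹)) * (x ra 1)⁻¹ := by group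
      _ = x ra 1 * (x r3 (g1 + g2) * (x r3 g1 * x r4 g1)) * (x ra 1)⁻¹ := by rw [n3, n4]
      _ = x ra 1 * (x r3 (g1 + g2 + g1) * x r4 g1) * (x ra 1)⁻¹ := by rw [← mul_assoc (x r3 (g1 + g2)), ← h.add]
      _ = (x ra 1 * x r3 (g1 + g2 + g1) * (x ra 1)⁻¹) * (x ra 1 * x r4 g1 * (x ra 1)⁻¹) := by group
      _ = (x r4 (g1 + g2 + g1) * x r3 (g1 + g2 + g1)) * x r4 g1 := by rw [p3, p4]
      _ = x r3 (g1 + g2 + g1) * (x r4 (g1 + g2 + g1) * x r4 g1) := by rw [← k34, mul_assoc]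
      _ = _ := by rw [← h.add]
  rw [Subgroup.mem_bot, hw]
  have e1 : g1 + g2 + g1 = g2 := by linear_combination g1 * h2
  have e2 : g2 + g1 = g1 + g2 := add_comm _ _
  rw [e1, e2, mul_inv_rev, h.inv, h.inv]
  calc x r4 (-g1) * x r3 (-(g1 + g2)) * (x r3 g1 * x r4 g2) * (x r3 g2 * x r4 (g1 + g2))
      = x r4 (-g1) * x r3 (-(g1 + g2)) * x r3 g1 * (x r4 g2 * x r3 g2) * x r4 (g1 + g2) := by group
    _ = x r4 (-g1) * x r3 (-(g1 + g2)) * x r3 g1 * (x r3 g2 * x r4 g2) * x r4 (g1 + g2) := by rw [k34]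
    _ = x r4 (-g1) * (x r3 (-(g1 + g2)) * x r3 g1 * x r3 g2) * (x r4 g2 * x r4 (g1 + g2)) := by group
    _ = x r4 (-g1) * x r3 0 * x r4 (g2 + (g1 + g2)) := by
        rw [← h.add, ← h.add, ← h.add, show -(g1 + g2) + g1 + g2 = 0 by ring]
    _ = 1 := by
        rw [h.zero, mul_one, ← h.add, show -g1 + (g2 + (g1 + g2)) = 0 by linear_combination g2 * h2, h.zero]
-- END sd

-- BEGIN se
private theorem se_le (x : Root → K → G) (τ : K →+* K) : Sy x τ (Lv (lw 0) (fu 0) 7) ≤ Sy x τ (Pi' 0) := by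
  rw [U_eq x τ 0]
  exact Lv_anti x τ (lw 0) (fu 0) (by norm_num)

/-- MODULE se. `sur_short`, `sur_long`, `Stp.trans`. -/
theorem surU8 (h : Stb K x) (T : Tau τ) [Finite K] {c : K} (hc : c ≠ 0) (hc1 : c ≠ 1) :
    Stp (yt x τ ra 1 * yt x τ (-ra) 1 * hy x τ rb c) (Sy x τ (Pi' 0)) ⊥ :=
  Stp.trans (se_le x τ) (sur_short h T hc hc1) (sur_long h T hc)

/-- the opposite radical: `surU8` for `op x` (`h.op`): `yt (op x) τ r = yt x τ (-r)`, `hy (op x) τ rb c = hy x τ rb c⁻¹` (`hh_neg`, `hh_inv`); the element is `y_(-α)(1) y_α(1) h_β(c)⁻¹`, i.e. apply it with `c⁻¹` and conjugate by `y_α(1)` (`Stp.conj`; `y_α(1)` normalizes `Sy (op x) τ (Pi' 0)`). -/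
theorem surV8 (h : Stb K x) (T : Tau τ) [Finite K] {c : K} (hc : c ≠ 0) (hc1 : c ≠ 1) :
    Stp (yt x τ ra 1 * yt x τ (-ra) 1 * hy x τ rb c) (Sy (op x) τ (Pi' 0)) ⊥ := by
  have hr : sr rb ≠ rb := by decide
  have hra : sr ra = ra := by decide
  have ho : ∀ b : K, τ b = b → Ok τ (sn 0) b := fun b hb _ => hb
  -- the torus element of the opposite system
  have e1 : hy (op x) τ rb c⁻¹ = hy x τ rb c := by
    have e : ∀ r : Root, ∀ b : K, b ≠ 0 → hh (op x) r b⁻¹ = hh x r b := by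
      intro r b hb
      have h1 := hh_neg h.op (-r) (inv_ne_zero (inv_ne_zero hb))
      have h2 : hh (op x) (-r) b⁻¹⁻¹ = hh x r b := by
        unfold hh nn op
        rw [neg_neg', inv_inv]
      rw [inv_inv, neg_neg'] at h1
      have h3 := hh_neg h.op r hb
      rw [← h3, ← h2, inv_inv]
    unfold hy
    rw [if_neg hr, if_neg hr, map_inv₀, map_inv₀, e rb c hc, e (sr rb) (τ c) ((map_ne_zero τ).mpr hc), e (sr (sr rb)) (τ (τ c)) ((map_ne_zero τ).mpr ((map_ne_zero τ).mpr hc))]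
  have h1 := surU8 (x := op x) h.op T (c := c⁻¹) (inv_ne_zero hc) (fun e => hc1 (by rwa [inv_eq_one] at e))
  rw [yt_op, yt_op, neg_neg', e1] at h1
  -- commutation
  have e2 : yt x τ ra 1 * hy x τ rb c = hy x τ rb c * yt x τ ra 1 := by
    have k1 := hy_conj h T.h3 rb ra hc (Ok.of_ne hr c) 1
    have k2 : cy τ rb ra.1 c = 1 := by
      have hN : c * τ c * τ (τ c) = 1 := T.Nm_ne hc
      have b0 : bf rb.1 ra.1 = -1 := by decide
      have b1 : bf (sr rb).1 ra.1 = -1 := by decide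
      have b2 : bf (sr (sr rb)).1 ra.1 = -1 := by decide
      unfold cy
      rw [if_neg hr, b0, b1, b2, ← mul_zpow, ← mul_zpow, hN, one_zpow]
    rw [k2, mul_one] at k1
    exact (mul_inv_eq_iff_eq_mul.mp k1).symm
  have hn : ∀ b : K, τ b = b → ∀ v ∈ Sy (op x) τ (Pi' 0), yt x τ ra b * v * (yt x τ ra b)⁻¹ ∈ Sy (op x) τ (Pi' 0) := by
    intro b hb v hv
    have h2 := Pi_lo h.op T.h3 0 (ho b hb) hv
    rw [yt_op, neg_neg'] at h2
    exact h2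
  have h2 := Stp.conj (c := yt x τ ra 1) (hn 1 (map_one τ)) (fun v hv => by
    have h3 := hn (-1) (by rw [map_neg, map_one]) v hv
    rwa [← yt_inv h, inv_inv] at h3) (fun v hv => by
    rw [Subgroup.mem_bot] at hv ⊢
    rw [hv, mul_one, mul_inv_cancel]) h1
  have e3 : yt x τ ra 1 * (yt x τ (-ra) 1 * yt x τ ra 1 * hy x τ rb c) * (yt x τ ra 1)⁻¹ = yt x τ ra 1 * yt x τ (-ra) 1 * hy x τ rb c := by
    rw [mul_assoc (yt x τ (-ra) 1), e2]
    group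
  rwa [e3] at h2
-- END se

-- BEGIN sf
private def sf_rho (i j : Fin 3) : Root :=
  if i = 0 ∧ j = 1 then ra else if i = 1 ∧ j = 0 then -ra else if i = 1 ∧ j = 2 then r3 else if i = 2 ∧ j = 1 then -r3 else if i = 0 ∧ j = 2 then r4 else if i = 2 ∧ j = 0 then -r4 else ra

private def sf_M (c g z a k y : ZMod 2) : Matrix (Fin 3) (Fin 3) (ZMod 2) :=
  !![1, a, a * k + y; c, c * a + 1, c * (a * k + y) + k; z, z * a + g, z * (a * k + y) + g * k + 1]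

private theorem sf_el {F : Type*} [Field F] (i j : Fin 3) (h : i ≠ j) (t : F) : (ThK.el F i j t : Matrix.SpecialLinearGroup (Fin 3) F).1 = Matrix.transvection i j t := by
  have h1 : (ThK.el F i j t : Matrix.SpecialLinearGroup (Fin 3) F) = ⟨Matrix.transvection i j t, Matrix.det_transvection_of_ne i j h t⟩ := dif_pos h
  exact congrArg Subtype.val h1

private theorem sf_mul {F : Type*} [Field F] (A B : Matrix.SpecialLinearGroup (Fin 3) F) : (A * B).1 = A.1 * B.1 := rfl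

private theorem sf_prod (c g z a k y : ZMod 2) :
    (ThK.el (ZMod 2) (1 : Fin 3) 0 c * ThK.el (ZMod 2) 2 1 g * ThK.el (ZMod 2) 2 0 z * (ThK.el (ZMod 2) 0 1 a * ThK.el (ZMod 2) 1 2 k * ThK.el (ZMod 2) 0 2 y) : Matrix.SpecialLinearGroup (Fin 3) (ZMod 2)).1 = sf_M c g z a k y := by
  simp only [sf_mul]
  rw [sf_el _ _ (by decide), sf_el _ _ (by decide), sf_el _ _ (by decide), sf_el _ _ (by decide), sf_el _ _ (by decide), sf_el _ _ (by decide)]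
  ext i j
  fin_cases i <;> fin_cases j <;>
    simp [sf_M, Matrix.transvection, Matrix.mul_apply, Fin.sum_univ_three, Matrix.single_apply, Matrix.one_apply] <;> first | ring1 | (left; ring1)

private theorem sf_dec : ∀ c g z a k y : ZMod 2, c + g + a + k = 0 ∨
    (c + (g + z) + a + k = 0 ∧ Matrix.transvection 0 1 1 * sf_M c g z a k y = sf_M c (g + z) z a k (y + k) * Matrix.transvection 0 1 1) ∨
    ((c + z) + g + a + k = 0 ∧ Matrix.transvection 1 2 1 * sf_M c g z a k y = sf_M (c + z) g z a k (y + a) * Matrix.transvection 1 2 1) ∨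
    (c + g + a + (k + y) = 0 ∧ Matrix.transvection 1 0 1 * sf_M c g z a k y = sf_M c g (z + g) a (k + y) y * Matrix.transvection 1 0 1) ∨
    (c + g + (a + y) + k = 0 ∧ Matrix.transvection 2 1 1 * sf_M c g z a k y = sf_M c g (z + c) (a + y) k y * Matrix.transvection 2 1 1) ∨
    (c + g + (a + g) + (k + c) = 0 ∧ Matrix.transvection 0 2 1 * sf_M c g z a k y = sf_M c g z (a + g) (k + c) (y + a * c) * Matrix.transvection 0 2 1) ∨
    ((c + k) + (g + a) + a + k = 0 ∧ Matrix.transvection 2 0 1 * sf_M c g z a k y = sf_M (c + k) (g + a) (z + g * k) a k y * Matrix.transvection 2 0 1) := by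
  decide +kernel

private theorem sf_gm (h : Stb K x) (T : Tau τ) : ∃ (φ : ZMod 2 →+* K) (F : Matrix.SpecialLinearGroup (Fin 3) (ZMod 2) →* G),
    ∀ i j, i ≠ j → ∀ t, F (ThK.el (ZMod 2) i j t) = x (sf_rho i j) (φ t) := by
  have h2 : (2 : K) = 0 := T.two
  have : CharP K 2 := CharTwo.of_one_ne_zero_of_two_eq_zero one_ne_zero h2
  have hn : (-1 : K) = 1 := T.neg_eq 1
  have hu : (-1 : Kˣ) = 1 := Units.ext (by rw [Units.val_neg, Units.val_one]; exact hn)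
  have hep : ∀ v w : Vec, (ep K v w : K) = 1 := by
    intro v w
    unfold ep
    rw [hu, one_zpow, Units.val_one]
  have hS := StA_of h (k := 3) sf_rho (fun _ _ => 1) (by decide) (by decide) (by decide)
    (fun i j => one_mul 1) (fun i j _ => hn.symm) (fun i j l _ _ _ => by rw [hep, one_mul, one_mul])
  obtain ⟨f, hf⟩ := ThK.pres hS
  refine ⟨ZMod.castHom (dvd_refl 2) K, f.comp (Matrix.SpecialLinearGroup.map (ZMod.castHom (dvd_refl 2) K)), fun i j hij t => ?_⟩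
  have e : Matrix.SpecialLinearGroup.map (ZMod.castHom (dvd_refl 2) K) (ThK.el (ZMod 2) i j t) = ThK.el K i j (ZMod.castHom (dvd_refl 2) K t) := by
    apply Subtype.ext
    rw [sf_el i j hij]
    show (ZMod.castHom (dvd_refl 2) K).mapMatrix (ThK.el (ZMod 2) i j t).1 = _
    rw [sf_el i j hij]
    rw [RingHom.mapMatrix_apply]
    ext a b
    rw [Matrix.map_apply]
    unfold Matrix.transvection
    rw [Matrix.add_apply, Matrix.add_apply, map_add, Matrix.single_apply, Matrix.single_apply, Matrix.one_apply, Matrix.one_apply]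
    split_ifs <;> simp
  rw [MonoidHom.comp_apply, e, hf i j hij, one_mul]

private theorem sf_lift (φ : ZMod 2 →+* K) {c : K} (hc : c = 0 ∨ c = 1) : ∃ s, c = φ s := by
  rcases hc with rfl | rfl
  · exact ⟨0, (map_zero φ).symm⟩
  · exact ⟨1, (map_one φ).symm⟩

private theorem sf_val (φ : ZMod 2 →+* K) (s : ZMod 2) : φ s = 0 ∨ φ s = 1 := by
  have h : ∀ s : ZMod 2, s = 0 ∨ s = 1 := by decide
  rcases h s with rfl | rfl
  · exact Or.inl (map_zero φ)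
  · exact Or.inr (map_one φ)

/-- MODULE sf. THE LONG ROOT `SL_3(2)`.  Characteristic 2.  `StA_of` with `k = 3`, `ρ 0 1 = ra`, `ρ 1 2 = r3`, `ρ 0 2 = r4` and signs 1 (`-1 = 1`), `ThK.pres`: a homomorphism `SL_3(K) → G` with `el 0 1 a ↦ x ra a` etc.
The statement is a table for the 64 products `lo * up` in `SL_3(2)`: every class of `SL_3(2)` contains a product with `c' + g' + a' + k' = 0`.  `q` is a product of the `x (±ra) 1`, `x (±r3) 1`, `x (±r4) 1`, which commute with `hy x τ rb t` (`hy_conj`: the value is `Nm t ^ (±1) = 1` or `Nm t ^ 0`). -/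
theorem table (h : Stb K x) (T : Tau τ) {c g z a k y : K} (hc : c = 0 ∨ c = 1) (hg : g = 0 ∨ g = 1) (hz : z = 0 ∨ z = 1) (ha : a = 0 ∨ a = 1) (hk : k = 0 ∨ k = 1) (hy' : y = 0 ∨ y = 1) :
    ∃ q ∈ Subgroup.closure {w : G | w = x ra 1 ∨ w = x (-ra) 1 ∨ w = x r3 1 ∨ w = x (-r3) 1 ∨ w = x r4 1 ∨ w = x (-r4) 1},
      ∃ c' g' z' a' k' y' : K, (c' = 0 ∨ c' = 1) ∧ (g' = 0 ∨ g' = 1) ∧ (z' = 0 ∨ z' = 1) ∧ (a' = 0 ∨ a' = 1) ∧ (k' = 0 ∨ k' = 1) ∧ (y' = 0 ∨ y' = 1) ∧ c' + g' + a' + k' = 0 ∧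
        q * (x (-ra) c * x (-r3) g * x (-r4) z * (x ra a * x r3 k * x r4 y)) * q⁻¹ =
          x (-ra) c' * x (-r3) g' * x (-r4) z' * (x ra a' * x r3 k' * x r4 y') := by
  obtain ⟨φ, F, hF⟩ := sf_gm h T
  obtain ⟨c, rfl⟩ := sf_lift φ hc
  obtain ⟨g, rfl⟩ := sf_lift φ hg
  obtain ⟨z, rfl⟩ := sf_lift φ hz
  obtain ⟨a, rfl⟩ := sf_lift φ ha
  obtain ⟨k, rfl⟩ := sf_lift φ hk
  obtain ⟨y, rfl⟩ := sf_lift φ hy'
  have hW : ∀ c g z a k y : ZMod 2, x (-ra) (φ c) * x (-r3) (φ g) * x (-r4) (φ z) * (x ra (φ a) * x r3 (φ k) * x r4 (φ y)) =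
      F (ThK.el (ZMod 2) (1 : Fin 3) 0 c * ThK.el (ZMod 2) 2 1 g * ThK.el (ZMod 2) 2 0 z * (ThK.el (ZMod 2) 0 1 a * ThK.el (ZMod 2) 1 2 k * ThK.el (ZMod 2) 0 2 y)) := by
    intro c g z a k y
    simp only [map_mul]
    rw [hF _ _ (by decide), hF _ _ (by decide), hF _ _ (by decide), hF _ _ (by decide), hF _ _ (by decide), hF _ _ (by decide)]
    rfl
  have key : ∀ (i j : Fin 3), i ≠ j → ∀ c g z a k y c' g' z' a' k' y' : ZMod 2,
      Matrix.transvection i j 1 * sf_M c g z a k y = sf_M c' g' z' a' k' y' * Matrix.transvection i j 1 →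
      x (sf_rho i j) 1 * (x (-ra) (φ c) * x (-r3) (φ g) * x (-r4) (φ z) * (x ra (φ a) * x r3 (φ k) * x r4 (φ y))) * (x (sf_rho i j) 1)⁻¹ =
        x (-ra) (φ c') * x (-r3) (φ g') * x (-r4) (φ z') * (x ra (φ a') * x r3 (φ k') * x r4 (φ y')) := by
    intro i j hij c g z a k y c' g' z' a' k' y' e
    have e1 : x (sf_rho i j) 1 = F (ThK.el (ZMod 2) i j 1) := by rw [hF i j hij, map_one]
    rw [hW, hW, e1, mul_inv_eq_iff_eq_mul, ← map_mul, ← map_mul]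
    congr 1
    have l : ∀ A B C D : Matrix.SpecialLinearGroup (Fin 3) (ZMod 2), A.1 * B.1 = C.1 * D.1 → A * B = C * D := fun A B C D h => Subtype.ext h
    apply l
    rw [sf_el i j hij, sf_prod, sf_prod]
    exact e
  have fin : ∀ (q : G), q ∈ Subgroup.closure {w : G | w = x ra 1 ∨ w = x (-ra) 1 ∨ w = x r3 1 ∨ w = x (-r3) 1 ∨ w = x r4 1 ∨ w = x (-r4) 1} →
      ∀ c' g' z' a' k' y' : ZMod 2, c' + g' + a' + k' = 0 →
      q * (x (-ra) (φ c) * x (-r3) (φ g) * x (-r4) (φ z) * (x ra (φ a) * x r3 (φ k) * x r4 (φ y))) * q⁻¹ =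
        x (-ra) (φ c') * x (-r3) (φ g') * x (-r4) (φ z') * (x ra (φ a') * x r3 (φ k') * x r4 (φ y')) →
      ∃ q ∈ Subgroup.closure {w : G | w = x ra 1 ∨ w = x (-ra) 1 ∨ w = x r3 1 ∨ w = x (-r3) 1 ∨ w = x r4 1 ∨ w = x (-r4) 1},
      ∃ c' g' z' a' k' y' : K, (c' = 0 ∨ c' = 1) ∧ (g' = 0 ∨ g' = 1) ∧ (z' = 0 ∨ z' = 1) ∧ (a' = 0 ∨ a' = 1) ∧ (k' = 0 ∨ k' = 1) ∧ (y' = 0 ∨ y' = 1) ∧ c' + g' + a' + k' = 0 ∧
        q * (x (-ra) (φ c) * x (-r3) (φ g) * x (-r4) (φ z) * (x ra (φ a) * x r3 (φ k) * x r4 (φ y))) * q⁻¹ =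
          x (-ra) c' * x (-r3) g' * x (-r4) z' * (x ra a' * x r3 k' * x r4 y') := by
    intro q hq c' g' z' a' k' y' hs e
    exact ⟨q, hq, φ c', φ g', φ z', φ a', φ k', φ y', sf_val φ _, sf_val φ _, sf_val φ _, sf_val φ _, sf_val φ _, sf_val φ _,
      by rw [← map_add, ← map_add, ← map_add, hs, map_zero], e⟩
  rcases sf_dec c g z a k y with hs | ⟨hs, e⟩ | ⟨hs, e⟩ | ⟨hs, e⟩ | ⟨hs, e⟩ | ⟨hs, e⟩ | ⟨hs, e⟩
  · exact fin 1 (one_mem _) _ _ _ _ _ _ hs (by rw [one_mul, inv_one, mul_one])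
  · exact fin (x ra 1) (Subgroup.subset_closure (Or.inl rfl)) _ _ _ _ _ _ hs (key 0 1 (by decide) _ _ _ _ _ _ _ _ _ _ _ _ e)
  · exact fin (x r3 1) (Subgroup.subset_closure (Or.inr (Or.inr (Or.inl rfl)))) _ _ _ _ _ _ hs (key 1 2 (by decide) _ _ _ _ _ _ _ _ _ _ _ _ e)
  · exact fin (x (-ra) 1) (Subgroup.subset_closure (Or.inr (Or.inl rfl))) _ _ _ _ _ _ hs (key 1 0 (by decide) _ _ _ _ _ _ _ _ _ _ _ _ e)
  · exact fin (x (-r3) 1) (Subgroup.subset_closure (Or.inr (Or.inr (Or.inr (Or.inl rfl))))) _ _ _ _ _ _ hs (key 2 1 (by decide) _ _ _ _ _ _ _ _ _ _ _ _ e)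
  · exact fin (x r4 1) (Subgroup.subset_closure (Or.inr (Or.inr (Or.inr (Or.inr (Or.inl rfl)))))) _ _ _ _ _ _ hs (key 0 2 (by decide) _ _ _ _ _ _ _ _ _ _ _ _ e)
  · exact fin (x (-r4) 1) (Subgroup.subset_closure (Or.inr (Or.inr (Or.inr (Or.inr (Or.inr rfl)))))) _ _ _ _ _ _ hs (key 2 0 (by decide) _ _ _ _ _ _ _ _ _ _ _ _ e)

private theorem sf_one (h : Stb K x) (T : Tau τ) (s : Root) (hs : sr s = s) :
    x s 1 ∈ Hh x τ ∧ ∀ t : K, t ≠ 0 → x s 1 * hy x τ rb t = hy x τ rb t * x s 1 := by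
  have hr : sr rb ≠ rb := by decide
  refine ⟨?_, fun t ht => ?_⟩
  · have h1 := yt_mem x τ (r := s) (a := 1) (fun _ => map_one τ)
    rwa [yt_fix x τ hs] at h1
  · have h1 := hy_conj h T.h3 rb s ht (Ok.of_ne hr t) 1
    rw [yt_fix x τ hs, yt_fix x τ hs] at h1
    have e1 : bf (sr rb).1 s.1 = bf rb.1 s.1 := by
      have := bf_sr rb s
      rwa [hs] at this
    have e2 : bf (sr (sr rb)).1 s.1 = bf rb.1 s.1 := by
      have := bf_sr (sr rb) s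
      rw [hs] at this
      rw [this, e1]
    have hN : t * τ t * τ (τ t) = 1 := T.Nm_ne ht
    have e3 : cy τ rb s.1 t = 1 := by
      unfold cy
      rw [if_neg hr, e1, e2, ← mul_zpow, ← mul_zpow, hN, one_zpow]
    rw [e3, mul_one] at h1
    exact (mul_inv_eq_iff_eq_mul.mp h1).symm

/-- the group of row sf commutes with the torus of `β` (`hy_conj` with `cy τ rb _ t = 1`, induction on the closure) and lies in `Hh x τ` -/
theorem table_comm (h : Stb K x) (T : Tau τ) {q : G}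
    (hq : q ∈ Subgroup.closure {w : G | w = x ra 1 ∨ w = x (-ra) 1 ∨ w = x r3 1 ∨ w = x (-r3) 1 ∨ w = x r4 1 ∨ w = x (-r4) 1}) :
    q ∈ Hh x τ ∧ ∀ t : K, t ≠ 0 → q * hy x τ rb t = hy x τ rb t * q := by
  induction hq using Subgroup.closure_induction with
  | mem w hw =>
    rcases hw with rfl | rfl | rfl | rfl | rfl | rfl
    · exact sf_one h T ra (by decide)
    · exact sf_one h T (-ra) (by decide)
    · exact sf_one h T r3 (by decide)
    · exact sf_one h T (-r3) (by decide)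
    · exact sf_one h T r4 (by decide)
    · exact sf_one h T (-r4) (by decide)
  | one => exact ⟨one_mem _, fun t _ => by rw [one_mul, mul_one]⟩
  | mul a b _ _ iha ihb =>
    refine ⟨mul_mem iha.1 ihb.1, fun t ht => ?_⟩
    rw [mul_assoc, ihb.2 t ht, ← mul_assoc, iha.2 t ht, mul_assoc]
  | inv a _ iha =>
    refine ⟨inv_mem iha.1, fun t ht => ?_⟩
    rw [inv_mul_eq_iff_eq_mul, ← mul_assoc, iha.2 t ht, mul_inv_cancel_right]
-- END sf

end Pool.Agent.ThT2
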