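import Pool.Agent.ThT2.Cmt
import Pool.Agent.ThT2.Sec8

/-! # 3D_4(2): coordinates on the radical of `P_β` and the action of `SL_2(K)` -/

namespace Pool.Agent.ThT2

open ThT

variable {K : Type*} [Field K] {G : Type*} [Group G] {x : Root → K → G} {τ : K →+* K}

/-- `α + β` -/
def r1 : Root := ⟨(1, ![1, 0, 0]), by decide⟩

/-- `α + 2β` -/
def r2 : Root := ⟨(1, ![0, 1, 1]), by decide⟩

theorem Tau.eps1 (T : Tau τ) (v w : Vec) : eps K v w = 1 := by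
  have h1 : (-1 : Kˣ) = 1 := by
    apply Units.ext
    rw [Units.val_neg, Units.val_one]
    exact T.neg_eq 1
  unfold eps ep
  rw [h1, one_zpow, Units.val_one]

theorem fix_ra : sr ra = ra := by decide
theorem fix_r3 : sr r3 = r3 := by decide
theorem fix_r4 : sr r4 = r4 := by decide
theorem mov_r1 : sr r1 ≠ r1 := by decide
theorem mov_r2 : sr r2 ≠ r2 := by decide
theorem mov_rb : sr rb ≠ rb := by decide

/-- coordinates modulo the centre -/
def Cd (x : Root → K → G) (τ : K →+* K) (u : G) (a e f g : K) : Prop :=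
  τ a = a ∧ τ g = g ∧ ∃ z, τ z = z ∧ u = yt x τ ra a * yt x τ r1 e * yt x τ r2 f * yt x τ r3 g * yt x τ r4 z

private theorem crd_word {A1 E1 F1 G1 Z1 A2 E2 F2 G2 Z2 W1 W2 : G} (w1 : G1 * A2 = W1 * A2 * G1) (w2 : F1 * E2 = W2 * E2 * F1)
    (c1 : Commute E1 A2) (c2 : Commute F1 A2) (c3 : Commute G1 E2) (c4 : Commute G1 F2)
    (z1 : Commute Z1 A2) (z2 : Commute Z1 E2) (z3 : Commute Z1 F2) (z4 : Commute Z1 G2)
    (p1 : Commute W1 F1) (p2 : Commute W1 E1) (p3 : Commute W1 A1) (p4 : Commute W1 A2) (p5 : Commute W1 E2) (p6 : Commute W1 F2) (p7 : Commute W1 G1) (p8 : Commute W1 G2)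
    (q1 : Commute W2 E1) (q2 : Commute W2 E2) (q3 : Commute W2 F1) (q4 : Commute W2 F2) (q5 : Commute W2 G1) (q6 : Commute W2 G2) (pq : Commute W1 W2) :
    A1 * E1 * F1 * G1 * Z1 * (A2 * E2 * F2 * G2 * Z2) = A1 * A2 * (E1 * E2) * (F1 * F2) * (G1 * G2) * (W2 * W1 * (Z1 * Z2)) := by
  have k1 : Z1 * (A2 * E2 * F2 * G2) = A2 * E2 * F2 * G2 * Z1 := (((z1.mul_right z2).mul_right z3).mul_right z4).eq
  have k2 : E1 * F1 * W1 = W1 * (E1 * F1) := (Commute.mul_right p2 p1).eq.symm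
  have k3 : E1 * F1 * A2 = A2 * (E1 * F1) := (c1.mul_left c2).eq
  have k4 : G1 * (E2 * F2) = E2 * F2 * G1 := (c3.mul_right c4).eq
  have k5 : E1 * W2 = W2 * E1 := q1.eq.symm
  have k6 : W1 * (A1 * A2 * (E1 * E2) * (F1 * F2) * (G1 * G2)) = A1 * A2 * (E1 * E2) * (F1 * F2) * (G1 * G2) * W1 :=
    ((((p3.mul_right p4).mul_right (p2.mul_right p5)).mul_right (p1.mul_right p6)).mul_right (p7.mul_right p8)).eq
  have k7 : W2 * ((E1 * E2) * (F1 * F2) * (G1 * G2)) = (E1 * E2) * (F1 * F2) * (G1 * G2) * W2 :=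
    (((q1.mul_right q2).mul_right (q3.mul_right q4)).mul_right (q5.mul_right q6)).eq
  calc A1 * E1 * F1 * G1 * Z1 * (A2 * E2 * F2 * G2 * Z2) = A1 * E1 * F1 * G1 * (Z1 * (A2 * E2 * F2 * G2)) * Z2 := by group
    _ = A1 * E1 * F1 * (G1 * A2) * E2 * F2 * G2 * Z1 * Z2 := by rw [k1]; group
    _ = A1 * (E1 * F1 * W1) * A2 * G1 * E2 * F2 * G2 * Z1 * Z2 := by rw [w1]; group
    _ = A1 * W1 * (E1 * F1 * A2) * (G1 * (E2 * F2)) * G2 * Z1 * Z2 := by rw [k2]; group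
    _ = A1 * W1 * A2 * E1 * (F1 * E2) * F2 * G1 * G2 * Z1 * Z2 := by rw [k3, k4]; group
    _ = A1 * W1 * A2 * (E1 * W2) * E2 * F1 * F2 * G1 * G2 * Z1 * Z2 := by rw [w2]; group
    _ = A1 * W1 * A2 * (W2 * ((E1 * E2) * (F1 * F2) * (G1 * G2))) * Z1 * Z2 := by rw [k5]; group
    _ = (A1 * W1) * A2 * (E1 * E2) * (F1 * F2) * (G1 * G2) * W2 * Z1 * Z2 := by rw [k7]; group
    _ = W1 * (A1 * A2 * (E1 * E2) * (F1 * F2) * (G1 * G2)) * W2 * Z1 * Z2 := by rw [← p3.eq]; group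
    _ = A1 * A2 * (E1 * E2) * (F1 * F2) * (G1 * G2) * (W1 * W2) * Z1 * Z2 := by rw [k6]; group
    _ = _ := by rw [pq.eq]; group

/-- commutation from the three forms -/
theorem cmt (h : Stb K x) (τ : K →+* K) {r s : Root} (h0 : 0 ≤ bf r.1 s.1) (h1 : 0 ≤ bf r.1 (sr s).1) (h2 : 0 ≤ bf r.1 (sr (sr s)).1) (a b : K) :
    Commute (yt x τ r a) (yt x τ s b) := yt_comm h τ h0 h1 h2 a b

theorem Cd.mul (h : Stb K x) (T : Tau τ) {u v : G} {a e f g a' e' f' g' : K} (hu : Cd x τ u a e f g) (hv : Cd x τ v a' e' f' g') :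
    Cd x τ (u * v) (a + a') (e + e') (f + f') (g + g') := by
  obtain ⟨ha, hg, z, hz, rfl⟩ := hu
  obtain ⟨ha', hg', z', hz', rfl⟩ := hv
  -- the two relations
  have w1 := (yt_c1 h τ (r := r3) (s := ra) (t := r4) fix_r3 fix_ra (by decide) g a').2
  rw [T.eps1, one_mul] at w1
  have w2 := (yt_c4 h (τ := τ) (r := r2) (s := r1) (t := r4) mov_r2 mov_r1 (by decide) (by decide) (by decide) f e').2
  rw [T.eps1, one_mul] at w2
  have w1' : yt x τ r3 g * yt x τ ra a' = yt x τ r4 (g * a') * yt x τ ra a' * yt x τ r3 g := by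
    rw [← w1, inv_mul_cancel_right]
  have w2' : yt x τ r2 f * yt x τ r1 e' = yt x τ r4 (f * e' + τ (f * e') + τ (τ (f * e'))) * yt x τ r1 e' * yt x τ r2 f := by
    rw [← w2, inv_mul_cancel_right]
  have C := fun (r s : Root) (h0 : 0 ≤ bf r.1 s.1) (h1 : 0 ≤ bf r.1 (sr s).1) (h2 : 0 ≤ bf r.1 (sr (sr s)).1) (a b : K) => cmt h τ h0 h1 h2 a b
  have c4 : ∀ (s : Root), (s = ra ∨ s = r1 ∨ s = r2 ∨ s = r3 ∨ s = r4) → ∀ a b : K, Commute (yt x τ r4 a) (yt x τ s b) := by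
    intro s hs a b
    rcases hs with rfl | rfl | rfl | rfl | rfl <;> exact C _ _ (by decide) (by decide) (by decide) a b
  refine ⟨by rw [map_add, ha, ha'], by rw [map_add, hg, hg'], f * e' + τ (f * e') + τ (τ (f * e')) + g * a' + (z + z'), ?_, ?_⟩
  · simp only [map_add, map_mul, T.h3, hg, ha', hz, hz']; ring
  · rw [crd_word w1' w2'
      (C r1 ra (by decide) (by decide) (by decide) _ _) (C r2 ra (by decide) (by decide) (by decide) _ _)
      (C r3 r1 (by decide) (by decide) (by decide) _ _) (C r3 r2 (by decide) (by decide) (by decide) _ _)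
      (c4 ra (by tauto) _ _) (c4 r1 (by tauto) _ _) (c4 r2 (by tauto) _ _) (c4 r3 (by tauto) _ _)
      (c4 r2 (by tauto) _ _) (c4 r1 (by tauto) _ _) (c4 ra (by tauto) _ _) (c4 ra (by tauto) _ _) (c4 r1 (by tauto) _ _) (c4 r2 (by tauto) _ _) (c4 r3 (by tauto) _ _) (c4 r3 (by tauto) _ _)
      (c4 r1 (by tauto) _ _) (c4 r1 (by tauto) _ _) (c4 r2 (by tauto) _ _) (c4 r2 (by tauto) _ _) (c4 r3 (by tauto) _ _) (c4 r3 (by tauto) _ _) (c4 r4 (by tauto) _ _)]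
    simp only [yt_add h]

theorem Cd.one (h : Stb K x) : Cd x τ 1 0 0 0 0 :=
  ⟨map_zero τ, map_zero τ, 0, map_zero τ, by simp only [yt_zero h, mul_one]⟩

theorem Cd.of_ra (h : Stb K x) {a : K} (ha : τ a = a) : Cd x τ (yt x τ ra a) a 0 0 0 :=
  ⟨ha, map_zero τ, 0, map_zero τ, by simp only [yt_zero h, mul_one]⟩

theorem Cd.of_r1 (h : Stb K x) (e : K) : Cd x τ (yt x τ r1 e) 0 e 0 0 :=
  ⟨map_zero τ, map_zero τ, 0, map_zero τ, by simp only [yt_zero h, mul_one, one_mul]⟩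

theorem Cd.of_r2 (h : Stb K x) (f : K) : Cd x τ (yt x τ r2 f) 0 0 f 0 :=
  ⟨map_zero τ, map_zero τ, 0, map_zero τ, by simp only [yt_zero h, mul_one, one_mul]⟩

theorem Cd.of_r3 (h : Stb K x) {g : K} (hg : τ g = g) : Cd x τ (yt x τ r3 g) 0 0 0 g :=
  ⟨map_zero τ, hg, 0, map_zero τ, by simp only [yt_zero h, mul_one, one_mul]⟩

theorem Cd.of_r4 (h : Stb K x) {z : K} (hz : τ z = z) : Cd x τ (yt x τ r4 z) 0 0 0 0 :=
  ⟨map_zero τ, map_zero τ, z, hz, by simp only [yt_zero h, one_mul]⟩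

theorem Cd.congr {u : G} {a e f g a' e' f' g' : K} (hu : Cd x τ u a e f g) (h1 : a = a') (h2 : e = e') (h3 : f = f') (h4 : g = g') : Cd x τ u a' e' f' g' := by
  subst h1 h2 h3 h4; exact hu

theorem Cd.inv (h : Stb K x) (T : Tau τ) {u : G} {a e f g : K} (hu : Cd x τ u a e f g) : Cd x τ u⁻¹ a e f g := by
  have ha := hu.1
  have hg := hu.2.1
  have hv : Cd x τ (yt x τ ra a * yt x τ r1 e * yt x τ r2 f * yt x τ r3 g) a e f g :=
    ⟨ha, hg, 0, map_zero τ, by simp only [yt_zero h, mul_one]⟩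
  obtain ⟨-, -, z, hz, hw⟩ := (hu.mul h T hv).congr (T.add_self a) (T.add_self e) (T.add_self f) (T.add_self g)
  simp only [yt_zero h, one_mul] at hw
  have e1 : u⁻¹ = (yt x τ ra a * yt x τ r1 e * yt x τ r2 f * yt x τ r3 g) * (yt x τ r4 z)⁻¹ := by
    rw [← hw]; group
  rw [e1, yt_inv h]
  have hz' : τ (-z) = -z := by rw [map_neg, hz]
  exact (hv.mul h T (Cd.of_r4 h hz')).congr (add_zero _) (add_zero _) (add_zero _) (add_zero _)

/-- conjugation from the generators -/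
theorem Cd.conj4 (h : Stb K x) (T : Tau τ) {c u : G} {a e f g a1 e1 f1 g1 a2 e2 f2 g2 a3 e3 f3 g3 a4 e4 f4 g4 : K}
    (hu : Cd x τ u a e f g)
    (h1 : Cd x τ (c * yt x τ ra a * c⁻¹) a1 e1 f1 g1) (h2 : Cd x τ (c * yt x τ r1 e * c⁻¹) a2 e2 f2 g2)
    (h3 : Cd x τ (c * yt x τ r2 f * c⁻¹) a3 e3 f3 g3) (h4 : Cd x τ (c * yt x τ r3 g * c⁻¹) a4 e4 f4 g4)
    (h5 : ∀ z, c * yt x τ r4 z * c⁻¹ = yt x τ r4 z) :
    Cd x τ (c * u * c⁻¹) (a1 + a2 + a3 + a4) (e1 + e2 + e3 + e4) (f1 + f2 + f3 + f4) (g1 + g2 + g3 + g4) := by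
  obtain ⟨ha, hg, z, hz, rfl⟩ := hu
  have e0 : c * (yt x τ ra a * yt x τ r1 e * yt x τ r2 f * yt x τ r3 g * yt x τ r4 z) * c⁻¹ =
      (c * yt x τ ra a * c⁻¹) * (c * yt x τ r1 e * c⁻¹) * (c * yt x τ r2 f * c⁻¹) * (c * yt x τ r3 g * c⁻¹) * (c * yt x τ r4 z * c⁻¹) := by group
  rw [e0, h5]
  exact ((((h1.mul h T h2).mul h T h3).mul h T h4).mul h T (Cd.of_r4 h hz)).congr (add_zero _) (add_zero _) (add_zero _) (add_zero _)

/-! ### the action of `y_β(t)` -/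

theorem yt_ss (h : Stb K x) (T : Tau τ) {r : Root} (hr : sr r ≠ r) (c : K) : yt x τ (sr (sr r)) c = yt x τ r (τ c) := by
  have e1 := yt_sr h T.h3 (sr_ne hr) (τ (τ c))
  have e2 := yt_sr h T.h3 hr (τ c)
  rw [T.h3] at e1
  rw [e1, e2]

theorem up_ra (h : Stb K x) (T : Tau τ) {a : K} (ha : τ a = a) (t : K) :
    Cd x τ (yt x τ rb t * yt x τ ra a * (yt x τ rb t)⁻¹) a (a * t) (a * (τ t * τ (τ t))) (a * Nm τ t) := by
  obtain ⟨-, -, -, -, c, d, e, hc, hd, hd', he, hrel⟩ := yt_c2x h T.h3 (r := ra) (s := rb) (t := r1) (u := sr (sr r2)) (v := r3) (v' := r4)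
    fix_ra mov_rb (by decide) (by decide) (by decide) (by decide) ha t
  rw [T.eps1, T.eps1, one_mul, one_mul] at hc
  rw [T.eps1, one_mul] at hd hrel
  have hP : Cd x τ (yt x τ r1 (a * t) * yt x τ (sr (sr r2)) c * yt x τ r3 d * yt x τ r4 e) 0 (a * t) (a * (τ t * τ (τ t))) (a * Nm τ t) := by
    have e1 : τ c = a * (τ t * τ (τ t)) := by rw [hc, map_mul, map_mul, map_mul, ha, ha]; ring
    have e2 : d = a * Nm τ t := by rw [hd, e1, Nm]; ring
    refine ⟨map_zero τ, by rw [← e2]; exact hd', e, he, ?_⟩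
    rw [yt_ss h T mov_r2, e1, e2, yt_zero h, one_mul]
  have e3 : yt x τ rb t * yt x τ ra a * (yt x τ rb t)⁻¹ = (yt x τ r1 (a * t) * yt x τ (sr (sr r2)) c * yt x τ r3 d * yt x τ r4 e)⁻¹ * yt x τ ra a := by
    have e4 : yt x τ ra a * yt x τ rb t = yt x τ r1 (a * t) * yt x τ (sr (sr r2)) c * yt x τ r3 d * yt x τ r4 e * yt x τ rb t * yt x τ ra a := by
      rw [← hrel, inv_mul_cancel_right]
    rw [eq_inv_mul_iff_mul_eq, ← mul_assoc, ← mul_assoc, ← e4, mul_inv_cancel_right]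
  rw [e3]
  exact ((hP.inv h T).mul h T (Cd.of_ra h ha)).congr (zero_add _) (add_zero _) (add_zero _) (add_zero _)

theorem up_r1 (h : Stb K x) (T : Tau τ) (e t : K) :
    Cd x τ (yt x τ rb t * yt x τ r1 e * (yt x τ rb t)⁻¹) 0 e (τ t * τ (τ e) + τ (τ t) * τ e) (Tc τ (τ t * τ (τ t) * e)) := by
  obtain ⟨-, -, -, c, d, hc, hc', hd, hrel⟩ := yt_c5x h T.h3 (r := rb) (s := r1) (t := r2) (p := r3) (q := r4)
    mov_rb mov_r1 (by decide) (by decide) (by decide) (by decide) (by decide) (by decide) t e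
  rw [T.eps1, T.eps1] at hc
  rw [T.eps1, one_mul] at hrel
  have e1 : c = Tc τ (τ t * τ (τ t) * e) := by
    rw [hc, Tc]; simp only [map_mul, T.h3]; ring
  rw [hrel]
  have hP : Cd x τ (yt x τ r2 (τ t * τ (τ e) + τ (τ t) * τ e) * yt x τ r3 c * yt x τ r4 d) 0 0 (τ t * τ (τ e) + τ (τ t) * τ e) c :=
    ⟨map_zero τ, hc', d, hd, by simp only [yt_zero h, one_mul]⟩
  exact (hP.mul h T (Cd.of_r1 h e)).congr (add_zero _) (zero_add _) (add_zero _) (by rw [add_zero, e1])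

theorem up_r2 (h : Stb K x) (T : Tau τ) (f t : K) :
    Cd x τ (yt x τ rb t * yt x τ r2 f * (yt x τ rb t)⁻¹) 0 0 f (Tc τ (t * f)) := by
  have hrel := (yt_c4 h (τ := τ) (r := rb) (s := r2) (t := r3) mov_rb mov_r2 (by decide) (by decide) (by decide) t f).2
  rw [T.eps1, one_mul] at hrel
  rw [hrel]
  have hP : Cd x τ (yt x τ r3 (t * f + τ (t * f) + τ (τ (t * f)))) 0 0 0 (Tc τ (t * f)) := Cd.of_r3 h (T.τ_Tc (t * f))
  exact (hP.mul h T (Cd.of_r2 h f)).congr (add_zero _) (add_zero _) (zero_add _) (add_zero _)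

theorem up_r3 (h : Stb K x) {g : K} (hg : τ g = g) (t : K) :
    Cd x τ (yt x τ rb t * yt x τ r3 g * (yt x τ rb t)⁻¹) 0 0 0 g := by
  have e1 : yt x τ rb t * yt x τ r3 g = yt x τ r3 g * yt x τ rb t := cmt h τ (by decide) (by decide) (by decide) t g
  rw [e1, mul_inv_cancel_right]
  exact Cd.of_r3 h hg

theorem up_r4 (h : Stb K x) (z t : K) : yt x τ rb t * yt x τ r4 z * (yt x τ rb t)⁻¹ = yt x τ r4 z := by
  have e1 : yt x τ rb t * yt x τ r4 z = yt x τ r4 z * yt x τ rb t := cmt h τ (by decide) (by decide) (by decide) t z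
  rw [e1, mul_inv_cancel_right]

/-- RAISING -/
theorem Cd.raise (h : Stb K x) (T : Tau τ) {u : G} {a e f g : K} (hu : Cd x τ u a e f g) (t : K) :
    Cd x τ (yt x τ rb t * u * (yt x τ rb t)⁻¹) a (e + a * t) (f + (τ t * τ (τ e) + τ (τ t) * τ e) + a * (τ t * τ (τ t)))
      (g + Tc τ (t * f) + Tc τ (τ t * τ (τ t) * e) + a * Nm τ t) :=
  (hu.conj4 h T (up_ra h T hu.1 t) (up_r1 h T e t) (up_r2 h T f t) (up_r3 h hu.2.1 t) (fun z => up_r4 h z t)).congr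
    (by ring) (by ring) (by ring) (by ring)

theorem Fm_raise (T : Tau τ) {a : K} (ha : τ a = a) (e f g t p q : K) :
    Fm τ a (e + a * t) (f + (τ t * τ (τ e) + τ (τ t) * τ e) + a * (τ t * τ (τ t))) (g + Tc τ (t * f) + Tc τ (τ t * τ (τ t) * e) + a * Nm τ t) p q =
      Fm τ a e f g (p + t * q) q := by
  simp only [Fm, Nm, Tc, map_add, map_mul, T.h3, ha]
  ring

/-! ### the action of `y_(-β)(t)` -/

theorem dn_ra (h : Stb K x) {a : K} (ha : τ a = a) (t : K) :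
    Cd x τ (yt x τ (-rb) t * yt x τ ra a * (yt x τ (-rb) t)⁻¹) a 0 0 0 := by
  have e1 : yt x τ (-rb) t * yt x τ ra a = yt x τ ra a * yt x τ (-rb) t := cmt h τ (by decide) (by decide) (by decide) t a
  rw [e1, mul_inv_cancel_right]
  exact Cd.of_ra h ha

theorem dn_r1 (h : Stb K x) (T : Tau τ) (e t : K) :
    Cd x τ (yt x τ (-rb) t * yt x τ r1 e * (yt x τ (-rb) t)⁻¹) (Tc τ (t * e)) e 0 0 := by
  have hrel := (yt_c4 h (τ := τ) (r := -rb) (s := r1) (t := ra) (by decide) mov_r1 (by decide) (by decide) (by decide) t e).2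
  rw [T.eps1, one_mul] at hrel
  rw [hrel]
  have hP : Cd x τ (yt x τ ra (t * e + τ (t * e) + τ (τ (t * e)))) (Tc τ (t * e)) 0 0 0 := Cd.of_ra h (T.τ_Tc (t * e))
  exact (hP.mul h T (Cd.of_r1 h e)).congr (add_zero _) (zero_add _) (add_zero _) (add_zero _)

theorem dn_r2 (h : Stb K x) (T : Tau τ) (f t : K) :
    Cd x τ (yt x τ (-rb) t * yt x τ r2 f * (yt x τ (-rb) t)⁻¹) (Tc τ (τ t * τ (τ t) * f)) (τ t * τ (τ f) + τ (τ t) * τ f) f 0 := by
  obtain ⟨-, -, -, c, d, hc, hc', hd, hrel⟩ := yt_c5x h T.h3 (r := -rb) (s := r2) (t := r1) (p := ra) (q := r4)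
    (by decide) mov_r2 (by decide) (by decide) (by decide) (by decide) (by decide) (by decide) t f
  rw [T.eps1, T.eps1] at hc
  rw [T.eps1, one_mul] at hrel
  have e1 : c = Tc τ (τ t * τ (τ t) * f) := by
    rw [hc, Tc]; simp only [map_mul, T.h3]; ring
  rw [hrel]
  have hP := (((Cd.of_r1 h (τ t * τ (τ f) + τ (τ t) * τ f)).mul h T (Cd.of_ra h hc')).mul h T (Cd.of_r4 h hd)).mul h T (Cd.of_r2 h f)
  exact hP.congr (by rw [e1]; ring) (by ring) (by ring) (by ring)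

theorem dn_r3 (h : Stb K x) (T : Tau τ) {g : K} (hg : τ g = g) (t : K) :
    Cd x τ (yt x τ (-rb) t * yt x τ r3 g * (yt x τ (-rb) t)⁻¹) (g * Nm τ t) (g * (τ t * τ (τ t))) (g * t) g := by
  obtain ⟨-, -, -, -, c, d, e, hc, hd, hd', he, hrel⟩ := yt_c2x h T.h3 (r := r3) (s := -rb) (t := r2) (u := sr (sr r1)) (v := ra) (v' := r4)
    fix_r3 (by decide) (by decide) (by decide) (by decide) (by decide) hg t
  rw [T.eps1, T.eps1, one_mul, one_mul] at hc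
  rw [T.eps1, one_mul] at hd hrel
  have e1 : τ c = g * (τ t * τ (τ t)) := by rw [hc, map_mul, map_mul, map_mul, hg, hg]; ring
  have e2 : d = g * Nm τ t := by rw [hd, e1, Nm]; ring
  have hP : Cd x τ (yt x τ r2 (g * t) * yt x τ (sr (sr r1)) c * yt x τ ra d * yt x τ r4 e) (g * Nm τ t) (g * (τ t * τ (τ t))) (g * t) 0 := by
    rw [yt_ss h T mov_r1, e1]
    exact ((((Cd.of_r2 h (g * t)).mul h T (Cd.of_r1 h (g * (τ t * τ (τ t))))).mul h T (Cd.of_ra h hd')).mul h T (Cd.of_r4 h he)).congr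
      (by rw [e2]; ring) (by ring) (by ring) (by ring)
  have e3 : yt x τ (-rb) t * yt x τ r3 g * (yt x τ (-rb) t)⁻¹ = (yt x τ r2 (g * t) * yt x τ (sr (sr r1)) c * yt x τ ra d * yt x τ r4 e)⁻¹ * yt x τ r3 g := by
    have e4 : yt x τ r3 g * yt x τ (-rb) t = yt x τ r2 (g * t) * yt x τ (sr (sr r1)) c * yt x τ ra d * yt x τ r4 e * yt x τ (-rb) t * yt x τ r3 g := by
      rw [← hrel, inv_mul_cancel_right]
    rw [eq_inv_mul_iff_mul_eq, ← mul_assoc, ← mul_assoc, ← e4, mul_inv_cancel_right]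
  rw [e3]
  exact ((hP.inv h T).mul h T (Cd.of_r3 h hg)).congr (add_zero _) (add_zero _) (add_zero _) (zero_add _)

theorem dn_r4 (h : Stb K x) (z t : K) : yt x τ (-rb) t * yt x τ r4 z * (yt x τ (-rb) t)⁻¹ = yt x τ r4 z := by
  have e1 : yt x τ (-rb) t * yt x τ r4 z = yt x τ r4 z * yt x τ (-rb) t := cmt h τ (by decide) (by decide) (by decide) t z
  rw [e1, mul_inv_cancel_right]

/-- LOWERING -/
theorem Cd.lower (h : Stb K x) (T : Tau τ) {u : G} {a e f g : K} (hu : Cd x τ u a e f g) (t : K) :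
    Cd x τ (yt x τ (-rb) t * u * (yt x τ (-rb) t)⁻¹) (a + Tc τ (t * e) + Tc τ (τ t * τ (τ t) * f) + g * Nm τ t)
      (e + (τ t * τ (τ f) + τ (τ t) * τ f) + g * (τ t * τ (τ t))) (f + g * t) g :=
  (hu.conj4 h T (dn_ra h hu.1 t) (dn_r1 h T e t) (dn_r2 h T f t) (dn_r3 h T hu.2.1 t) (fun z => dn_r4 h z t)).congr
    (by ring) (by ring) (by ring) (by ring)

theorem Fm_lower (T : Tau τ) {g : K} (hg : τ g = g) (a e f t p q : K) :
    Fm τ (a + Tc τ (t * e) + Tc τ (τ t * τ (τ t) * f) + g * Nm τ t) (e + (τ t * τ (τ f) + τ (τ t) * τ f) + g * (τ t * τ (τ t))) (f + g * t) g p q =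
      Fm τ a e f g p (q + t * p) := by
  simp only [Fm, Nm, Tc, map_add, map_mul, T.h3, hg]
  ring

theorem Fm_swap (τ : K →+* K) (a e f g p q : K) : Fm τ a e f g p q = Fm τ g f e a q p := by
  simp only [Fm]
  ring

end Pool.Agent.ThT2
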