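import Pool.Agent.ThT.Fin
import Pool.Agent.ThT2.Act

/-! # 3D_4(2): the parity theorem in the group -/

namespace Pool.Agent.ThT2

open ThT ThG

variable {K : Type*} [Field K] {G : Type*} [Group G] {x : Root → K → G} {τ : K →+* K}

theorem pi_one (r : Root) (hr : Pi' 1 r) : r = ra ∨ r = r1 ∨ r = sr r1 ∨ r = sr (sr r1) ∨ r = r2 ∨ r = sr r2 ∨ r = sr (sr r2) ∨ r = r3 ∨ r = r4 := by
  have h := all_rts (p := fun v => 0 < ht v → v ≠ rb.1 → v ≠ sg rb.1 → v ≠ sg (sg rb.1) →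
    v = ra.1 ∨ v = r1.1 ∨ v = sg r1.1 ∨ v = sg (sg r1.1) ∨ v = r2.1 ∨ v = sg r2.1 ∨ v = sg (sg r2.1) ∨ v = r3.1 ∨ v = r4.1) (by decide) r
  obtain ⟨h0, h1, h2, h3⟩ := hr
  have := h h0 (fun e => h1 (Subtype.ext e)) (fun e => h2 (Subtype.ext e)) (fun e => h3 (Subtype.ext e))
  rcases this with e | e | e | e | e | e | e | e | e
  · exact Or.inl (Subtype.ext e)
  · exact Or.inr (Or.inl (Subtype.ext e))
  · exact Or.inr (Or.inr (Or.inl (Subtype.ext e)))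
  · exact Or.inr (Or.inr (Or.inr (Or.inl (Subtype.ext e))))
  · exact Or.inr (Or.inr (Or.inr (Or.inr (Or.inl (Subtype.ext e)))))
  · exact Or.inr (Or.inr (Or.inr (Or.inr (Or.inr (Or.inl (Subtype.ext e))))))
  · exact Or.inr (Or.inr (Or.inr (Or.inr (Or.inr (Or.inr (Or.inl (Subtype.ext e)))))))
  · exact Or.inr (Or.inr (Or.inr (Or.inr (Or.inr (Or.inr (Or.inr (Or.inl (Subtype.ext e))))))))
  · exact Or.inr (Or.inr (Or.inr (Or.inr (Or.inr (Or.inr (Or.inr (Or.inr (Subtype.ext e))))))))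

theorem yt_s (h : Stb K x) (T : Tau τ) {r : Root} (hr : sr r ≠ r) (c : K) : yt x τ (sr r) c = yt x τ r (τ (τ c)) := by
  have e2 := yt_sr h T.h3 hr (τ (τ c))
  rwa [T.h3] at e2

/-- the elements of the radical of `P_β` have coordinates -/
theorem exists_Cd (h : Stb K x) (T : Tau τ) {u : G} (hu : u ∈ Sy x τ (Pi' 1)) : ∃ a e f g, Cd x τ u a e f g := by
  unfold Sy at hu
  induction hu using Subgroup.closure_induction with
  | mem w hw =>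
    obtain ⟨r, a, hr, ha, rfl⟩ := hw
    rcases pi_one r hr with e | e | e | e | e | e | e | e | e <;> subst e
    · exact ⟨_, _, _, _, Cd.of_ra h (ha fix_ra)⟩
    · exact ⟨_, _, _, _, Cd.of_r1 h a⟩
    · rw [yt_s h T mov_r1]; exact ⟨_, _, _, _, Cd.of_r1 h _⟩
    · rw [yt_ss h T mov_r1]; exact ⟨_, _, _, _, Cd.of_r1 h _⟩
    · exact ⟨_, _, _, _, Cd.of_r2 h a⟩
    · rw [yt_s h T mov_r2]; exact ⟨_, _, _, _, Cd.of_r2 h _⟩
    · rw [yt_ss h T mov_r2]; exact ⟨_, _, _, _, Cd.of_r2 h _⟩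
    · exact ⟨_, _, _, _, Cd.of_r3 h (ha fix_r3)⟩
    · exact ⟨_, _, _, _, Cd.of_r4 h (ha fix_r4)⟩
  | one => exact ⟨0, 0, 0, 0, Cd.one h⟩
  | mul y z _ _ hy hz =>
    obtain ⟨_, _, _, _, h1⟩ := hy
    obtain ⟨_, _, _, _, h2⟩ := hz
    exact ⟨_, _, _, _, h1.mul h T h2⟩
  | inv y _ hy =>
    obtain ⟨_, _, _, _, h1⟩ := hy
    exact ⟨_, _, _, _, h1.inv h T⟩

/-- the `α`-part -/
theorem Cd.pull {u : G} {a e f g : K} (hu : Cd x τ u a e f g) : ∃ u' ∈ Sy x τ (Pi' 0), u = yt x τ ra a * u' := by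
  obtain ⟨ha, hg, z, hz, rfl⟩ := hu
  refine ⟨yt x τ r1 e * yt x τ r2 f * yt x τ r3 g * yt x τ r4 z, ?_, by group⟩
  exact mul_mem (mul_mem (mul_mem (Sy.mem (by unfold Pi'; decide) (Ok.of_ne mov_r1 e)) (Sy.mem (by unfold Pi'; decide) (Ok.of_ne mov_r2 f)))
    (Sy.mem (by unfold Pi'; decide) (fun _ => hg))) (Sy.mem (by unfold Pi'; decide) (fun _ => hz))

/-- equal forms have equal coefficients -/
theorem Fm_inj (T : Tau τ) [Fintype K] [DecidableEq K] {c e f g c' e' f' g' : K} (hF : ∀ p q, Fm τ c e f g p q = Fm τ c' e' f' g' p q) :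
    c = c' ∧ e = e' ∧ f = f' ∧ g = g' := by
  have h1 : c = c' := by
    have := hF 1 0
    simpa [Fm, Nm, Tc] using this
  have h2 : g = g' := by
    have := hF 0 1
    simpa [Fm, Nm, Tc] using this
  have key : ∀ p q, Fm τ (c - c') (e - e') (f - f') (g - g') p q = 0 := by
    intro p q
    have := hF p q
    have e0 : Fm τ (c - c') (e - e') (f - f') (g - g') p q = Fm τ c e f g p q - Fm τ c' e' f' g' p q := by
      simp only [Fm, Nm, Tc, map_sub, map_mul]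
      ring
    rw [e0, this, sub_self]
  obtain ⟨l, hl0, hl1⟩ := T.exists_lam
  obtain ⟨h3, h4⟩ := T.pure_of_inv (c := c - c') (e := e - e') (f := f - f') (g := g - g') l hl0 hl1 (fun z _ => by rw [key, key])
  exact ⟨h1, sub_eq_zero.1 h3, sub_eq_zero.1 h4, h2⟩

/-- the conclusion of the parity theorem -/
def Con (x : Root → K → G) (τ : K →+* K) (σ : K) (g : G) : Prop :=
  ∃ c ∈ Hh x τ, ∃ b : K, (b = 0 ∨ b = 1) ∧ ∃ ρ : K, (ρ = 1 ∨ ρ = σ ∨ ρ = σ⁻¹) ∧ ∃ v ∈ Sy (op x) τ (Pi' 0), ∃ u ∈ Sy x τ (Pi' 0),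
      c * g * c⁻¹ = v * (yt x τ (-ra) b * hy x τ rb ρ * yt x τ ra b) * u

theorem Con.of_conj {σ : K} {g c : G} (hc : c ∈ Hh x τ) (hg : Con x τ σ (c * g * c⁻¹)) : Con x τ σ g := by
  obtain ⟨d, hd, b, hb, ρ, hρ, v, hv, u, hu, he⟩ := hg
  refine ⟨d * c, mul_mem hd hc, b, hb, ρ, hρ, v, hv, u, hu, ?_⟩
  rw [← he]
  group

/-- the good case -/
theorem Con.of_good (h : Stb K x) (T : Tau τ) {t : SL2 K →* G} (ht : Hb x τ rb t) {σ : K} (hσ0 : σ ≠ 0) {D : SL2 K} {v u : G}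
    {c e f g a0 e' f' a1 : K} (hv : Cd (op x) τ v c e f g) (hu : Cd x τ u a1 f' e' a0) (hG : Tau.Good τ σ D c e f g a0 e' f' a1) :
    Con x τ σ (v * t D * u) := by
  obtain ⟨X, hρ, hF⟩ := hG
  have hx : t X ∈ Hh x τ := ht.mem h mov_rb X
  refine Con.of_conj hx ?_
  obtain ⟨c2, e2, f2, g2, hv2, hFv⟩ := hv.act_op h T ht X
  obtain ⟨a3, e3, f3, g3, hu2, hFu⟩ := hu.act h T ht X
  have k1 : c2 = Fm τ c e f g (X.1 0 0) (X.1 0 1) := by
    have := hFv 1 0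
    simpa [Fm, Nm, Tc] using this
  have k2 : a3 = Fm τ a0 e' f' a1 (X.1 1 0) (X.1 1 1) := by
    have := hFu 0 1
    simpa [Fm, Nm, Tc] using this
  have k3 : c2 = a3 := by rw [k1, k2, hF]
  subst k3
  obtain ⟨u', hu', hu''⟩ := hu2.pull
  obtain ⟨v', hv', hv''⟩ := (hv2.inv h.op T).pull
  obtain ⟨ρ, hρe⟩ : ∃ ρ, ρ = (X * D * X⁻¹).1 0 0 := ⟨_, rfl⟩
  rw [← hρe] at hρ
  have hρ0 : ρ ≠ 0 := by
    rcases hρ with h1 | h1 | h1 <;> rw [h1]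
    · exact one_ne_zero
    · exact hσ0
    · exact inv_ne_zero hσ0
  have hb : τ c2 = c2 := hv2.1
  obtain ⟨p, q, hD⟩ := ldu (X * D * X⁻¹) (t := Units.mk0 ρ hρ0) hρe.symm
  have hD' : t (X * D * X⁻¹) = yt x τ (-rb) p * hy x τ rb ρ * yt x τ rb q := by
    rw [hD, map_mul, map_mul, ht.lo, ht.dg, ht.up, Units.val_mk0]
  have hB : (yt x τ ra c2)⁻¹ = yt x τ ra c2 := by rw [yt_inv h, T.neg_eq]
  have hA : (yt (op x) τ ra c2)⁻¹ = yt x τ (-ra) c2 := by rw [yt_inv h.op, T.neg_eq, yt_op]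
  have ok : Ok τ (sn 0) c2 := fun _ => hb
  have m1 : yt x τ (-ra) c2 * yt x τ (-rb) p * (yt x τ (-ra) c2)⁻¹ ∈ Sy (op x) τ (Pi' 0) := by
    have := Pi_up h.op T.h3 0 ok (u := yt (op x) τ rb p) (Sy.mem (by unfold Pi'; decide) (Ok.of_ne mov_rb p))
    rwa [yt_op, yt_op] at this
  have m2 : (yt x τ ra c2)⁻¹ * yt x τ rb q * yt x τ ra c2 ∈ Sy x τ (Pi' 0) := by
    have := Pi_up h T.h3 0 ok (u := yt x τ rb q) (Sy.mem (by unfold Pi'; decide) (Ok.of_ne mov_rb q))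
    have e0 : sn 0 = ra := rfl
    rw [e0, hB] at this
    rw [hB]
    exact this
  refine ⟨1, one_mem _, c2, T.fix _ hb, ρ, hρ, v'⁻¹ * (yt x τ (-ra) c2 * yt x τ (-rb) p * (yt x τ (-ra) c2)⁻¹), mul_mem (inv_mem hv') m1,
    (yt x τ ra c2)⁻¹ * yt x τ rb q * yt x τ ra c2 * u', mul_mem m2 hu', ?_⟩
  have e1 : t X * v * (t X)⁻¹ = v'⁻¹ * yt x τ (-ra) c2 := by
    rw [← hA, ← mul_inv_rev, ← hv'', inv_inv]
  have e2 : t X * (v * t D * u) * (t X)⁻¹ = (t X * v * (t X)⁻¹) * t (X * D * X⁻¹) * (t X * u * (t X)⁻¹) := by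
    rw [map_mul, map_mul, map_inv]
    group
  rw [e2, e1, hD', hu'']
  group

/-- the set of generators of the long root group -/
def Lg (x : Root → K → G) : Subgroup G := Subgroup.closure {w : G | w = x ra 1 ∨ w = x (-ra) 1 ∨ w = x r3 1 ∨ w = x (-r3) 1 ∨ w = x r4 1 ∨ w = x (-r4) 1}

theorem Lg.mem_ra (h : Stb K x) {a : K} (ha : a = 0 ∨ a = 1) : x ra a ∈ Lg x := by
  rcases ha with rfl | rfl
  · rw [h.zero]; exact one_mem _
  · exact Subgroup.subset_closure (Or.inl rfl)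

theorem Lg.mem_r3 (h : Stb K x) {a : K} (ha : a = 0 ∨ a = 1) : x r3 a ∈ Lg x := by
  rcases ha with rfl | rfl
  · rw [h.zero]; exact one_mem _
  · exact Subgroup.subset_closure (Or.inr (Or.inr (Or.inl rfl)))

theorem Lg.mem_r4 (h : Stb K x) {a : K} (ha : a = 0 ∨ a = 1) : x r4 a ∈ Lg x := by
  rcases ha with rfl | rfl
  · rw [h.zero]; exact one_mem _
  · exact Subgroup.subset_closure (Or.inr (Or.inr (Or.inr (Or.inr (Or.inl rfl)))))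

theorem fxn {r : Root} (hr : sr r = r) : sr (-r) = -r := by rw [sr_neg, hr]

/-- all cases -/
theorem Con.of_tri (h : Stb K x) (T : Tau τ) [Finite K] {t : SL2 K →* G} (ht : Hb x τ rb t) {σ : K} (hσ0 : σ ≠ 0) (hσ1 : σ ≠ 1) (D : SL2 K) {v u : G}
    (hv : v ∈ Sy (op x) τ (Pi' 1)) (hu : u ∈ Sy x τ (Pi' 1)) : Con x τ σ (v * t D * u) := by
  classical
  have := Fintype.ofFinite K
  obtain ⟨c, e, f, g, hv1⟩ := exists_Cd h.op T hv
  obtain ⟨a1, f', e', a0, hu1⟩ := exists_Cd h T hu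
  rcases T.par8 σ hσ1 D (e := e) (f := f) (e' := e') (f' := f') hv1.1 hv1.2.1 hu1.2.1 hu1.1 with
    hG | ⟨Y, m, m', c₁, g₁, a₀, a₁, hm, hmm, y1, y2, y3, y4, t1, t2, t3, t4, -, F1, F2⟩
  · exact Con.of_good h T ht hσ0 hv1 hu1 hG
  refine Con.of_conj (ht.mem h mov_rb Y) ?_
  obtain ⟨c2, e2, f2, g2, hv2, hFv⟩ := hv1.act_op h T ht Y
  obtain ⟨a3, e3, f3, g3, hu2, hFu⟩ := hu1.act h T ht Y
  obtain ⟨i1, i2, i3, i4⟩ := Fm_inj T (fun p q => (hFv p q).trans (F1 p q))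
  obtain ⟨j1, j2, j3, j4⟩ := Fm_inj T (fun p q => (hFu p q).trans (F2 p q))
  subst i1 i2 i3 i4 j1 j2 j3 j4
  obtain ⟨-, -, z, hz, hv3⟩ := hv2
  obtain ⟨-, -, y, hy0, hu3⟩ := hu2
  have ho := h.op
  simp only [yt_zero h, yt_zero ho, mul_one] at hv3 hu3
  rw [yt_fix _ _ fix_ra, yt_fix _ _ fix_r3, yt_fix _ _ fix_r4] at hv3 hu3
  have hm0 : m ≠ 0 := left_ne_zero_of_mul_eq_one hmm
  have hD : Y * D * Y⁻¹ = dg (Units.mk0 m hm0) := by
    apply Subtype.ext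
    ext i j
    fin_cases i <;> fin_cases j
    · simpa [dg] using y1
    · simpa [dg] using y2
    · simpa [dg] using y3
    · have : m' = m⁻¹ := eq_inv_of_mul_eq_one_right hmm
      rw [this] at y4
      simpa [dg] using y4
  obtain ⟨q, hq, c', g', z', a', k', y', s1, s2, s3, s4, s5, s6, hs, he⟩ :=
    table h T (T.fix _ t1) (T.fix _ t2) (T.fix _ hz) (T.fix _ t4) (T.fix _ t3) (T.fix _ hy0)
  obtain ⟨hq1, hq2⟩ := table_comm h T hq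
  refine Con.of_conj hq1 ?_
  have hc : ∀ {w : G}, w ∈ Lg x → w * hy x τ rb m = hy x τ rb m * w := fun hw => (table_comm h T hw).2 m hm0
  obtain ⟨H, hH⟩ : ∃ H, H = hy x τ rb m := ⟨_, rfl⟩
  have hDt : t (Y * D * Y⁻¹) = H := by rw [hD, ht.dg, Units.val_mk0, hH]
  rw [← hH] at hc
  obtain ⟨V2, hV2⟩ : ∃ V2, V2 = x (-ra) c2 * x (-r3) g2 * x (-r4) z := ⟨_, rfl⟩
  obtain ⟨U2, hU2⟩ : ∃ U2, U2 = x ra a3 * x r3 g3 * x r4 y := ⟨_, rfl⟩
  obtain ⟨V3, hV3⟩ : ∃ V3, V3 = x (-ra) c' * x (-r3) g' * x (-r4) z' := ⟨_, rfl⟩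
  obtain ⟨U3, hU3⟩ : ∃ U3, U3 = x ra a' * x r3 k' * x r4 y' := ⟨_, rfl⟩
  have mU2 : U2 ∈ Lg x := by
    rw [hU2]
    exact mul_mem (mul_mem (Lg.mem_ra h (T.fix _ t4)) (Lg.mem_r3 h (T.fix _ t3))) (Lg.mem_r4 h (T.fix _ hy0))
  have mU3 : U3 ∈ Lg x := by
    rw [hU3]
    exact mul_mem (mul_mem (Lg.mem_ra h s4) (Lg.mem_r3 h s5)) (Lg.mem_r4 h s6)
  rw [← hV2, ← hU2, ← hV3, ← hU3] at he
  have hv4 : t Y * v * (t Y)⁻¹ = V2 := by rw [hv3, hV2]; rfl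
  have hu4 : t Y * u * (t Y)⁻¹ = U2 := by rw [hu3, hU2]
  have e2 : t Y * (v * t D * u) * (t Y)⁻¹ = (t Y * v * (t Y)⁻¹) * t (Y * D * Y⁻¹) * (t Y * u * (t Y)⁻¹) := by
    rw [map_mul, map_mul, map_inv]
    group
  rw [e2, hv4, hDt, hu4]
  have e3 : q * (V2 * H * U2) * q⁻¹ = V3 * H * U3 := by
    have k1 : V2 * H * U2 = V2 * U2 * H := by rw [mul_assoc, ← hc mU2, ← mul_assoc]
    have k2 : H * q⁻¹ = q⁻¹ * H := (hc (inv_mem hq)).symm
    calc q * (V2 * H * U2) * q⁻¹ = q * (V2 * U2) * (H * q⁻¹) := by rw [k1]; group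
      _ = q * (V2 * U2) * q⁻¹ * H := by rw [k2]; group
      _ = V3 * (U3 * H) := by rw [he]; group
      _ = _ := by rw [hc mU3]; group
  rw [e3, ← hDt, hD]
  have fx : ∀ {a : K}, (a = 0 ∨ a = 1) → τ a = a := by
    rintro a (rfl | rfl)
    · exact map_zero τ
    · exact map_one τ
  have hv5 : Cd (op x) τ V3 c' 0 0 g' := by
    refine ⟨fx s1, fx s2, z', fx s3, ?_⟩
    simp only [yt_zero ho, mul_one]
    rw [yt_fix _ _ fix_ra, yt_fix _ _ fix_r3, yt_fix _ _ fix_r4, hV3]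
    rfl
  have hu5 : Cd x τ U3 a' 0 0 k' := by
    refine ⟨fx s4, fx s5, y', fx s6, ?_⟩
    simp only [yt_zero h, mul_one]
    rw [yt_fix _ _ fix_ra, yt_fix _ _ fix_r3, yt_fix _ _ fix_r4, hU3]
  refine Con.of_good h T ht hσ0 hv5 hu5 ?_
  by_contra hG
  have := T.diag_sum σ _ (fx s1) (fx s2) (fx s5) (fx s4) hm hmm (by simp [dg]) (by simp [dg]) (by simp [dg])
    (by have : m' = m⁻¹ := eq_inv_of_mul_eq_one_right hmm
        simp [dg, this]) hG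
  apply one_ne_zero (α := K)
  rw [← this, ← hs]
  ring

/-- THE PARITY THEOREM -/
theorem parity (h : Stb K x) (T : Tau τ) [Finite K] {σ : K} (hσ0 : σ ≠ 0) (hσ1 : σ ≠ 1) {g : G} (hg : g ∈ Hh x τ) : Con x τ σ g := by
  obtain ⟨t, ht⟩ := exists_Hb h T mov_rb
  obtain ⟨th, hth⟩ := exists_thH (τ := τ) h
  obtain ⟨χ, hχ⟩ := exists_ch (τ := τ) T.h3
  obtain ⟨⟨c, hc⟩, ⟨v, hv'⟩, hv, z, ⟨u, hu'⟩, hu, he⟩ := (datY h T.h3 hth hχ).tri ⟨g, hg⟩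
  have he' : c * g * c⁻¹ = v * hz x τ z * u := congrArg Subtype.val he
  rw [Subgroup.mem_subgroupOf] at hv hu
  refine Con.of_conj hc ?_
  rw [he']
  have ho := h.op
  -- the torus element
  have z0 : ((z 0 : Sf τ 0) : K) = 1 := by
    rcases T.fix _ (Sf_fix (τ := τ) (i := 0) (by decide) (z 0 : Sf τ 0)) with h1 | h1
    · exfalso
      apply (z 0).ne_zero
      exact Subtype.ext h1
    · exact h1
  have z1 : ((z 1 : Sf τ 1) : K) ≠ 0 := by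
    intro h1
    apply (z 1).ne_zero
    exact Subtype.ext h1
  have hz1 : hz x τ z = hy x τ rb ((z 1 : Sf τ 1) : K) := by
    unfold hz
    rw [z0, hy_one h, one_mul]
    rfl
  -- splitting
  obtain ⟨q, -, u2, hu2, rfl⟩ := Pi_split h T.h3 1 hu
  obtain ⟨p, -, v2, hv2, hv3⟩ := Pi_split ho T.h3 1 (inv_mem hv)
  have hv4 : v = v2⁻¹ * yt x τ (-rb) p := by
    rw [← inv_inv v, hv3, mul_inv_rev, yt_inv ho, T.neg_eq, yt_op]
    rfl
  have e1 : v * hz x τ z * (yt x τ (sn 1) q * u2) = v2⁻¹ * t (lo p * dg (Units.mk0 _ z1) * up q) * u2 := by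
    rw [hv4, hz1, map_mul, map_mul, ht.lo, ht.dg, ht.up, Units.val_mk0]
    have e0 : sn 1 = rb := rfl
    rw [e0]
    group
  rw [e1]
  exact Con.of_tri h T ht hσ0 hσ1 _ (inv_mem hv2) hu2

end Pool.Agent.ThT2
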