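import Pool.Agent.ThT.Fin
import Pool.Agent.ThT2.Par

/-! # 3D_4(2): products of two conjugates of the element of order 21 -/

namespace Pool.Agent.ThT2

open ThT ThG

variable {K : Type*} [Field K] {G : Type*} [Group G] {x : Root → K → G} {τ : K →+* K}

-- BEGIN td (helper12)
/-- THE PARITY THEOREM -/
theorem parity8 (h : Stb K x) (T : Tau τ) [Finite K] {σ : K} (hσ0 : σ ≠ 0) (hσ1 : σ ≠ 1) {g : G} (hg : g ∈ Hh x τ) :
    ∃ c ∈ Hh x τ, ∃ b : K, (b = 0 ∨ b = 1) ∧ ∃ ρ : K, (ρ = 1 ∨ ρ = σ ∨ ρ = σ⁻¹) ∧ ∃ v ∈ Sy (op x) τ (Pi' 0), ∃ u ∈ Sy x τ (Pi' 0),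
      c * g * c⁻¹ = v * (yt x τ (-ra) b * hy x τ rb ρ * yt x τ ra b) * u :=
  parity h T hσ0 hσ1 hg
-- END td

/-- the element of order 21 -/
def w8 (x : Root → K → G) (τ : K →+* K) (c : K) : G := yt x τ ra 1 * yt x τ (-ra) 1 * hy x τ rb c

-- BEGIN te
private theorem te_hy_inv (h : Stb K x) {c : K} (hc : c ≠ 0) : (hy x τ rb c)⁻¹ = hy x τ rb c⁻¹ := by
  have h1 := hy_mul (τ := τ) h rb hc (inv_ne_zero hc)
  rw [mul_inv_cancel₀ hc, hy_one h] at h1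
  exact inv_eq_of_mul_eq_one_right h1.symm

/-- MODULE te. `n = mm x 0`: `mm_mem`, `mm_yt` (`sn 0 = ra`), `mm0_hk` for `u` with `nm τ u = Nm τ u = 1` (`T.Nm_ne`): `hk x τ 1 u⁻¹ = hy x τ rb u⁻¹` (`hy_one`). -/
theorem exists_inv8 (h : Stb K x) (T : Tau τ) : ∃ n ∈ Hh x τ, n * yt x τ ra 1 * n⁻¹ = yt x τ ra 1 ∧ n * yt x τ (-ra) 1 * n⁻¹ = yt x τ (-ra) 1 ∧
    ∀ c : K, c ≠ 0 → n * hy x τ rb c * n⁻¹ = hy x τ rb c⁻¹ := by
  have h1 := mm_yt (τ := τ) h T.h3 0 (a := 1) (fun _ => map_one τ)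
  refine ⟨mm x 0, mm_mem h τ 0, h1.1, h1.2, fun c hc => ?_⟩
  have hu : c⁻¹ ≠ 0 := inv_ne_zero hc
  have h2 : c⁻¹ * τ c⁻¹ * τ (τ c⁻¹) = 1 := T.Nm_ne hu
  have h3 : τ c⁻¹ * τ (τ c⁻¹) = c := by
    have h4 : c * (c⁻¹ * τ c⁻¹ * τ (τ c⁻¹)) = τ c⁻¹ * τ (τ c⁻¹) := by
      rw [← mul_assoc, ← mul_assoc, mul_inv_cancel₀ hc, one_mul]
    rw [← h4, h2, mul_one]
  have h5 := mm0_hk (τ := τ) h T.h3 hu
  have h6 : nm τ c⁻¹ = 1 := h2
  have h7 : hk x τ 1 c = hy x τ rb c := by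
    unfold hk
    rw [hy_one h, one_mul]
  rw [h6, h3, h7, te_hy_inv h hc] at h5
  exact h5

private theorem te_hz (h : Stb K x) (T : Tau τ) {c : K} (hc : c ≠ 0) :
    ∃ z : ∀ i : Fin 2, (Sf τ i)ˣ, hz x τ z = hy x τ rb c ∧ chY τ (sn 0).1 z = 1 := by
  obtain ⟨z, e0, e1⟩ := exists_z (τ := τ) one_ne_zero hc (map_one τ)
  refine ⟨z, ?_, ?_⟩
  · unfold hz
    rw [e0, e1, hy_one h, one_mul]
    rfl
  · have h2 : c * τ c * τ (τ c) = 1 := T.Nm_ne hc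
    rw [chY_zero, e0, e1, h2, one_pow, inv_one, one_mul]

private theorem te_comm (h : Stb K x) (T : Tau τ) {c : K} (hc : c ≠ 0) (b : K) :
    hy x τ rb c * yt x τ ra b = yt x τ ra b * hy x τ rb c ∧ hy x τ rb c * yt x τ (-ra) b = yt x τ (-ra) b * hy x τ rb c := by
  obtain ⟨z, hz1, hz2⟩ := te_hz h T hc
  constructor
  · have e := hzY_conj h T.h3 z (sn 0) b
    rw [hz1, hz2, one_mul] at e
    exact mul_inv_eq_iff_eq_mul.1 e
  · have e := hzY_conj h T.h3 z (-sn 0) b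
    rw [neg_val, chY_neg, hz1, hz2, inv_one, one_mul] at e
    exact mul_inv_eq_iff_eq_mul.1 e

/-- `surU8`, `surV8`; the conjugacy: `exists_inv8` (`c' = c` or `c⁻¹`); normalizing `Sy x τ (Pi' 0)`: `yt_nrm h T.h3 0`, `hy_conj` on generators or `hz_nrm`. -/
theorem nice8 (h : Stb K x) (T : Tau τ) [Finite K] {c c' : K} (hc : c ≠ 0) (hc1 : c ≠ 1) (hc' : c' = c ∨ c' = c⁻¹) : Nice x τ 0 (w8 x τ c) (w8 x τ c') := by
  have c0 : c' ≠ 0 := by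
    rcases hc' with rfl | rfl
    · exact hc
    · exact inv_ne_zero hc
  have c1 : c' ≠ 1 := by
    rcases hc' with rfl | rfl
    · exact hc1
    · exact fun e => hc1 (inv_eq_one.1 e)
  refine ⟨?_, surU8 h T c0 c1, surV8 h T c0 c1, ?_⟩
  · rcases hc' with rfl | rfl
    · exact ⟨1, (Hh x τ).one_mem, by group⟩
    · obtain ⟨n, hn, n1, n2, n3⟩ := exists_inv8 h T
      refine ⟨n, hn, ?_⟩
      unfold w8
      rw [← n3 c hc]
      nth_rewrite 1 [← n1]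
      nth_rewrite 1 [← n2]
      group
  · intro u hu
    obtain ⟨z, hz1, hz2⟩ := te_hz h T c0
    have ok : Ok τ (sn 0) 1 := fun _ => map_one τ
    have k1 := (hz_nrm h T.h3 z (Pi' 0)).1 u hu
    rw [hz1] at k1
    have k2 := (yt_nrm h T.h3 0 ok).2.1 _ k1
    have k3 := (yt_nrm h T.h3 0 ok).1 _ k2
    have e : w8 x τ c' * u * (w8 x τ c')⁻¹ =
        yt x τ (sn 0) 1 * (yt x τ (-sn 0) 1 * (hy x τ rb c' * u * (hy x τ rb c')⁻¹) * (yt x τ (-sn 0) 1)⁻¹) * (yt x τ (sn 0) 1)⁻¹ := by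
      show (yt x τ (sn 0) 1 * yt x τ (-sn 0) 1 * hy x τ rb c') * u * (yt x τ (sn 0) 1 * yt x τ (-sn 0) 1 * hy x τ rb c')⁻¹ = _
      group
    rw [e]
    exact k3

/-- `y_α(1) * w8 c' * y_α(1)⁻¹ = y_(-α)(1) y_α(1) h(c') = (y_α(1) y_(-α)(1))⁻¹ h(c')` (`yt_nrm`, `Nice.conj`); `h(c')` commutes with `y_(±α)(1)` because `Nm c' = 1` (`hy_conj`). -/
theorem nice8' (h : Stb K x) (T : Tau τ) [Finite K] {c c' : K} (hc : c ≠ 0) (hc1 : c ≠ 1) (hc' : c' = c ∨ c' = c⁻¹) :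
    Nice x τ 0 (w8 x τ c) (yt x τ (-ra) 1 * yt x τ ra 1 * hy x τ rb c') := by
  have c0 : c' ≠ 0 := by
    rcases hc' with rfl | rfl
    · exact hc
    · exact inv_ne_zero hc
  have ok : Ok τ (sn 0) (1 : K) := fun _ => map_one τ
  have ok' : Ok τ (sn 0) (-1 : K) := fun _ => by rw [map_neg, map_one]
  have e0 : (yt x τ (sn 0) 1)⁻¹ = yt x τ (sn 0) (-1) := yt_inv h τ (sn 0) 1
  obtain ⟨a1, a2, a3, a4⟩ := yt_nrm h T.h3 0 ok
  obtain ⟨b1, b2, b3, b4⟩ := yt_nrm h T.h3 0 ok'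
  rw [← e0] at b1 b3
  have key := Nice.conj (nice8 h T hc hc1 hc') (c := (yt x τ (sn 0) 1)⁻¹) ((Hh x τ).inv_mem (yt_mem x τ ok)) b1
    (fun u hu => by rw [inv_inv]; exact a1 u hu) b3 (fun u hu => by rw [inv_inv]; exact a3 u hu)
  have e1 : (yt x τ (sn 0) 1)⁻¹ * w8 x τ c' * ((yt x τ (sn 0) 1)⁻¹)⁻¹ = yt x τ (-ra) 1 * yt x τ ra 1 * hy x τ rb c' := by
    have e2 := (te_comm h T c0 (1 : K)).1
    show (yt x τ ra 1)⁻¹ * (yt x τ ra 1 * yt x τ (-ra) 1 * hy x τ rb c') * ((yt x τ ra 1)⁻¹)⁻¹ = _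
    rw [mul_assoc (yt x τ (-ra) 1), ← e2]
    group
  rw [e1] at key
  exact key
-- END te

-- BEGIN tf
private theorem tf_hy_inv (h : Stb K x) {c : K} (hc : c ≠ 0) : (hy x τ rb c)⁻¹ = hy x τ rb c⁻¹ := by
  have h1 := hy_mul (τ := τ) h rb hc (inv_ne_zero hc)
  rw [mul_inv_cancel₀ hc, hy_one h] at h1
  exact inv_eq_of_mul_eq_one_right h1.symm

private theorem tf_comm (h : Stb K x) (T : Tau τ) {c : K} (hc : c ≠ 0) (b : K) :
    hy x τ rb c * yt x τ ra b = yt x τ ra b * hy x τ rb c ∧ hy x τ rb c * yt x τ (-ra) b = yt x τ (-ra) b * hy x τ rb c := by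
  obtain ⟨z, e0, e1⟩ := exists_z (τ := τ) one_ne_zero hc (map_one τ)
  have hz1 : hz x τ z = hy x τ rb c := by
    unfold hz
    rw [e0, e1, hy_one h, one_mul]
    rfl
  have hz2 : chY τ (sn 0).1 z = 1 := by
    have h2 : c * τ c * τ (τ c) = 1 := T.Nm_ne hc
    rw [chY_zero, e0, e1, h2, one_pow, inv_one, one_mul]
  constructor
  · have e := hzY_conj h T.h3 z (sn 0) b
    rw [hz1, hz2, one_mul] at e
    exact mul_inv_eq_iff_eq_mul.1 e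
  · have e := hzY_conj h T.h3 z (-sn 0) b
    rw [neg_val, chY_neg, hz1, hz2, inv_one, one_mul] at e
    exact mul_inv_eq_iff_eq_mul.1 e

/-- `s' s'' = ρ` with `s', s'' ∈ {s, s⁻¹}` -/
private theorem tf_split {s ρ : K} (hs : s ≠ 0) (hρ : ρ = 1 ∨ ρ = s * s ∨ ρ = (s * s)⁻¹) :
    ∃ s' s'' : K, (s' = s ∨ s' = s⁻¹) ∧ (s'' = s ∨ s'' = s⁻¹) ∧ s' * s'' = ρ := by
  rcases hρ with rfl | rfl | rfl
  · exact ⟨s, s⁻¹, Or.inl rfl, Or.inr rfl, mul_inv_cancel₀ hs⟩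
  · exact ⟨s, s, Or.inl rfl, Or.inl rfl, rfl⟩
  · exact ⟨s⁻¹, s⁻¹, Or.inr rfl, Or.inr rfl, by rw [mul_inv]⟩

/-- MODULE tf. `3D_4(2)`: `s ≠ 0, 1` (`T.exists_lam`), `σ = s * s ≠ 0, 1` (char 2), `w = w8 x τ s`, `parity8` for `σ`.  With `A = y_α(1) y_(-α)(1)`, `A ^ 3 = 1` (`w_pow3` for `c = 1`), `A⁻¹ = y_(-α)(1) y_α(1)`:
`b = 0`: `h(ρ) = (A h(s')) (A⁻¹ h(s''))`, `b = 1`: `y_(-α)(1) h(ρ) y_α(1) = h(ρ) A⁻¹ = (A h(s')) (A h(s''))` with `s', s'' ∈ {s, s⁻¹}`, `s' s'' = ρ`: `Nice.prod`, conjugate back by `c`.  Real: `w⁻¹ = A⁻¹ h(s⁻¹)`: `y_α(1) n w n⁻¹ y_α(1)⁻¹`. -/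
theorem good8 (h : Stb K x) (T : Tau τ) [Finite K] : Good x τ := by
  obtain ⟨s, hs0, hs1⟩ := T.exists_lam
  have hσ0 : s * s ≠ 0 := mul_ne_zero hs0 hs0
  have hσ1 : s * s ≠ 1 := by
    intro e
    have e1 : (s - 1) * (s - 1) = 0 := by linear_combination e + (1 - s) * T.two
    rcases mul_eq_zero.1 e1 with e2 | e2
    · exact hs1 (sub_eq_zero.1 e2)
    · exact hs1 (sub_eq_zero.1 e2)
  have m1 : yt x τ ra 1 ∈ Hh x τ := yt_mem x τ (fun _ => map_one τ)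
  have m2 : yt x τ (-ra) 1 ∈ Hh x τ := yt_mem x τ (fun _ => map_one τ)
  have m3 : hy x τ rb s ∈ Hh x τ := hy_mem h rb hs0 (Ok.of_ne (by decide) s)
  -- the inverse of A
  have i1 : (yt x τ ra 1)⁻¹ = yt x τ ra 1 := by rw [yt_inv h, T.neg_eq]
  have i2 : (yt x τ (-ra) 1)⁻¹ = yt x τ (-ra) 1 := by rw [yt_inv h, T.neg_eq]
  have iA : (yt x τ ra 1 * yt x τ (-ra) 1)⁻¹ = yt x τ (-ra) 1 * yt x τ ra 1 := by
    rw [mul_inv_rev, i1, i2]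
  have pA : (yt x τ ra 1 * yt x τ (-ra) 1) * (yt x τ ra 1 * yt x τ (-ra) 1) = (yt x τ ra 1 * yt x τ (-ra) 1)⁻¹ := by
    have e := w_pow3 h T (one_ne_zero (α := K))
    rw [hy_one h, mul_one, one_pow, hy_one h] at e
    refine eq_inv_of_mul_eq_one_left ?_
    rw [← e, pow_succ, pow_two]
  -- the torus commutes with A
  have cA : ∀ {c : K}, c ≠ 0 → hy x τ rb c * (yt x τ ra 1 * yt x τ (-ra) 1) = yt x τ ra 1 * yt x τ (-ra) 1 * hy x τ rb c := by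
    intro c hc
    obtain ⟨k1, k2⟩ := tf_comm h T hc (1 : K)
    rw [← mul_assoc, k1, mul_assoc, k2, mul_assoc]
  have cB : ∀ {c : K}, c ≠ 0 → hy x τ rb c * (yt x τ (-ra) 1 * yt x τ ra 1) = yt x τ (-ra) 1 * yt x τ ra 1 * hy x τ rb c := by
    intro c hc
    obtain ⟨k1, k2⟩ := tf_comm h T hc (1 : K)
    rw [← mul_assoc, k2, mul_assoc, k1, mul_assoc]
  refine ⟨w8 x τ s, mul_mem (mul_mem m1 m2) m3, ?_, ?_⟩
  · intro g hg _
    obtain ⟨c, hc, b, hb, ρ, hρ, v, hv, u, hu, e⟩ := parity8 h T hσ0 hσ1 hg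
    obtain ⟨s', s'', h1, h2, h3⟩ := tf_split hs0 hρ
    have s'0 : s' ≠ 0 := by
      rcases h1 with rfl | rfl
      · exact hs0
      · exact inv_ne_zero hs0
    have s''0 : s'' ≠ 0 := by
      rcases h2 with rfl | rfl
      · exact hs0
      · exact inv_ne_zero hs0
    have hm : hy x τ rb ρ = hy x τ rb s' * hy x τ rb s'' := by
      rw [← h3, hy_mul h rb s'0 s''0]
    have key : ∃ g1 g2 : G, Nice x τ 0 (w8 x τ s) g1 ∧ Nice x τ 0 (w8 x τ s) g2 ∧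
        yt x τ (-ra) b * hy x τ rb ρ * yt x τ ra b = g1 * g2 := by
      rcases hb with rfl | rfl
      · refine ⟨_, _, nice8 h T hs0 hs1 h1, nice8' h T hs0 hs1 h2, ?_⟩
        rw [yt_zero h, yt_zero h, one_mul, mul_one, hm]
        show _ = yt x τ ra 1 * yt x τ (-ra) 1 * hy x τ rb s' * (yt x τ (-ra) 1 * yt x τ ra 1 * hy x τ rb s'')
        rw [← cA s'0, ← iA]
        group
      · refine ⟨_, _, nice8 h T hs0 hs1 h1, nice8 h T hs0 hs1 h2, ?_⟩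
        have ρ0 : ρ ≠ 0 := by
          rw [← h3]
          exact mul_ne_zero s'0 s''0
        show _ = yt x τ ra 1 * yt x τ (-ra) 1 * hy x τ rb s' * (yt x τ ra 1 * yt x τ (-ra) 1 * hy x τ rb s'')
        have e1 : yt x τ ra 1 * yt x τ (-ra) 1 * hy x τ rb s' * (yt x τ ra 1 * yt x τ (-ra) 1 * hy x τ rb s'') =
            (yt x τ ra 1 * yt x τ (-ra) 1) * (yt x τ ra 1 * yt x τ (-ra) 1) * (hy x τ rb s' * hy x τ rb s'') := by
          have e2 := cA s'0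
          calc yt x τ ra 1 * yt x τ (-ra) 1 * hy x τ rb s' * (yt x τ ra 1 * yt x τ (-ra) 1 * hy x τ rb s'')
              = yt x τ ra 1 * yt x τ (-ra) 1 * (hy x τ rb s' * (yt x τ ra 1 * yt x τ (-ra) 1)) * hy x τ rb s'' := by group
            _ = yt x τ ra 1 * yt x τ (-ra) 1 * (yt x τ ra 1 * yt x τ (-ra) 1 * hy x τ rb s') * hy x τ rb s'' := by rw [e2]
            _ = _ := by group
        rw [e1, pA, iA, ← hm, mul_assoc (yt x τ (-ra) 1), (tf_comm h T ρ0 (1 : K)).1, mul_assoc]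
    obtain ⟨g1, g2, n1, n2, e3⟩ := key
    rw [e3] at e
    obtain ⟨a, ha, d, hd, e4⟩ := Nice.prod n1 n2 hv hu
    rw [e4] at e
    refine ⟨c⁻¹ * a, mul_mem (inv_mem hc) ha, c⁻¹ * d, mul_mem (inv_mem hc) hd, ?_⟩
    have e5 : g = c⁻¹ * (c * g * c⁻¹) * c := by group
    rw [e5, e]
    group
  · obtain ⟨⟨a, ha, e⟩, -⟩ := nice8' h T hs0 hs1 (c' := s⁻¹) (Or.inr rfl)
    refine ⟨a, ha, ?_⟩
    rw [← e]
    show _ = (yt x τ ra 1 * yt x τ (-ra) 1 * hy x τ rb s)⁻¹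
    rw [mul_inv_rev, tf_hy_inv h hs0, iA, cB (inv_ne_zero hs0)]
-- END tf

end Pool.Agent.ThT2
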