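import Pool.Agent.ThT.Three
import Pool.Agent.ThT2.Fin8

/-! # The quotient by the centre, all fields: `³D_4(q)` for every `q`, `G_2(q)` for `q > 2` -/

namespace Pool.Agent.ThT2

open ThT

variable {K : Type*} [Field K] {G : Type*} [Group G] {x : Root → K → G} {τ : K →+* K}

theorem quot_good (hg : Good x τ) :
    ∃ g : Hh x τ ⧸ Subgroup.center (Hh x τ), ∀ z : Hh x τ ⧸ Subgroup.center (Hh x τ), ∃ a b, IsConj g a ∧ IsConj g b ∧ a * b = z := by
  obtain ⟨w, hw, hall, c, hc, hcw⟩ := hg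
  refine ⟨QuotientGroup.mk ⟨w, hw⟩, fun z => ?_⟩
  obtain ⟨y, rfl⟩ := QuotientGroup.mk_surjective z
  by_cases hy : ∃ u ∈ Hh x τ, u * (y : G) ≠ y * u
  · obtain ⟨a, ha, b, hb, e⟩ := hall y.1 y.2 hy
    refine ⟨QuotientGroup.mk (⟨a, ha⟩ * ⟨w, hw⟩ * ⟨a, ha⟩⁻¹), QuotientGroup.mk (⟨b, hb⟩ * ⟨w, hw⟩ * ⟨b, hb⟩⁻¹), ?_, ?_, ?_⟩
    · rw [isConj_iff]
      exact ⟨QuotientGroup.mk ⟨a, ha⟩, rfl⟩
    · rw [isConj_iff]
      exact ⟨QuotientGroup.mk ⟨b, hb⟩, rfl⟩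
    · rw [← QuotientGroup.mk_mul]
      exact congrArg _ (Subtype.ext e.symm)
  · push Not at hy
    have hz : y ∈ Subgroup.center (Hh x τ) := by
      rw [Subgroup.mem_center_iff]
      intro u
      exact Subtype.ext (hy u.1 u.2)
    refine ⟨QuotientGroup.mk ⟨w, hw⟩, QuotientGroup.mk (⟨c, hc⟩ * ⟨w, hw⟩ * ⟨c, hc⟩⁻¹), IsConj.refl _, ?_, ?_⟩
    · rw [isConj_iff]
      exact ⟨QuotientGroup.mk ⟨c, hc⟩, rfl⟩
    · rw [(QuotientGroup.eq_one_iff _).2 hz, ← QuotientGroup.mk_mul]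
      have e : (⟨w, hw⟩ : Hh x τ) * (⟨c, hc⟩ * ⟨w, hw⟩ * ⟨c, hc⟩⁻¹) = 1 := by
        apply Subtype.ext
        show w * (c * w * c⁻¹) = 1
        rw [hcw, mul_inv_cancel]
      rw [e]
      rfl

/-- all finite fields -/
theorem small_all [Finite K] (h : Stb K x) (hτ : ∀ a, τ (τ (τ a)) = a) (hK : (∃ a, τ a ≠ a) ∨ 2 < Nat.card K) : Good x τ := by
  by_cases hv : ∃ v, τ v ≠ v
  · obtain ⟨v, hv⟩ := hv
    by_cases hc : ∃ c : K, c ≠ 0 ∧ c ≠ 1 ∧ τ c = c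
    · obtain ⟨c, hc⟩ := hc
      exact good_tri h hτ hv hc
    · refine good8 h ⟨hτ, fun a ha => ?_, ⟨v, hv⟩⟩
      by_contra h1
      push Not at h1
      exact hc ⟨a, h1.1, h1.2, ha⟩
  · have ht : ∀ a, τ a = a := fun a => by
      by_contra h1
      exact hv ⟨a, h1⟩
    have hK' : 2 < Nat.card K := hK.resolve_left hv
    by_cases h3 : Nat.card K = 3
    · exact good_three h ht h3
    · exact good_two h ht (by omega)

/-- the twisted system satisfies the same relations -/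
theorem stb_tw (h : Stb K x) (hτ : ∀ a, τ (τ (τ a)) = a) : Stb K (fun r a => x (sr r) (τ a)) := by
  have hn : ∀ (r : Root) (a : K), nn (fun r a => x (sr r) (τ a)) r a = nn x (sr r) (τ a) := fun r a => by
    unfold nn
    beta_reduce
    rw [sr_neg, map_inv₀]
  have hh' : ∀ (r : Root) (a : K), hh (fun r a => x (sr r) (τ a)) r a = hh x (sr r) (τ a) := fun r a => by
    unfold hh
    rw [hn, hn, map_neg, map_one]
  have hs : ∀ r s : Root, (sr r).1 + (sr s).1 = sg (r.1 + s.1) := fun r s => rfl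
  refine ⟨fun r a b => ?_, fun r s t ht a b => ?_, fun r s h0 h1 a b => ?_, fun r a b ha hb => ?_, ?_⟩
  · show x (sr r) (τ (a + b)) = x (sr r) (τ a) * x (sr r) (τ b)
    rw [map_add, h.add]
  · have h2 : (sr t).1 = (sr r).1 + (sr s).1 := by
      rw [hs, ← ht]
      rfl
    have h3 := h.sum (sr r) (sr s) (sr t) h2 (τ a) (τ b)
    have h4 : τ ((ep K r.1 s.1 : Kˣ) : K) = ((ep K r.1 s.1 : Kˣ) : K) := eps_map τ r.1 s.1
    rw [ep_sr] at h3
    show _ = x (sr t) (τ ((ep K r.1 s.1 : Kˣ) * a * b))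
    rw [map_mul, map_mul, h4]
    exact h3
  · refine h.comm _ _ (fun h2 => h0 ?_) (fun t h2 => h1 (sr (sr t)) ?_) _ _
    · rw [hs] at h2
      rw [← sg_sg_sg (r.1 + s.1), h2]
      rfl
    · rw [hs] at h2
      rw [sr_val, sr_val, h2, sg_sg_sg]
  · rw [hh', hh', hh', map_mul]
    exact h.tor _ _ _ (by simpa using ha) (by simpa using hb)
  · rw [eq_top_iff, ← h.gen]
    apply Subgroup.closure_mono
    rintro _ ⟨r, a, rfl⟩
    exact ⟨sr (sr r), τ (τ a), by rw [sr_sr_sr, hτ]⟩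

end Pool.Agent.ThT2
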